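import Mathlib

/-!
# BE54: asymptotics
-/

set_option autoImplicit false
namespace Pool.Agent.Be54
open Finset

private theorem a_pow_exp (c' : ℝ) (hc' : 0 < c') :
    Filter.Tendsto (fun w : ℕ => (w : ℝ) ^ 12 * Real.exp (-(c' * (w : ℝ))))
      Filter.atTop (nhds 0) := by
  have h := (Real.tendsto_pow_mul_exp_neg_atTop_nhds_zero 12).comp
    ((tendsto_natCast_atTop_atTop (R := ℝ)).const_mul_atTop hc')
  have h' := h.div_const (c' ^ 12)
  rw [zero_div] at h'
  refine h'.congr fun w => ?_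
  simp only [Function.comp]
  rw [mul_pow]
  field_simp

private theorem a_exp (c : ℝ) (hc : 0 < c) :
    Filter.Tendsto (fun w : ℕ => Real.exp (-(c * (w : ℝ)))) Filter.atTop (nhds 0) :=
  Real.tendsto_exp_neg_atTop_nhds_zero.comp
    ((tendsto_natCast_atTop_atTop (R := ℝ)).const_mul_atTop hc)

private theorem a_log (c : ℝ) (hc : 0 < c) :
    ∀ᶠ w : ℕ in Filter.atTop, Real.log (w : ℝ) ≤ c * (w : ℝ) := by
  have h := (Real.isLittleO_log_id_atTop.comp_tendsto
    (tendsto_natCast_atTop_atTop (R := ℝ))).def hc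
  filter_upwards [h] with w hw
  simp only [Function.comp, id, Real.norm_eq_abs] at hw
  rw [abs_of_nonneg (show (0 : ℝ) ≤ (w : ℝ) from Nat.cast_nonneg w)] at hw
  exact le_trans (le_abs_self _) hw

theorem asym (c c' : ℝ) (hc : 0 < c) (hc' : 0 < c') : ∃ w0 : ℕ, ∀ w : ℕ, w0 ≤ w →
    ((w ^ 12 : ℕ) : ℝ) * Real.exp (-(c' * (w : ℝ) ^ 3)) < 1 / 2 ∧
    Real.exp (-(c * (w : ℝ) ^ 12)) +
      (((w ^ 12 + 1) ^ (4 * w ^ 5) : ℕ) : ℝ) * (3 * Real.exp (-(c * (w : ℝ) ^ 6))) < 1 := by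
  have h1 := (a_pow_exp c' hc').eventually_lt_const (show (0 : ℝ) < 1 / 2 by norm_num)
  have h2 := (a_exp (c / 2) (half_pos hc)).eventually_lt_const
    (show (0 : ℝ) < 1 / 8 by norm_num)
  have h3 := a_log (c / 104) (by positivity)
  obtain ⟨w0, hw0⟩ := Filter.eventually_atTop.1 ((h1.and h2).and (h3.and
    (Filter.eventually_ge_atTop 2)))
  refine ⟨w0, fun w hw => ?_⟩
  obtain ⟨⟨e1, e2⟩, e3, e4⟩ := hw0 w hw
  have hw1 : (1 : ℝ) ≤ w := by
    have : 1 ≤ w := by omega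
    exact_mod_cast this
  have hw2 : (2 : ℝ) ≤ w := by exact_mod_cast e4
  have hwp : (0 : ℝ) < w := by linarith
  have hmono : ∀ k : ℕ, k ≠ 0 → (w : ℝ) ≤ (w : ℝ) ^ k := fun k hk => le_self_pow₀ hw1 hk
  constructor
  · refine lt_of_le_of_lt ?_ e1
    push_cast
    apply mul_le_mul_of_nonneg_left _ (by positivity)
    apply Real.exp_le_exp.2
    have := mul_le_mul_of_nonneg_left (hmono 3 (by norm_num)) hc'.le
    linarith
  · have hA : Real.exp (-(c * (w : ℝ) ^ 12)) ≤ Real.exp (-(c / 2 * (w : ℝ))) := by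
      apply Real.exp_le_exp.2
      have a1 := mul_le_mul_of_nonneg_left (hmono 12 (by norm_num)) hc.le
      have a2 : 0 ≤ c * (w : ℝ) := by positivity
      linarith
    have hB : (((w ^ 12 + 1) ^ (4 * w ^ 5) : ℕ) : ℝ) ≤ Real.exp (c / 2 * (w : ℝ) ^ 6) := by
      push_cast
      have b1 : (w : ℝ) ^ 12 + 1 ≤ (w : ℝ) ^ 13 := by
        have h12 : (1 : ℝ) ≤ (w : ℝ) ^ 12 := one_le_pow₀ hw1
        have h13 : (w : ℝ) ^ 13 = (w : ℝ) ^ 12 * w := by ring
        rw [h13]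
        nlinarith
      have b2 : ((w : ℝ) ^ 12 + 1) ^ (4 * w ^ 5) ≤ ((w : ℝ) ^ 13) ^ (4 * w ^ 5) :=
        pow_le_pow_left₀ (by positivity) b1 _
      refine le_trans b2 ?_
      rw [← pow_mul]
      have b3 : (w : ℝ) ^ (13 * (4 * w ^ 5)) =
          Real.exp (((13 * (4 * w ^ 5) : ℕ) : ℝ) * Real.log w) := by
        rw [Real.exp_nat_mul, Real.exp_log hwp]
      rw [b3]
      apply Real.exp_le_exp.2
      push_cast
      have b4 : (0 : ℝ) ≤ 52 * (w : ℝ) ^ 5 := by positivity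
      have b5 := mul_le_mul_of_nonneg_left e3 b4
      have b6 : (52 : ℝ) * (w : ℝ) ^ 5 * (c / 104 * (w : ℝ)) = c / 2 * (w : ℝ) ^ 6 := by ring
      have b7 : (13 : ℝ) * (4 * (w : ℝ) ^ 5) * Real.log w = 52 * (w : ℝ) ^ 5 * Real.log w := by
        ring
      rw [b7]
      linarith
    have hC : (((w ^ 12 + 1) ^ (4 * w ^ 5) : ℕ) : ℝ) * (3 * Real.exp (-(c * (w : ℝ) ^ 6))) ≤
        3 * Real.exp (-(c / 2 * (w : ℝ))) := by
      have c1 := mul_le_mul_of_nonneg_right hB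
        (show 0 ≤ 3 * Real.exp (-(c * (w : ℝ) ^ 6)) by positivity)
      refine le_trans c1 ?_
      have c2 : Real.exp (c / 2 * (w : ℝ) ^ 6) * (3 * Real.exp (-(c * (w : ℝ) ^ 6))) =
          3 * Real.exp (-(c / 2 * (w : ℝ) ^ 6)) := by
        rw [mul_left_comm, ← Real.exp_add]
        congr 2
        ring
      rw [c2]
      apply mul_le_mul_of_nonneg_left _ (by norm_num)
      apply Real.exp_le_exp.2
      have := mul_le_mul_of_nonneg_left (hmono 6 (by norm_num)) (half_pos hc).le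
      linarith
    linarith

end Pool.Agent.Be54
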