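import Pool.Agent.Be54.Defs

set_option autoImplicit false

/-!
Fingerprints: a random subset `T` of a Sidon set `S` is small and blocks every point with many
conflicts.
-/

namespace Pool.Agent.Be54
open Finset

/-- the weight of the subset `T` of `S` -/
private noncomputable def f_wt {α : Type*} (S : Finset α) (x : ℝ) (T : Finset α) : ℝ :=
  x ^ T.card * (1 - x) ^ (S.card - T.card)

private theorem f_wt_nonneg {α : Type*} (S : Finset α) {x : ℝ} (h0 : 0 ≤ x) (h1 : x ≤ 1)
    (T : Finset α) : 0 ≤ f_wt S x T :=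
  mul_nonneg (pow_nonneg h0 _) (pow_nonneg (by linarith) _)

private theorem f_sum_sub {α : Type*} [DecidableEq α] (S : Finset α) (x : ℝ) (A : Finset α)
    (hA : A ⊆ S) :
    ∑ T ∈ S.powerset, f_wt S x T * (if A ⊆ T then 1 else 0) = x ^ A.card := by
  have h := Finset.prod_add (fun _ : α => x) (fun i => if i ∈ A then (0 : ℝ) else 1 - x) S
  have h1 : ∏ i ∈ S, (x + if i ∈ A then (0 : ℝ) else 1 - x) = x ^ A.card := by
    have h2 : ∀ i ∈ S, (x + if i ∈ A then (0 : ℝ) else 1 - x) = if i ∈ A then x else 1 := by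
      intro i _
      split_ifs <;> ring
    rw [Finset.prod_congr rfl h2, Finset.prod_ite_mem, Finset.inter_eq_right.2 hA,
      Finset.prod_const]
  rw [← h1, h]
  refine Finset.sum_congr rfl fun T hT => ?_
  rw [Finset.mem_powerset] at hT
  rw [f_wt, mul_assoc, Finset.prod_const]
  congr 1
  by_cases hAT : A ⊆ T
  · rw [if_pos hAT, mul_one]
    have h3 : ∀ i ∈ S \ T, (if i ∈ A then (0 : ℝ) else 1 - x) = 1 - x := by
      intro i hi
      rw [if_neg fun hiA => (Finset.mem_sdiff.1 hi).2 (hAT hiA)]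
    rw [Finset.prod_congr rfl h3, Finset.prod_const, Finset.card_sdiff_of_subset hT]
  · rw [if_neg hAT, mul_zero]
    obtain ⟨a, haA, haT⟩ := Finset.not_subset.1 hAT
    symm
    apply Finset.prod_eq_zero (Finset.mem_sdiff.2 ⟨hA haA, haT⟩)
    rw [if_pos haA]

private theorem f_sum_wt {α : Type*} [DecidableEq α] (S : Finset α) (x : ℝ) :
    ∑ T ∈ S.powerset, f_wt S x T = 1 := by
  have h := f_sum_sub S x ∅ (Finset.empty_subset _)
  simpa using h

private theorem f_disj {α β : Type*} [DecidableEq α] [DecidableEq β] (S : Finset α) (x : ℝ)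
    (I : Finset β) (τ : β → Finset α) (hτ : ∀ j ∈ I, τ j ⊆ S)
    (hd : (I : Set β).PairwiseDisjoint τ) :
    ∑ T ∈ S.powerset, f_wt S x T * (if ∀ j ∈ I, ¬ τ j ⊆ T then 1 else 0) =
      ∏ j ∈ I, (1 - x ^ (τ j).card) := by
  have h1 : ∀ T : Finset α, (if ∀ j ∈ I, ¬ τ j ⊆ T then (1 : ℝ) else 0) =
      ∑ J ∈ I.powerset, (-1) ^ J.card * (if J.biUnion τ ⊆ T then (1 : ℝ) else 0) := by
    intro T
    have h2 : (if ∀ j ∈ I, ¬ τ j ⊆ T then (1 : ℝ) else 0) =
        ∏ j ∈ I, (1 + -(if τ j ⊆ T then (1 : ℝ) else 0)) := by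
      by_cases h : ∀ j ∈ I, ¬ τ j ⊆ T
      · rw [if_pos h, Finset.prod_eq_one]
        intro j hj
        rw [if_neg (h j hj)]
        ring
      · rw [if_neg h]
        push Not at h
        obtain ⟨j, hj, hjT⟩ := h
        rw [Finset.prod_eq_zero hj]
        rw [if_pos hjT]
        ring
    rw [h2, Finset.prod_one_add]
    refine Finset.sum_congr rfl fun J _ => ?_
    have h3 : ∏ j ∈ J, -(if τ j ⊆ T then (1 : ℝ) else 0) =
        (-1) ^ J.card * ∏ j ∈ J, (if τ j ⊆ T then (1 : ℝ) else 0) := by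
      rw [← Finset.prod_const, ← Finset.prod_mul_distrib]
      refine Finset.prod_congr rfl fun j _ => ?_
      ring
    rw [h3]
    congr 1
    by_cases h : J.biUnion τ ⊆ T
    · rw [if_pos h, Finset.prod_eq_one]
      intro j hj
      rw [if_pos ((Finset.subset_biUnion_of_mem τ hj).trans h)]
    · rw [if_neg h]
      rw [Finset.biUnion_subset] at h
      push Not at h
      obtain ⟨j, hj, hjT⟩ := h
      rw [Finset.prod_eq_zero hj]
      rw [if_neg hjT]
  have h4 : ∀ J ∈ I.powerset, (J.biUnion τ).card = ∑ j ∈ J, (τ j).card := by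
    intro J hJ
    rw [Finset.mem_powerset] at hJ
    exact Finset.card_biUnion fun i hi j hj hij => hd (hJ hi) (hJ hj) hij
  calc ∑ T ∈ S.powerset, f_wt S x T * (if ∀ j ∈ I, ¬ τ j ⊆ T then (1 : ℝ) else 0)
      = ∑ T ∈ S.powerset, ∑ J ∈ I.powerset,
          (-1) ^ J.card * (f_wt S x T * (if J.biUnion τ ⊆ T then (1 : ℝ) else 0)) := by
        refine Finset.sum_congr rfl fun T _ => ?_
        rw [h1, Finset.mul_sum]
        refine Finset.sum_congr rfl fun J _ => ?_
        ring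
    _ = ∑ J ∈ I.powerset, (-1) ^ J.card * x ^ (J.biUnion τ).card := by
        rw [Finset.sum_comm]
        refine Finset.sum_congr rfl fun J hJ => ?_
        rw [← Finset.mul_sum, f_sum_sub]
        rw [Finset.biUnion_subset]
        intro j hj
        exact hτ j (Finset.mem_powerset.1 hJ hj)
    _ = ∑ J ∈ I.powerset, ∏ j ∈ J, -(x ^ (τ j).card) := by
        refine Finset.sum_congr rfl fun J hJ => ?_
        rw [h4 J hJ, ← Finset.prod_pow_eq_pow_sum, ← Finset.prod_const, ← Finset.prod_mul_distrib]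
        refine Finset.prod_congr rfl fun j _ => ?_
        ring
    _ = ∏ j ∈ I, (1 - x ^ (τ j).card) := by
        rw [← Finset.prod_one_add]
        refine Finset.prod_congr rfl fun j _ => ?_
        ring

private theorem f_disj_le {α β : Type*} [DecidableEq α] [DecidableEq β] (S : Finset α) (x : ℝ)
    (hx0 : 0 ≤ x) (hx1 : x ≤ 1)
    (I : Finset β) (τ : β → Finset α) (hτ : ∀ j ∈ I, τ j ⊆ S)
    (hd : (I : Set β).PairwiseDisjoint τ) (h3 : ∀ j ∈ I, (τ j).card ≤ 3) :
    ∑ T ∈ S.powerset, f_wt S x T * (if ∀ j ∈ I, ¬ τ j ⊆ T then 1 else 0) ≤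
      Real.exp (-(x ^ 3 * I.card)) := by
  rw [f_disj S x I τ hτ hd]
  calc ∏ j ∈ I, (1 - x ^ (τ j).card) ≤ ∏ _j ∈ I, Real.exp (-x ^ 3) := by
        refine Finset.prod_le_prod (fun j _ => ?_) fun j hj => ?_
        · have := pow_le_one₀ hx0 hx1 (n := (τ j).card)
          linarith
        · have h4 : x ^ 3 ≤ x ^ (τ j).card := pow_le_pow_of_le_one hx0 hx1 (h3 j hj)
          have h5 := Real.add_one_le_exp (-x ^ 3)
          linarith
    _ = Real.exp (-(x ^ 3 * I.card)) := by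
        rw [Finset.prod_const, ← Real.exp_nat_mul]
        congr 1
        ring

/-- the events: many conflicts give many disjoint triples -/
private theorem f_family (S : Finset ℤ) (hSid : Sid S) (c : ℤ) (hc : c ∉ S) :
    ∃ (I : Finset ℤ) (τ : ℤ → Finset ℤ), (∀ j ∈ I, τ j ⊆ S) ∧
      (I : Set ℤ).PairwiseDisjoint τ ∧ (∀ j ∈ I, (τ j).card ≤ 3) ∧ qf S c ≤ 12 * I.card ∧
      ∀ T : Finset ℤ, Sid (insert c T) → ∀ j ∈ I, ¬ τ j ⊆ T := by
  classical
  have hex : ∀ b ∈ S.filter (fun b => c - b ∈ Df S), ∃ p : ℤ × ℤ, p.1 ∈ S ∧ p.2 ∈ S ∧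
      p.1 - p.2 = c - b ∧ p.1 ≠ p.2 := by
    intro b hb
    have h1 := (Finset.mem_filter.1 hb).2
    rw [Df, Finset.mem_erase, Finset.mem_image] at h1
    obtain ⟨h0, p, hp, hpe⟩ := h1
    rw [Finset.mem_product] at hp
    refine ⟨p, hp.1, hp.2, hpe, fun h => h0 ?_⟩
    rw [← hpe, h, sub_self]
  choose! p hp1 hp2 hpe hpne using hex
  set Q := S.filter (fun b => c - b ∈ Df S) with hQ
  set τ : ℤ → Finset ℤ := fun b => {b, (p b).1, (p b).2} with hτ
  have hQS : ∀ b ∈ Q, b ∈ S := fun b hb => (Finset.mem_filter.1 hb).1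
  have hτS : ∀ b ∈ Q, τ b ⊆ S := by
    intro b hb w hw
    simp only [hτ, Finset.mem_insert, Finset.mem_singleton] at hw
    rcases hw with rfl | rfl | rfl
    · exact hQS _ hb
    · exact hp1 b hb
    · exact hp2 b hb
  have hτ3 : ∀ b, (τ b).card ≤ 3 := fun b => Finset.card_le_three
  -- a point lies in at most four of the triples
  have hfour : ∀ w : ℤ, (Q.filter (fun b => w ∈ τ b)).card ≤ 4 := by
    intro w
    have hsub : Q.filter (fun b => w ∈ τ b) ⊆
        ({w} : Finset ℤ) ∪ (Q.filter (fun b => (p b).1 = w)) ∪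
          (Q.filter (fun b => (p b).2 = w)) := by
      intro b hb
      rw [Finset.mem_filter] at hb
      obtain ⟨hbQ, hb⟩ := hb
      simp only [hτ, Finset.mem_insert, Finset.mem_singleton] at hb
      simp only [Finset.mem_union, Finset.mem_singleton, Finset.mem_filter]
      rcases hb with h | h | h
      · exact Or.inl (Or.inl h.symm)
      · exact Or.inl (Or.inr ⟨hbQ, h.symm⟩)
      · exact Or.inr ⟨hbQ, h.symm⟩
    have hone : (Q.filter (fun b => (p b).1 = w)).card ≤ 1 := by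
      rw [Finset.card_le_one]
      intro b₁ h1 b₂ h2
      rw [Finset.mem_filter] at h1 h2
      by_contra hne
      have e1 := hpe b₁ h1.1
      have e2 := hpe b₂ h2.1
      have h3 := hSid b₁ (hQS _ h1.1) b₂ (hQS _ h2.1) (p b₁).2 (hp2 _ h1.1) (p b₂).2
        (hp2 _ h2.1) hne (by rw [h1.2] at e1; rw [h2.2] at e2; linarith)
      apply hc
      have : c = (p b₁).1 := by rw [← h3.1] at e1; linarith
      rw [this]
      exact hp1 _ h1.1
    have htwo : (Q.filter (fun b => (p b).2 = w)).card ≤ 2 := by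
      by_contra hcon
      push Not at hcon
      obtain ⟨b₁, h1, b₂, h2, b₃, h3, h12, h13, h23⟩ := Finset.two_lt_card.1 hcon
      rw [Finset.mem_filter] at h1 h2 h3
      have e1 := hpe b₁ h1.1
      have e2 := hpe b₂ h2.1
      have e3 := hpe b₃ h3.1
      rw [h1.2] at e1
      rw [h2.2] at e2
      rw [h3.2] at e3
      have g2 := hSid b₁ (hQS _ h1.1) b₂ (hQS _ h2.1) (p b₂).1 (hp1 _ h2.1) (p b₁).1
        (hp1 _ h1.1) h12 (by linarith)
      have g3 := hSid b₁ (hQS _ h1.1) b₃ (hQS _ h3.1) (p b₃).1 (hp1 _ h3.1) (p b₁).1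
        (hp1 _ h1.1) h13 (by linarith)
      exact h23 (g2.2.trans g3.2.symm)
    calc (Q.filter (fun b => w ∈ τ b)).card ≤ _ := Finset.card_le_card hsub
      _ ≤ (({w} : Finset ℤ) ∪ (Q.filter (fun b => (p b).1 = w))).card +
          (Q.filter (fun b => (p b).2 = w)).card := Finset.card_union_le _ _
      _ ≤ (({w} : Finset ℤ).card + (Q.filter (fun b => (p b).1 = w)).card) +
          (Q.filter (fun b => (p b).2 = w)).card :=
        Nat.add_le_add_right (Finset.card_union_le _ _) _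
      _ ≤ 4 := by rw [Finset.card_singleton]; omega
  -- a maximal disjoint subfamily
  obtain ⟨I, hI, hImax⟩ := Finset.exists_max_image
    (Q.powerset.filter (fun I : Finset ℤ => (I : Set ℤ).PairwiseDisjoint τ)) Finset.card
    ⟨∅, by simp⟩
  rw [Finset.mem_filter, Finset.mem_powerset] at hI
  obtain ⟨hIQ, hId⟩ := hI
  have hmeet : ∀ b ∈ Q, ∃ w ∈ I.biUnion τ, w ∈ τ b := by
    intro b hb
    by_cases hbI : b ∈ I
    · exact ⟨b, Finset.mem_biUnion.2 ⟨b, hbI, by simp [hτ]⟩, by simp [hτ]⟩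
    · by_contra hcon
      push Not at hcon
      have hnew : insert b I ∈ Q.powerset.filter
          (fun I : Finset ℤ => (I : Set ℤ).PairwiseDisjoint τ) := by
        rw [Finset.mem_filter, Finset.mem_powerset]
        refine ⟨Finset.insert_subset hb hIQ, ?_⟩
        rw [Finset.coe_insert]
        refine hId.insert fun j hj _ => ?_
        rw [Finset.disjoint_left]
        intro w hw hwj
        exact hcon w (Finset.mem_biUnion.2 ⟨j, hj, hwj⟩) hw
      have := hImax _ hnew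
      rw [Finset.card_insert_of_notMem hbI] at this
      omega
  refine ⟨I, τ, fun j hj => hτS j (hIQ hj), hId, fun j _ => hτ3 j, ?_, ?_⟩
  · -- counting
    have h1 : Q ⊆ (I.biUnion τ).biUnion (fun w => Q.filter (fun b => w ∈ τ b)) := by
      intro b hb
      obtain ⟨w, hw, hwb⟩ := hmeet b hb
      exact Finset.mem_biUnion.2 ⟨w, hw, Finset.mem_filter.2 ⟨hb, hwb⟩⟩
    calc qf S c = Q.card := rfl
      _ ≤ _ := Finset.card_le_card h1
      _ ≤ (I.biUnion τ).card * 4 := Finset.card_biUnion_le_card_mul _ _ _ fun w _ => hfour w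
      _ ≤ (I.card * 3) * 4 :=
        Nat.mul_le_mul_right _ (Finset.card_biUnion_le_card_mul _ _ _ fun b _ => hτ3 b)
      _ = 12 * I.card := by ring
  · intro T hT j hj hjT
    have hjQ := hIQ hj
    have hcj : c ≠ j := fun h => hc (h ▸ hQS j hjQ)
    have m1 : j ∈ T := hjT (by simp [hτ])
    have m2 : (p j).1 ∈ T := hjT (by simp [hτ])
    have m3 : (p j).2 ∈ T := hjT (by simp [hτ])
    have h1 := hT c (Finset.mem_insert_self _ _) j (Finset.mem_insert_of_mem m1) (p j).1
      (Finset.mem_insert_of_mem m2) (p j).2 (Finset.mem_insert_of_mem m3) hcj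
      (hpe j hjQ).symm
    apply hc
    rw [h1.1]
    exact hp1 j hjQ

/-! ### F : fingerprints -/

theorem fingerprint (N : ℕ) (S : Finset ℤ) (m x B : ℝ) (hS : S ⊆ Icc 1 (N : ℤ)) (hSid : Sid S)
    (hx0 : 0 < x) (hx1 : x ≤ 1) (hm : 0 ≤ m) (hB0 : 0 < B) (hB : 2 * x * S.card ≤ B)
    (hN : (N : ℝ) * Real.exp (-(x ^ 3 * m / 12)) < 1 / 2) :
    ∃ T ⊆ S, (T.card : ℝ) ≤ B ∧ ∀ c ∈ Icc 1 (N : ℤ), Sid (insert c T) → c ∈ S ∪ Ex N S m := by
  classical
  set U : Finset ℤ := (Icc 1 (N : ℤ)).filter (fun c => c ∉ S ∧ c ∉ Ex N S m) with hU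
  have hUS : ∀ c ∈ U, c ∉ S := fun c hc => (Finset.mem_filter.1 hc).2.1
  have hq : ∀ c ∈ U, m < (qf S c : ℝ) := by
    intro c hc
    obtain ⟨h1, h2, h3⟩ := Finset.mem_filter.1 hc
    by_contra h4
    push Not at h4
    exact h3 (Finset.mem_filter.2 ⟨Finset.mem_sdiff.2 ⟨h1, h2⟩, h4⟩)
  have hfam : ∀ c ∈ U, ∃ (I : Finset ℤ) (τ : ℤ → Finset ℤ), (∀ j ∈ I, τ j ⊆ S) ∧
      (I : Set ℤ).PairwiseDisjoint τ ∧ (∀ j ∈ I, (τ j).card ≤ 3) ∧ qf S c ≤ 12 * I.card ∧
      ∀ T : Finset ℤ, Sid (insert c T) → ∀ j ∈ I, ¬ τ j ⊆ T :=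
    fun c hc => f_family S hSid c (hUS c hc)
  choose! I τ hτS hd h3 hI hT using hfam
  set F : Finset ℤ → ℝ := fun T => (T.card : ℝ) / B +
    ∑ c ∈ U, (if ∀ j ∈ I c, ¬ τ c j ⊆ T then (1 : ℝ) else 0) with hF
  have hsum : ∑ T ∈ S.powerset, f_wt S x T * F T < 1 := by
    have e1 : ∑ T ∈ S.powerset, f_wt S x T * F T =
        (∑ T ∈ S.powerset, f_wt S x T * T.card) / B +
        ∑ c ∈ U, ∑ T ∈ S.powerset, f_wt S x T *
          (if ∀ j ∈ I c, ¬ τ c j ⊆ T then (1 : ℝ) else 0) := by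
      rw [Finset.sum_comm, Finset.sum_div, ← Finset.sum_add_distrib]
      refine Finset.sum_congr rfl fun T _ => ?_
      rw [hF]
      simp only
      rw [mul_add, Finset.mul_sum, mul_div_assoc]
    have e2 : ∑ T ∈ S.powerset, f_wt S x T * (T.card : ℝ) = x * S.card := by
      have e3 : ∀ T ∈ S.powerset, f_wt S x T * (T.card : ℝ) =
          ∑ s ∈ S, f_wt S x T * (if ({s} : Finset ℤ) ⊆ T then (1 : ℝ) else 0) := by
        intro T hT
        rw [Finset.mem_powerset] at hT
        rw [← Finset.mul_sum]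
        congr 1
        simp only [Finset.singleton_subset_iff]
        rw [Finset.sum_ite_mem, Finset.inter_eq_right.2 hT]
        simp
      rw [Finset.sum_congr rfl e3, Finset.sum_comm]
      have e4 : ∀ s ∈ S, ∑ T ∈ S.powerset, f_wt S x T *
          (if ({s} : Finset ℤ) ⊆ T then (1 : ℝ) else 0) = x := by
        intro s hs
        rw [f_sum_sub S x {s} (Finset.singleton_subset_iff.2 hs)]
        simp
      rw [Finset.sum_congr rfl e4]
      simp [mul_comm]
    have e5 : ∑ c ∈ U, ∑ T ∈ S.powerset, f_wt S x T *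
          (if ∀ j ∈ I c, ¬ τ c j ⊆ T then (1 : ℝ) else 0) ≤
        (N : ℝ) * Real.exp (-(x ^ 3 * m / 12)) := by
      calc ∑ c ∈ U, ∑ T ∈ S.powerset, f_wt S x T *
          (if ∀ j ∈ I c, ¬ τ c j ⊆ T then (1 : ℝ) else 0)
          ≤ ∑ _c ∈ U, Real.exp (-(x ^ 3 * m / 12)) := by
            refine Finset.sum_le_sum fun c hc => ?_
            refine (f_disj_le S x hx0.le hx1 (I c) (τ c) (hτS c hc) (hd c hc) (h3 c hc)).trans ?_
            rw [Real.exp_le_exp, neg_le_neg_iff]
            have h4 : (qf S c : ℝ) ≤ 12 * ((I c).card : ℝ) := by exact_mod_cast hI c hc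
            have h5 := hq c hc
            have h6 : m / 12 ≤ ((I c).card : ℝ) := by linarith
            have h7 : 0 ≤ x ^ 3 := by positivity
            calc x ^ 3 * m / 12 = x ^ 3 * (m / 12) := by ring
              _ ≤ x ^ 3 * ((I c).card : ℝ) := mul_le_mul_of_nonneg_left h6 h7
        _ = (U.card : ℝ) * Real.exp (-(x ^ 3 * m / 12)) := by
            rw [Finset.sum_const, nsmul_eq_mul]
        _ ≤ (N : ℝ) * Real.exp (-(x ^ 3 * m / 12)) := by
            refine mul_le_mul_of_nonneg_right ?_ (Real.exp_pos _).le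
            have h8 : U.card ≤ N := by
              calc U.card ≤ (Icc 1 (N : ℤ)).card := Finset.card_filter_le _ _
                _ = N := by simp
            exact_mod_cast h8
    rw [e1, e2]
    have e6 : x * (S.card : ℝ) / B ≤ 1 / 2 := by
      rw [div_le_iff₀ hB0]
      linarith
    linarith
  -- some `T` has `F T < 1`
  obtain ⟨T, hTS, hTF⟩ : ∃ T ∈ S.powerset, F T < 1 := by
    by_contra hcon
    push Not at hcon
    have h1 : ∑ T ∈ S.powerset, f_wt S x T ≤ ∑ T ∈ S.powerset, f_wt S x T * F T := by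
      refine Finset.sum_le_sum fun T hT => ?_
      have := f_wt_nonneg S hx0.le hx1 T
      nlinarith [hcon T hT]
    rw [f_sum_wt] at h1
    linarith
  rw [Finset.mem_powerset] at hTS
  have hnn : ∀ c ∈ U, (0 : ℝ) ≤ (if ∀ j ∈ I c, ¬ τ c j ⊆ T then (1 : ℝ) else 0) := by
    intro c _
    split_ifs <;> norm_num
  have hTB : 0 ≤ (T.card : ℝ) / B := div_nonneg (Nat.cast_nonneg _) hB0.le
  refine ⟨T, hTS, ?_, ?_⟩
  · have h1 : (T.card : ℝ) / B < 1 := by
      have := Finset.sum_nonneg hnn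
      have h2 : F T = (T.card : ℝ) / B +
        ∑ c ∈ U, (if ∀ j ∈ I c, ¬ τ c j ⊆ T then (1 : ℝ) else 0) := rfl
      linarith
    rw [div_lt_one hB0] at h1
    exact h1.le
  · intro c hc hsid
    by_contra hcU
    rw [Finset.mem_union, not_or] at hcU
    have hcU' : c ∈ U := Finset.mem_filter.2 ⟨hc, hcU⟩
    have h1 : (1 : ℝ) ≤ ∑ c ∈ U, (if ∀ j ∈ I c, ¬ τ c j ⊆ T then (1 : ℝ) else 0) := by
      refine le_trans ?_ (Finset.single_le_sum hnn hcU')
      rw [if_pos (hT c hcU' T hsid)]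
    have h2 : F T = (T.card : ℝ) / B +
        ∑ c ∈ U, (if ∀ j ∈ I c, ¬ τ c j ⊆ T then (1 : ℝ) else 0) := rfl
    linarith

end Pool.Agent.Be54
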