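import Pool.Agent.Be54.Defs
import Pool.Agent.Be54.F

set_option autoImplicit false

/-!
Containers for the large Sidon subsets of `[1,N]`.
-/

namespace Pool.Agent.Be54

open Finset

theorem d_sid_mono {S T : Finset ℤ} (hTS : T ⊆ S) (h : Sid S) : Sid T := by
  intro a ha b hb c hc d hd hab he
  exact h a (hTS ha) b (hTS hb) c (hTS hc) d (hTS hd) hab he

theorem d_card_small (X : Finset ℤ) (hX : (0 : ℤ) ∉ X) (τ : ℕ) :
    (X.powerset.filter (fun T => T.card ≤ τ)).card ≤ (X.card + 1) ^ τ := by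
  classical
  have hsub : X.powerset.filter (fun T => T.card ≤ τ) ⊆
      (Fintype.piFinset (fun _ : Fin τ => insert (0 : ℤ) X)).image
        (fun f => (univ.image f) ∩ X) := by
    intro T hT
    rw [mem_filter, mem_powerset] at hT
    obtain ⟨hTX, hTc⟩ := hT
    rw [mem_image]
    let e := T.equivFin
    refine ⟨fun i => if h : i.val < T.card then ((e.symm ⟨i.val, h⟩ : T) : ℤ) else 0, ?_, ?_⟩
    · rw [Fintype.mem_piFinset]
      intro i
      by_cases h : i.val < T.card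
      · simp only [h, dif_pos]
        exact mem_insert_of_mem (hTX (e.symm ⟨i.val, h⟩).2)
      · simp only [h, dif_neg, not_false_eq_true]
        exact mem_insert_self _ _
    · ext y
      rw [mem_inter, mem_image]
      constructor
      · rintro ⟨⟨i, _, hi⟩, hyX⟩
        by_cases h : i.val < T.card
        · simp only [h, dif_pos] at hi
          rw [← hi]
          exact (e.symm ⟨i.val, h⟩).2
        · simp only [h, dif_neg, not_false_eq_true] at hi
          rw [← hi] at hyX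
          exact absurd hyX hX
      · intro hy
        refine ⟨?_, hTX hy⟩
        have hlt : (e ⟨y, hy⟩).val < T.card := (e ⟨y, hy⟩).2
        refine ⟨⟨(e ⟨y, hy⟩).val, lt_of_lt_of_le hlt hTc⟩, mem_univ _, ?_⟩
        simp only [hlt, dif_pos]
        have h1 : (⟨(e ⟨y, hy⟩).val, hlt⟩ : Fin T.card) = e ⟨y, hy⟩ := rfl
        rw [h1, Equiv.symm_apply_apply]
  refine (card_le_card hsub).trans (card_image_le.trans ?_)
  rw [Fintype.card_piFinset]
  simp only [prod_const, card_univ, Fintype.card_fin]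
  rw [card_insert_of_notMem hX]

/-- `P` is a container seed for the fingerprint `T` -/
def d_good (N : ℕ) (lo m : ℝ) (T P : Finset ℤ) : Prop :=
  P ⊆ Icc 1 (N : ℤ) ∧ Sid P ∧ lo ≤ (P.card : ℝ) ∧
    ∀ c ∈ Icc 1 (N : ℤ), Sid (insert c T) → c ∈ P ∪ Ex N P m

theorem containers (N τ : ℕ) (lo m x : ℝ) (hτ : 0 < τ)
    (hx0 : 0 < x) (hx1 : x ≤ 1) (hm : 0 ≤ m)
    (hB : ∀ S ⊆ Icc 1 (N : ℤ), Sid S → 2 * x * (S.card : ℝ) ≤ τ)
    (hN : (N : ℝ) * Real.exp (-(x ^ 3 * m / 12)) < 1 / 2) :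
    ∃ PP : Finset (Finset ℤ), PP.card ≤ (N + 1) ^ τ ∧
      (∀ P ∈ PP, P ⊆ Icc 1 (N : ℤ) ∧ Sid P ∧ lo ≤ (P.card : ℝ)) ∧
      ∀ S ⊆ Icc 1 (N : ℤ), Sid S → lo ≤ (S.card : ℝ) → ∃ P ∈ PP, S ⊆ P ∪ Ex N P m := by
  classical
  have hch : ∀ T : Finset ℤ, ∃ P : Finset ℤ,
      (∃ P', d_good N lo m T P') → d_good N lo m T P := by
    intro T
    by_cases h : ∃ P', d_good N lo m T P'
    · obtain ⟨P, hP⟩ := h
      exact ⟨P, fun _ => hP⟩
    · exact ⟨∅, fun h' => absurd h' h⟩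
  choose φ hφ using hch
  refine ⟨(((Icc 1 (N : ℤ)).powerset.filter (fun T => T.card ≤ τ)).filter
    (fun T => ∃ P', d_good N lo m T P')).image φ, ?_, ?_, ?_⟩
  · refine card_image_le.trans ((card_filter_le _ _).trans ?_)
    have h0 : (0 : ℤ) ∉ Icc 1 (N : ℤ) := by
      rw [mem_Icc]
      omega
    have h1 := d_card_small (Icc 1 (N : ℤ)) h0 τ
    have h2 : (Icc 1 (N : ℤ)).card = N := by
      rw [Int.card_Icc]
      omega
    rw [h2] at h1
    exact h1
  · intro P hP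
    rw [mem_image] at hP
    obtain ⟨T, hT, rfl⟩ := hP
    rw [mem_filter] at hT
    have hg := hφ T hT.2
    exact ⟨hg.1, hg.2.1, hg.2.2.1⟩
  · intro S hS hSid hlo
    have hτ' : (0 : ℝ) < (τ : ℝ) := by exact_mod_cast hτ
    obtain ⟨T, hTS, hTc, hT⟩ := fingerprint N S m x τ hS hSid hx0 hx1 hm hτ' (hB S hS hSid) hN
    have hgood : ∃ P', d_good N lo m T P' := ⟨S, hS, hSid, hlo, hT⟩
    have hg := hφ T hgood
    refine ⟨φ T, ?_, ?_⟩
    · rw [mem_image]
      refine ⟨T, ?_, rfl⟩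
      rw [mem_filter, mem_filter, mem_powerset]
      exact ⟨⟨hTS.trans hS, by exact_mod_cast hTc⟩, hgood⟩
    · intro c hc
      exact hg.2.2.2 c (hS hc) (d_sid_mono (insert_subset hc hTS) hSid)

end Pool.Agent.Be54
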