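import Mathlib

set_option autoImplicit false

/-!
Definitions for the disproof of Erdős' conjecture `f(k,1) ~ k^2` (problem MP_be54a8_co).
-/

namespace Pool.Agent.Be54

open Finset

/-- all differences of distinct elements are distinct -/
def Sid (S : Finset ℤ) : Prop :=
  ∀ a ∈ S, ∀ b ∈ S, ∀ c ∈ S, ∀ d ∈ S, a ≠ b → a - b = c - d → a = c ∧ b = d

/-- the nonzero differences of `S` -/
def Df (S : Finset ℤ) : Finset ℤ := ((S ×ˢ S).image (fun p => p.1 - p.2)).erase 0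

/-- number of conflicts of `c` with `S` -/
def qf (S : Finset ℤ) (c : ℤ) : ℕ := (S.filter (fun b => c - b ∈ Df S)).card

/-- the points of `[1,N]` outside `S` having at most `m` conflicts with `S` -/
noncomputable def Ex (N : ℕ) (S : Finset ℤ) (m : ℝ) : Finset ℤ :=
  ((Icc 1 (N : ℤ)) \ S).filter (fun c => (qf S c : ℝ) ≤ m)

/-- ordered pairs of distinct representations `a - b = c - d` of the same nonzero difference
of absolute value `< u` -/
def Qd (Y : Finset ℤ) (u : ℕ) : Finset ((ℤ × ℤ) × (ℤ × ℤ)) :=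
  ((Y ×ˢ Y) ×ˢ (Y ×ˢ Y)).filter (fun p =>
    p.1.1 - p.1.2 = p.2.1 - p.2.2 ∧ p.1.1 ≠ p.1.2 ∧ p.1 ≠ p.2 ∧ (p.1.1 - p.1.2).natAbs < u)

/-- `#{((z,z'),y) ∈ E² × P : h + y = z + z'}` -/
def Fp (P E : Finset ℤ) (h : ℤ) : ℕ :=
  (((E ×ˢ E) ×ˢ P).filter (fun t => h + t.2 = t.1.1 + t.1.2)).card

/-- `#{((z,z'),y) ∈ E² × P : z ≠ z', h - y = z - z'}` -/
def Fm (P E : Finset ℤ) (h : ℤ) : ℕ :=
  (((E ×ˢ E) ×ˢ P).filter (fun t => t.1.1 ≠ t.1.2 ∧ h - t.2 = t.1.1 - t.1.2)).card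

/-- total weight -/
def ff (P E : Finset ℤ) (h : ℤ) : ℕ := Fp P E h + 2 * Fm P E h

/-- number of points of `E` at distance `< u` from `h` -/
def vv (E : Finset ℤ) (u : ℕ) (h : ℤ) : ℕ := (E.filter (fun z => (h - z).natAbs < u)).card

end Pool.Agent.Be54
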