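import Pool.Agent.Be54.Main

set_option autoImplicit false

namespace Pool.Agent.Be54

open Finset

/-- a real set without large subset with distinct distances, from an integer set -/
lemma real_transfer (A : Finset ℤ) (k : ℕ) (hA : ∀ S ⊆ A, Sid S → S.card < k) :
    ∀ T ⊆ A.image (fun a : ℤ => (a : ℝ)), T.card = k →
      ¬ (∀ a ∈ T, ∀ b ∈ T, ∀ c ∈ T, ∀ d ∈ T, a ≠ b → c ≠ d →
            |a - b| = |c - d| → ((a = c ∧ b = d) ∨ (a = d ∧ b = c))) := by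
  intro T hT hTk hSid
  have hinj : Function.Injective (fun a : ℤ => (a : ℝ)) := Int.cast_injective
  obtain ⟨S, hS⟩ : ∃ S : Finset ℤ, S = A.filter (fun a : ℤ => (a : ℝ) ∈ T) := ⟨_, rfl⟩
  have hST : S.image (fun a : ℤ => (a : ℝ)) = T := by
    ext x
    simp only [Finset.mem_image, hS, Finset.mem_filter]
    constructor
    · rintro ⟨a, ⟨_, h⟩, rfl⟩; exact h
    · intro hx
      obtain ⟨a, ha, rfl⟩ := Finset.mem_image.1 (hT hx)
      exact ⟨a, ⟨ha, hx⟩, rfl⟩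
  have hcard : S.card = k := by
    rw [← hTk, ← hST, Finset.card_image_of_injective _ hinj]
  have hSA : S ⊆ A := by rw [hS]; exact Finset.filter_subset _ _
  have hmem : ∀ a ∈ S, (a : ℝ) ∈ T := by
    intro a ha
    rw [hS, Finset.mem_filter] at ha
    exact ha.2
  have hSS : Sid S := by
    intro a ha b hb c hc d hd hab h
    have hcd : c ≠ d := by
      rintro rfl
      apply hab
      linarith
    have h1 : |(a : ℝ) - b| = |(c : ℝ) - d| := by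
      congr 1
      exact_mod_cast h
    rcases hSid a (hmem a ha) b (hmem b hb) c (hmem c hc) d (hmem d hd)
      (by exact_mod_cast hab) (by exact_mod_cast hcd) h1 with h2 | h2
    · exact ⟨by exact_mod_cast h2.1, by exact_mod_cast h2.2⟩
    · exfalso
      have e1 : a = d := by exact_mod_cast h2.1
      have e2 : b = c := by exact_mod_cast h2.2
      apply hab
      subst e1 e2
      linarith
  have := hA S hSA hSS
  omega

/-- Erdős' conjecture `f(k,1) ~ k^2` is false. -/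
theorem final :
    ¬ (∀ ε : ℝ, 0 < ε → ∃ K : ℕ, ∀ k : ℕ, K ≤ k →
      (∃ n : ℕ, (n : ℝ) ≤ (1 + ε) * (k : ℝ) ^ 2 ∧
        ∀ S : Finset ℝ, n ≤ S.card → ∃ T ⊆ S, T.card = k ∧
          ∀ a ∈ T, ∀ b ∈ T, ∀ c ∈ T, ∀ d ∈ T, a ≠ b → c ≠ d →
            |a - b| = |c - d| → ((a = c ∧ b = d) ∨ (a = d ∧ b = c)))) := by
  intro h
  obtain ⟨δ, hδ0, hδ1, hmain⟩ := main_exists
  obtain ⟨K, hK⟩ := h (δ / 8) (by positivity)
  obtain ⟨M, hM⟩ := exists_nat_ge (100 / δ + 2 * K)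
  obtain ⟨n, hMn, A, hA, hAS⟩ := hmain M
  have hnr : 100 / δ + 2 * K ≤ (n : ℝ) := hM.trans (by exact_mod_cast hMn)
  have hKr : (0 : ℝ) ≤ K := by positivity
  have hn100 : 100 / δ ≤ (n : ℝ) := by linarith
  have hnδ : 100 ≤ δ * (n : ℝ) := by
    rw [div_le_iff₀ hδ0] at hn100
    linarith
  have hn0 : (0 : ℝ) < n := lt_of_lt_of_le (by positivity) hn100
  obtain ⟨k, hk⟩ : ∃ k : ℕ, k = ⌈(1 - 3 / 4 * δ) * (n : ℝ)⌉₊ := ⟨_, rfl⟩
  have hk1 : (1 - 3 / 4 * δ) * (n : ℝ) ≤ k := by rw [hk]; exact Nat.le_ceil _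
  have hk2 : (k : ℝ) < (1 - 3 / 4 * δ) * (n : ℝ) + 1 := by
    rw [hk]; apply Nat.ceil_lt_add_one
    apply mul_nonneg _ hn0.le
    linarith
  have hKk : K ≤ k := by
    have h1 : (K : ℝ) ≤ n / 2 := by
      have : (0 : ℝ) ≤ 100 / δ := by positivity
      linarith
    have h2 : (n : ℝ) / 2 ≤ (1 - 3 / 4 * δ) * n := by nlinarith
    exact_mod_cast (h1.trans (h2.trans hk1))
  obtain ⟨n0, hn0k, hall⟩ := hK k hKk
  have hcardA : n0 ≤ (A.image (fun a : ℤ => (a : ℝ))).card := by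
    rw [Finset.card_image_of_injective _ Int.cast_injective]
    have hk3 : (k : ℝ) ≤ (1 - 37 / 50 * δ) * n := by nlinarith
    have hk4 : (k : ℝ) ^ 2 ≤ ((1 - 37 / 50 * δ) * n) ^ 2 := pow_le_pow_left₀ (by positivity) hk3 2
    have h5 : (1 + δ / 8) * ((1 - 37 / 50 * δ) * (n : ℝ)) ^ 2 ≤ (1 - 17 / 16 * δ) * (n : ℝ) ^ 2 := by
      have h6 : (1 + δ / 8) * (1 - 37 / 50 * δ) ^ 2 ≤ 1 - 17 / 16 * δ := by
        nlinarith [mul_pos hδ0 hδ0, mul_pos (mul_pos hδ0 hδ0) hδ0]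
      calc (1 + δ / 8) * ((1 - 37 / 50 * δ) * (n : ℝ)) ^ 2
          = ((1 + δ / 8) * (1 - 37 / 50 * δ) ^ 2) * (n : ℝ) ^ 2 := by ring
        _ ≤ (1 - 17 / 16 * δ) * (n : ℝ) ^ 2 := mul_le_mul_of_nonneg_right h6 (by positivity)
    have h7 : (n0 : ℝ) ≤ A.card := by
      calc (n0 : ℝ) ≤ (1 + δ / 8) * (k : ℝ) ^ 2 := hn0k
        _ ≤ (1 + δ / 8) * ((1 - 37 / 50 * δ) * (n : ℝ)) ^ 2 :=
            mul_le_mul_of_nonneg_left hk4 (by positivity)
        _ ≤ _ := h5.trans hA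
    exact_mod_cast h7
  obtain ⟨T, hT, hTk, hTS⟩ := hall _ hcardA
  refine real_transfer A k ?_ T hT hTk hTS
  intro S hS hSS
  have h8 := hAS S hS hSS
  have : (S.card : ℝ) < k := lt_of_lt_of_le h8 hk1
  exact_mod_cast this

end Pool.Agent.Be54
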