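import Pool.Agent.Be54.Defs

set_option autoImplicit false

/-!
Window inequality for sets of integers with few repeated differences.
-/

namespace Pool.Agent.Be54

open Finset

theorem w_card_Ico_inter (a b : ℤ) (u : ℕ) :
    (Ico (max a b - (u : ℤ)) (min a b)).card = u - (a - b).natAbs := by
  rw [Int.card_Ico]
  rcases le_total a b with hab | hab
  · rw [max_eq_right hab, min_eq_left hab]; omega
  · rw [max_eq_left hab, min_eq_right hab]; omega

theorem window_gen (X V : Finset ℤ) (u : ℕ)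
    (hV : ∀ x ∈ X, ∀ y : ℤ, y < x → x ≤ y + u → y ∈ V) :
    (X.card * u) ^ 2 ≤ V.card * ∑ p ∈ X ×ˢ X, (u - (p.1 - p.2).natAbs) := by
  classical
  set w : ℤ → ℕ := fun y => (X.filter (fun x => y < x ∧ x ≤ y + u)).card with hw
  have h1 : ∑ y ∈ V, w y = X.card * u := by
    have e1 : ∑ y ∈ V, w y = ∑ x ∈ X, (V.filter (fun y => y < x ∧ x ≤ y + u)).card := by
      simp only [hw, Finset.card_filter]
      rw [Finset.sum_comm]
    rw [e1]
    have e2 : ∀ x ∈ X, (V.filter (fun y => y < x ∧ x ≤ y + u)).card = u := by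
      intro x hx
      have e3 : V.filter (fun y => y < x ∧ x ≤ y + u) = Ico (x - u) x := by
        ext y
        simp only [mem_filter, mem_Ico]
        constructor
        · rintro ⟨_, h2, h3⟩; omega
        · rintro ⟨h2, h3⟩; exact ⟨hV x hx y h3 (by omega), h3, by omega⟩
      rw [e3, Int.card_Ico]; omega
    rw [Finset.sum_congr rfl e2, Finset.sum_const, smul_eq_mul]
  have h2 : ∑ y ∈ V, w y ^ 2 ≤ ∑ p ∈ X ×ˢ X, (u - (p.1 - p.2).natAbs) := by
    have e1 : ∀ y ∈ V, w y ^ 2 = ∑ p ∈ X ×ˢ X,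
        (if (y < p.1 ∧ p.1 ≤ y + u) ∧ (y < p.2 ∧ p.2 ≤ y + u) then 1 else 0) := by
      intro y _
      rw [← Finset.card_filter, sq]
      simp only [hw]
      rw [← Finset.card_product, ← Finset.filter_product]
    rw [Finset.sum_congr rfl e1, Finset.sum_comm]
    refine Finset.sum_le_sum ?_
    intro p _
    rw [← Finset.card_filter, ← w_card_Ico_inter]
    refine Finset.card_le_card ?_
    intro y hy
    simp only [mem_filter] at hy
    rw [mem_Ico]
    constructor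
    · rcases max_choice p.1 p.2 with hm | hm <;> rw [hm] <;> omega
    · exact lt_min hy.2.1.1 hy.2.2.1
  calc (X.card * u) ^ 2 = (∑ y ∈ V, w y) ^ 2 := by rw [h1]
    _ ≤ V.card * ∑ y ∈ V, w y ^ 2 := sq_sum_le_card_mul_sum_sq
    _ ≤ _ := Nat.mul_le_mul_left _ h2

theorem w_sum_Ico (u : ℕ) : 2 * ∑ d ∈ Ico 1 u, (u - d) ≤ u ^ 2 := by
  rcases Nat.eq_zero_or_pos u with h0 | h0
  · subst h0; simp
  · have e1 : ∑ d ∈ Ico 1 u, (u - d) = ∑ d ∈ Ico 1 u, d := by
      refine Finset.sum_bij' (fun d _ => u - d) (fun d _ => u - d) ?_ ?_ ?_ ?_ ?_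
      · intro d hd; rw [mem_Ico] at hd ⊢; omega
      · intro d hd; rw [mem_Ico] at hd ⊢; omega
      · intro d hd; rw [mem_Ico] at hd; show u - (u - d) = d; omega
      · intro d hd; rw [mem_Ico] at hd; show u - (u - d) = d; omega
      · intro d hd; rfl
    have e2 : ∑ d ∈ Ico 1 u, d ≤ ∑ d ∈ range u, d := by
      refine Finset.sum_le_sum_of_subset ?_
      intro d hd; rw [mem_Ico] at hd; rw [mem_range]; omega
    have e3 : (∑ d ∈ range u, d) * 2 = u * (u - 1) := Finset.sum_range_id_mul_two u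
    have e4 : u * (u - 1) ≤ u ^ 2 := by
      rw [sq]; exact Nat.mul_le_mul_left _ (Nat.sub_le _ _)
    rw [e1]; omega

theorem w_diag_sum (S : Finset ℤ) (u : ℕ) :
    ∑ p ∈ (S ×ˢ S).filter (fun p => p.1 = p.2), (u - (p.1 - p.2).natAbs) = u * S.card := by
  have e1 : ∀ p ∈ (S ×ˢ S).filter (fun p => p.1 = p.2), (u - (p.1 - p.2).natAbs) = u := by
    intro p hp
    rw [mem_filter] at hp
    rw [hp.2]; simp
  rw [Finset.sum_congr rfl e1, Finset.sum_const, smul_eq_mul, mul_comm]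
  congr 1
  have e2 : (S ×ˢ S).filter (fun p => p.1 = p.2) = S.diag := by
    ext p
    simp only [mem_filter, mem_product, mem_diag]
    constructor
    · rintro ⟨⟨h1, _⟩, h3⟩; exact ⟨h1, h3⟩
    · rintro ⟨h1, h3⟩; exact ⟨⟨h1, h3 ▸ h1⟩, h3⟩
  rw [e2, Finset.diag_card]

theorem w_half (S : Finset ℤ) (u : ℕ) (h : Sid S) :
    ∑ p ∈ (S ×ˢ S).filter (fun p => p.2 < p.1), (u - (p.1 - p.2).natAbs) ≤
      ∑ d ∈ (Ico 1 u).filter (fun d : ℕ => (d : ℤ) ∈ Df S), (u - d) := by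
  classical
  have e1 : ∑ p ∈ (S ×ˢ S).filter (fun p => p.2 < p.1), (u - (p.1 - p.2).natAbs) =
      ∑ p ∈ ((S ×ˢ S).filter (fun p => p.2 < p.1)).filter (fun p => (p.1 - p.2).natAbs < u),
        (u - (p.1 - p.2).natAbs) := by
    symm
    refine Finset.sum_filter_of_ne ?_
    intro p _ hp
    by_contra hcon
    exact hp (by omega)
  rw [e1]
  have inj : Set.InjOn (fun p : ℤ × ℤ => (p.1 - p.2).natAbs)
      (((S ×ˢ S).filter (fun p => p.2 < p.1)).filter (fun p => (p.1 - p.2).natAbs < u) :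
        Finset (ℤ × ℤ)) := by
    intro p hp q hq hpq
    rw [mem_coe, mem_filter, mem_filter, mem_product] at hp hq
    have hpq' : p.1 - p.2 = q.1 - q.2 := by
      have := hpq
      simp only at this
      omega
    obtain ⟨h1, h2⟩ := h p.1 hp.1.1.1 p.2 hp.1.1.2 q.1 hq.1.1.1 q.2 hq.1.1.2 (by omega) hpq'
    exact Prod.ext h1 h2
  have e2 : ∑ p ∈ ((S ×ˢ S).filter (fun p => p.2 < p.1)).filter
      (fun p => (p.1 - p.2).natAbs < u), (u - (p.1 - p.2).natAbs) =
      ∑ d ∈ (((S ×ˢ S).filter (fun p => p.2 < p.1)).filter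
        (fun p => (p.1 - p.2).natAbs < u)).image (fun p : ℤ × ℤ => (p.1 - p.2).natAbs),
          (u - d) := by
    rw [Finset.sum_image inj]
  rw [e2]
  refine Finset.sum_le_sum_of_subset ?_
  intro d hd
  rw [mem_image] at hd
  obtain ⟨p, hp, rfl⟩ := hd
  rw [mem_filter, mem_filter, mem_product] at hp
  rw [mem_filter, mem_Ico]
  refine ⟨⟨by omega, hp.2⟩, ?_⟩
  rw [Df, mem_erase, mem_image]
  refine ⟨by omega, p, mem_product.mpr hp.1.1, by omega⟩

theorem w_half_swap (S : Finset ℤ) (u : ℕ) :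
    ∑ p ∈ (S ×ˢ S).filter (fun p => p.1 < p.2), (u - (p.1 - p.2).natAbs) =
      ∑ p ∈ (S ×ˢ S).filter (fun p => p.2 < p.1), (u - (p.1 - p.2).natAbs) := by
  refine Finset.sum_bij' (fun p _ => (p.2, p.1)) (fun p _ => (p.2, p.1)) ?_ ?_ ?_ ?_ ?_
  · intro p hp
    rw [mem_filter, mem_product] at hp ⊢
    exact ⟨⟨hp.1.2, hp.1.1⟩, hp.2⟩
  · intro p hp
    rw [mem_filter, mem_product] at hp ⊢
    exact ⟨⟨hp.1.2, hp.1.1⟩, hp.2⟩
  · intro p _; rfl
  · intro p _; rfl
  · intro p _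
    show u - (p.1 - p.2).natAbs = u - (p.2 - p.1).natAbs
    omega

theorem w_split3 (S : Finset ℤ) (f : ℤ × ℤ → ℕ) :
    ∑ p ∈ S ×ˢ S, f p = ∑ p ∈ (S ×ˢ S).filter (fun p => p.1 = p.2), f p +
      (∑ p ∈ (S ×ˢ S).filter (fun p => p.2 < p.1), f p +
        ∑ p ∈ (S ×ˢ S).filter (fun p => p.1 < p.2), f p) := by
  classical
  rw [← Finset.sum_filter_add_sum_filter_not (S ×ˢ S) (fun p => p.1 = p.2)]
  congr 1
  rw [← Finset.sum_filter_add_sum_filter_not ((S ×ˢ S).filter (fun p => ¬ p.1 = p.2))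
    (fun p => p.2 < p.1)]
  congr 1
  · refine Finset.sum_congr ?_ (fun _ _ => rfl)
    ext p
    simp only [mem_filter]
    constructor
    · rintro ⟨⟨h1, _⟩, h3⟩; exact ⟨h1, h3⟩
    · rintro ⟨h1, h3⟩; exact ⟨⟨h1, by omega⟩, h3⟩
  · refine Finset.sum_congr ?_ (fun _ _ => rfl)
    ext p
    simp only [mem_filter]
    constructor
    · rintro ⟨⟨h1, h2⟩, h3⟩; exact ⟨h1, by omega⟩
    · rintro ⟨h1, h3⟩; exact ⟨⟨h1, by omega⟩, by omega⟩

theorem sid_pair_sum (S : Finset ℤ) (u : ℕ) (h : Sid S) :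
    (∑ p ∈ S ×ˢ S, (u - (p.1 - p.2).natAbs)) +
      2 * (∑ d ∈ (Ico 1 u).filter (fun d : ℕ => (d : ℤ) ∉ Df S), (u - d)) ≤
      u * S.card + u ^ 2 := by
  classical
  rw [w_split3, w_diag_sum, w_half_swap]
  have h1 := w_half S u h
  have h2 := w_sum_Ico u
  have h3 := Finset.sum_filter_add_sum_filter_not (Ico 1 u) (fun d : ℕ => (d : ℤ) ∈ Df S)
    (fun d => u - d)
  omega

theorem w_offdiag (Y : Finset ℤ) (u : ℕ) :
    ∑ p ∈ (Y ×ˢ Y).filter (fun p => ¬ p.1 = p.2), (u - (p.1 - p.2).natAbs) ≤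
      u ^ 2 + u * (Qd Y u).card := by
  classical
  set D : Finset ℤ := (Ioo (-(u : ℤ)) u).erase 0 with hD
  set F : ℤ → Finset (ℤ × ℤ) := fun d => (Y ×ˢ Y).filter (fun p => p.1 - p.2 = d) with hF
  have e1 : ∑ p ∈ (Y ×ˢ Y).filter (fun p => ¬ p.1 = p.2), (u - (p.1 - p.2).natAbs) =
      ∑ p ∈ ((Y ×ˢ Y).filter (fun p => ¬ p.1 = p.2)).filter (fun p => (p.1 - p.2).natAbs < u),
        (u - (p.1 - p.2).natAbs) := by
    symm
    refine Finset.sum_filter_of_ne ?_
    intro p _ hp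
    by_contra hcon
    exact hp (by omega)
  have e2 : ∑ p ∈ ((Y ×ˢ Y).filter (fun p => ¬ p.1 = p.2)).filter
      (fun p => (p.1 - p.2).natAbs < u), (u - (p.1 - p.2).natAbs) =
      ∑ d ∈ D, (F d).card * (u - d.natAbs) := by
    rw [← Finset.sum_fiberwise_of_maps_to (s := ((Y ×ˢ Y).filter (fun p => ¬ p.1 = p.2)).filter
      (fun p => (p.1 - p.2).natAbs < u)) (t := D) (g := fun p : ℤ × ℤ => p.1 - p.2)]
    · refine Finset.sum_congr rfl ?_
      intro d hd
      rw [hD, mem_erase, mem_Ioo] at hd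
      have e3 : (((Y ×ˢ Y).filter (fun p => ¬ p.1 = p.2)).filter
          (fun p => (p.1 - p.2).natAbs < u)).filter (fun p => p.1 - p.2 = d) = F d := by
        ext p
        simp only [hF, mem_filter]
        constructor
        · rintro ⟨⟨⟨h1, _⟩, _⟩, h4⟩; exact ⟨h1, h4⟩
        · rintro ⟨h1, h4⟩; exact ⟨⟨⟨h1, by omega⟩, by omega⟩, h4⟩
      rw [e3]
      have e4 : ∀ p ∈ F d, u - (p.1 - p.2).natAbs = u - d.natAbs := by
        intro p hp
        rw [hF, mem_filter] at hp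
        rw [hp.2]
      rw [Finset.sum_congr rfl e4, Finset.sum_const, smul_eq_mul]
    · intro p hp
      rw [mem_filter, mem_filter] at hp
      rw [hD, mem_erase, mem_Ioo]
      refine ⟨by omega, by omega, by omega⟩
  have e5 : ∑ d ∈ D, ((F d).card * (F d).card - (F d).card) ≤ (Qd Y u).card := by
    have e6 : ∀ d ∈ D, (F d).card * (F d).card - (F d).card = ((F d).offDiag).card := by
      intro d _; rw [Finset.offDiag_card]
    rw [Finset.sum_congr rfl e6]
    rw [← Finset.card_biUnion]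
    · refine Finset.card_le_card ?_
      intro p hp
      rw [mem_biUnion] at hp
      obtain ⟨d, hd, hp⟩ := hp
      rw [mem_offDiag] at hp
      simp only [hF, mem_filter] at hp
      rw [hD, mem_erase, mem_Ioo] at hd
      rw [Qd, mem_filter, mem_product]
      refine ⟨⟨hp.1.1, hp.2.1.1⟩, by omega, by omega, hp.2.2, by omega⟩
    · intro d _ d' _ hdd
      rw [Function.onFun, Finset.disjoint_left]
      intro p hp hp'
      rw [mem_offDiag] at hp hp'
      simp only [hF, mem_filter] at hp hp'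
      exact hdd (by omega)
  have e7 : ∑ d ∈ D, (u - d.natAbs) ≤ u ^ 2 := by
    have e8 : ∑ d ∈ D, (u - d.natAbs) ≤ ∑ d ∈ (Ico 1 u).image (fun d : ℕ => (d : ℤ)) ∪
        (Ico 1 u).image (fun d : ℕ => -(d : ℤ)), (u - d.natAbs) := by
      refine Finset.sum_le_sum_of_subset ?_
      intro d hd
      rw [hD, mem_erase, mem_Ioo] at hd
      rw [mem_union, mem_image, mem_image]
      rcases lt_or_gt_of_ne hd.1 with h0 | h0
      · right; exact ⟨d.natAbs, by rw [mem_Ico]; omega, by omega⟩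
      · left; exact ⟨d.natAbs, by rw [mem_Ico]; omega, by omega⟩
    have e9 : ∑ d ∈ (Ico 1 u).image (fun d : ℕ => (d : ℤ)) ∪
        (Ico 1 u).image (fun d : ℕ => -(d : ℤ)), (u - d.natAbs) ≤
        ∑ d ∈ (Ico 1 u).image (fun d : ℕ => (d : ℤ)), (u - d.natAbs) +
        ∑ d ∈ (Ico 1 u).image (fun d : ℕ => -(d : ℤ)), (u - d.natAbs) := by
      have := Finset.sum_union_inter (s₁ := (Ico 1 u).image (fun d : ℕ => (d : ℤ)))
        (s₂ := (Ico 1 u).image (fun d : ℕ => -(d : ℤ))) (f := fun d : ℤ => u - d.natAbs)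
      omega
    have e10 : ∑ d ∈ (Ico 1 u).image (fun d : ℕ => (d : ℤ)), (u - d.natAbs) =
        ∑ d ∈ Ico 1 u, (u - d) := by
      rw [Finset.sum_image]
      · refine Finset.sum_congr rfl ?_
        intro d _; simp
      · intro a _ b _ hab
        simpa using hab
    have e11 : ∑ d ∈ (Ico 1 u).image (fun d : ℕ => -(d : ℤ)), (u - d.natAbs) =
        ∑ d ∈ Ico 1 u, (u - d) := by
      rw [Finset.sum_image]
      · refine Finset.sum_congr rfl ?_
        intro d _; simp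
      · intro a _ b _ hab
        simpa using hab
    have := w_sum_Ico u
    omega
  rw [e1, e2]
  calc ∑ d ∈ D, (F d).card * (u - d.natAbs)
      ≤ ∑ d ∈ D, ((u - d.natAbs) + u * ((F d).card * (F d).card - (F d).card)) := by
        refine Finset.sum_le_sum ?_
        intro d _
        generalize (F d).card = r
        rcases Nat.eq_zero_or_pos r with h0 | h0
        · subst h0; simp
        · obtain ⟨k, rfl⟩ : ∃ k, r = k + 1 := ⟨r - 1, by omega⟩
          have h1 : (k + 1) * (k + 1) - (k + 1) = (k + 1) * k := by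
            rw [Nat.mul_succ]; simp
          rw [h1]
          have h2 : u - d.natAbs ≤ u := Nat.sub_le _ _
          have h3 : k * (u - d.natAbs) ≤ k * u := Nat.mul_le_mul_left _ h2
          have h4 : k * u ≤ u * ((k + 1) * k) := by
            have : k ≤ (k + 1) * k := Nat.le_mul_of_pos_left _ (by omega)
            calc k * u = u * k := mul_comm _ _
              _ ≤ _ := Nat.mul_le_mul_left _ this
          have h5 : (k + 1) * (u - d.natAbs) = k * (u - d.natAbs) + (u - d.natAbs) :=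
            Nat.succ_mul _ _
          omega
    _ = ∑ d ∈ D, (u - d.natAbs) + u * ∑ d ∈ D, ((F d).card * (F d).card - (F d).card) := by
        rw [Finset.sum_add_distrib, Finset.mul_sum]
    _ ≤ u ^ 2 + u * (Qd Y u).card := Nat.add_le_add e7 (Nat.mul_le_mul_left _ e5)

theorem w_div (a N u : ℕ) (b : ℕ) (hu : 0 < u) (h : (a * u) ^ 2 ≤ N * (u * b)) :
    a ^ 2 * u ≤ N * b := by
  have h1 : u * (a ^ 2 * u) ≤ u * (N * b) := by
    calc u * (a ^ 2 * u) = (a * u) ^ 2 := by ring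
      _ ≤ N * (u * b) := h
      _ = u * (N * b) := by ring
  exact Nat.le_of_mul_le_mul_left h1 hu

theorem window_Q (N u : ℕ) (Y : Finset ℤ) (hY : Y ⊆ Icc 1 (N : ℤ)) (hu : 0 < u) :
    Y.card ^ 2 * u ≤ (N + u) * (Y.card + u + (Qd Y u).card) := by
  classical
  have h1 := window_gen Y (Icc (1 - (u : ℤ)) ((N : ℤ) - 1)) u (by
    intro x hx y h1 h2
    have := hY hx
    rw [mem_Icc] at this ⊢
    omega)
  have h2 : (Icc (1 - (u : ℤ)) ((N : ℤ) - 1)).card ≤ N + u := by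
    rw [Int.card_Icc]; omega
  have h3 : ∑ p ∈ Y ×ˢ Y, (u - (p.1 - p.2).natAbs) ≤ u * (Y.card + u + (Qd Y u).card) := by
    rw [← Finset.sum_filter_add_sum_filter_not (Y ×ˢ Y) (fun p => p.1 = p.2), w_diag_sum]
    have := w_offdiag Y u
    calc u * Y.card + ∑ p ∈ (Y ×ˢ Y).filter (fun p => ¬ p.1 = p.2), (u - (p.1 - p.2).natAbs)
        ≤ u * Y.card + (u ^ 2 + u * (Qd Y u).card) := Nat.add_le_add_left this _
      _ = u * (Y.card + u + (Qd Y u).card) := by ring
  exact w_div _ _ _ _ hu (h1.trans (Nat.mul_le_mul h2 h3))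

theorem w_Qd_empty (S : Finset ℤ) (u : ℕ) (h : Sid S) : Qd S u = ∅ := by
  rw [Qd, Finset.filter_eq_empty_iff]
  rintro p hp ⟨h1, h2, h3, _⟩
  rw [mem_product, mem_product, mem_product] at hp
  obtain ⟨h4, h5⟩ := h p.1.1 hp.1.1 p.1.2 hp.1.2 p.2.1 hp.2.1 p.2.2 hp.2.2 h2 h1
  exact h3 (Prod.ext h4 h5)

theorem window_sid (N u : ℕ) (S : Finset ℤ) (hS : S ⊆ Icc 1 (N : ℤ)) (hu : 0 < u) (h : Sid S) :
    S.card ^ 2 * u ≤ (N + u) * (S.card + u) := by
  have := window_Q N u S hS hu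
  rw [w_Qd_empty S u h, Finset.card_empty, add_zero] at this
  exact this

theorem sid_card_le (n : ℕ) (hn : 4 ≤ n) (S : Finset ℤ) (hS : S ⊆ Icc 1 ((n ^ 2 : ℕ) : ℤ))
    (h : Sid S) :
    S.card ≤ 2 * n := by
  have hpos : 0 < n ^ 2 := by positivity
  have h1 := window_sid (n ^ 2) (n ^ 2) S hS hpos h
  have h2 : S.card ^ 2 ≤ 2 * (S.card + n ^ 2) := by
    have : n ^ 2 * S.card ^ 2 ≤ n ^ 2 * (2 * (S.card + n ^ 2)) := by
      calc n ^ 2 * S.card ^ 2 = S.card ^ 2 * n ^ 2 := mul_comm _ _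
        _ ≤ _ := h1
        _ = n ^ 2 * (2 * (S.card + n ^ 2)) := by ring
    exact Nat.le_of_mul_le_mul_left this hpos
  by_contra hcon
  push Not at hcon
  have h3 : 2 * n + 1 ≤ S.card := hcon
  nlinarith [h2, h3, hn]

theorem w_sid_subset {S T : Finset ℤ} (hTS : T ⊆ S) (h : Sid S) : Sid T := by
  intro a ha b hb c hc d hd
  exact h a (hTS ha) b (hTS hb) c (hTS hc) d (hTS hd)

/-- short intervals -/
theorem sid_short (S : Finset ℤ) (u : ℕ) (hu : 2 ≤ u) (z : ℤ) (h : Sid S) :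
    ((S.filter (fun y => (y - z).natAbs < u)).card : ℝ) ≤ 3 * Real.sqrt u := by
  classical
  set X := S.filter (fun y => (y - z).natAbs < u) with hX
  have hXs : Sid X := w_sid_subset (Finset.filter_subset _ _) h
  have h1 := window_gen X (Icc (z - 3 * u + 1) (z + u - 2)) (2 * u) (by
    intro x hx y h1 h2
    rw [hX, mem_filter] at hx
    rw [mem_Icc]
    push_cast at h2
    omega)
  have h2 : (Icc (z - 3 * (u : ℤ) + 1) (z + u - 2)).card ≤ 4 * u := by
    rw [Int.card_Icc]; omega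
  have h3 := sid_pair_sum X (2 * u) hXs
  have h4 : ∑ p ∈ X ×ˢ X, (2 * u - (p.1 - p.2).natAbs) ≤ 2 * u * X.card + (2 * u) ^ 2 := by
    omega
  have h5 : (X.card * (2 * u)) ^ 2 ≤ 4 * u * (2 * u * X.card + (2 * u) ^ 2) :=
    h1.trans (Nat.mul_le_mul h2 h4)
  have h6 : X.card ^ 2 ≤ 2 * X.card + 4 * u := by
    have hpos : 0 < 4 * u ^ 2 := by positivity
    have : 4 * u ^ 2 * X.card ^ 2 ≤ 4 * u ^ 2 * (2 * X.card + 4 * u) := by
      calc 4 * u ^ 2 * X.card ^ 2 = (X.card * (2 * u)) ^ 2 := by ring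
        _ ≤ _ := h5
        _ = 4 * u ^ 2 * (2 * X.card + 4 * u) := by ring
    exact Nat.le_of_mul_le_mul_left this hpos
  have h7 : ((X.card : ℝ)) ^ 2 ≤ 2 * X.card + 4 * u := by exact_mod_cast h6
  have hu0 : (0 : ℝ) ≤ (u : ℝ) := Nat.cast_nonneg _
  have ht : Real.sqrt u ^ 2 = (u : ℝ) := Real.sq_sqrt hu0
  have ht0 : 0 ≤ Real.sqrt u := Real.sqrt_nonneg _
  have hu2 : (2 : ℝ) ≤ (u : ℝ) := by exact_mod_cast hu
  have ht1 : 6 / 5 ≤ Real.sqrt u := by
    refine Real.le_sqrt_of_sq_le ?_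
    norm_num
    linarith
  set t := Real.sqrt u with htdef
  set x := (X.card : ℝ) with hx
  have h8 : x ^ 2 ≤ 2 * x + 4 * t ^ 2 := by rw [ht]; exact h7
  by_contra hcon
  push Not at hcon
  nlinarith [h8, hcon, ht1, mul_pos (sub_pos.mpr hcon) (sub_pos.mpr hcon)]

end Pool.Agent.Be54
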