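import Pool.Agent.Be54.Defs
import Pool.Agent.Be54.W

set_option autoImplicit false

/-!
Sums of the counting functions over a Sidon set (module G, problem MP_be54a8_co).
-/

namespace Pool.Agent.Be54

open Finset

theorem g_pairs_add (P : Finset ℤ) (hP : Sid P) (s : ℤ) :
    ((P ×ˢ P).filter (fun q => q.1 + q.2 = s)).card ≤ 2 := by
  rcases ((P ×ˢ P).filter (fun q => q.1 + q.2 = s)).eq_empty_or_nonempty with h0 | ⟨q0, hq0⟩
  · rw [h0]; simp
  · have hsub : (P ×ˢ P).filter (fun q => q.1 + q.2 = s) ⊆ {q0, (q0.2, q0.1)} := by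
      intro q hq
      rw [mem_filter, mem_product] at hq hq0
      rw [mem_insert, mem_singleton]
      by_cases h1 : q.1 = q0.1
      · left
        ext
        · exact h1
        · have := hq.2
          have := hq0.2
          omega
      · right
        have heq : q.1 - q0.1 = q0.2 - q.2 := by
          have := hq.2
          have := hq0.2
          omega
        have := hP q.1 hq.1.1 q0.1 hq0.1.1 q0.2 hq0.1.2 q.2 hq.1.2 h1 heq
        ext
        · exact this.1
        · exact this.2.symm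
    calc _ ≤ ({q0, (q0.2, q0.1)} : Finset (ℤ × ℤ)).card := card_le_card hsub
      _ ≤ 2 := card_le_two

theorem g_pairs_sub (P : Finset ℤ) (hP : Sid P) (s : ℤ) (hs : s ≠ 0) :
    ((P ×ˢ P).filter (fun q => q.1 - q.2 = s)).card ≤ 1 := by
  rw [card_le_one]
  intro a ha b hb
  rw [mem_filter, mem_product] at ha hb
  have hne : a.1 ≠ a.2 := by
    intro h
    apply hs
    rw [← ha.2, h, sub_self]
  have := hP a.1 ha.1.1 a.2 ha.1.2 b.1 hb.1.1 b.2 hb.1.2 hne (by rw [ha.2, hb.2])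
  ext
  · exact this.1
  · exact this.2

theorem g_sum_swap (P E : Finset ℤ) (p : ℤ → (ℤ × ℤ) → ℤ → Prop)
    [∀ h w y, Decidable (p h w y)] (c : ℕ)
    (hc : ∀ w ∈ E ×ˢ E, ((P ×ˢ P).filter (fun q => p q.1 w q.2)).card ≤ c) :
    ∑ h ∈ P, (((E ×ˢ E) ×ˢ P).filter (fun t => p h t.1 t.2)).card ≤ c * E.card ^ 2 := by
  calc ∑ h ∈ P, (((E ×ˢ E) ×ˢ P).filter (fun t => p h t.1 t.2)).card
      = ∑ h ∈ P, ∑ w ∈ E ×ˢ E, ∑ y ∈ P, (if p h w y then 1 else 0) := by
        apply sum_congr rfl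
        intro h _
        rw [card_filter, sum_product]
    _ = ∑ w ∈ E ×ˢ E, ∑ h ∈ P, ∑ y ∈ P, (if p h w y then 1 else 0) := sum_comm
    _ = ∑ w ∈ E ×ˢ E, ((P ×ˢ P).filter (fun q => p q.1 w q.2)).card := by
        apply sum_congr rfl
        intro w _
        rw [card_filter, sum_product]
    _ ≤ ∑ w ∈ E ×ˢ E, c := sum_le_sum hc
    _ = c * E.card ^ 2 := by
        rw [sum_const, card_product, smul_eq_mul]
        ring

theorem sum_Fp (P E : Finset ℤ) (hP : Sid P) : ∑ h ∈ P, Fp P E h ≤ 2 * E.card ^ 2 := by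
  unfold Fp
  exact g_sum_swap P E (fun h w y => h + y = w.1 + w.2) 2
    (fun w _ => g_pairs_add P hP (w.1 + w.2))

theorem sum_Fm (P E : Finset ℤ) (hP : Sid P) : ∑ h ∈ P, Fm P E h ≤ E.card ^ 2 := by
  unfold Fm
  have h := g_sum_swap P E (fun h w y => w.1 ≠ w.2 ∧ h - y = w.1 - w.2) 1 (fun w _ => by
    by_cases hw : w.1 = w.2
    · have : (P ×ˢ P).filter (fun q => w.1 ≠ w.2 ∧ q.1 - q.2 = w.1 - w.2) = ∅ := by
        apply filter_eq_empty_iff.mpr
        intro q _ h
        exact h.1 hw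
      rw [this]; simp
    · calc ((P ×ˢ P).filter (fun q => w.1 ≠ w.2 ∧ q.1 - q.2 = w.1 - w.2)).card
          ≤ ((P ×ˢ P).filter (fun q => q.1 - q.2 = w.1 - w.2)).card := by
            apply card_le_card
            intro q hq
            rw [mem_filter] at hq ⊢
            exact ⟨hq.1, hq.2.2⟩
        _ ≤ 1 := g_pairs_sub P hP _ (sub_ne_zero.mpr hw))
  rw [one_mul] at h
  exact h

theorem sum_ff (P E : Finset ℤ) (hP : Sid P) : ∑ h ∈ P, ff P E h ≤ 4 * E.card ^ 2 := by
  unfold ff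
  rw [sum_add_distrib, ← mul_sum]
  have h1 := sum_Fp P E hP
  have h2 := sum_Fm P E hP
  omega

theorem sum_vv (P E : Finset ℤ) (u : ℕ) (hu : 2 ≤ u) (hP : Sid P) :
    ((∑ h ∈ P, vv E u h : ℕ) : ℝ) ≤ E.card * (3 * Real.sqrt u) := by
  have h1 : ∑ h ∈ P, vv E u h = ∑ z ∈ E, (P.filter (fun y => (y - z).natAbs < u)).card := by
    unfold vv
    calc ∑ h ∈ P, (E.filter (fun z => (h - z).natAbs < u)).card
        = ∑ h ∈ P, ∑ z ∈ E, (if (h - z).natAbs < u then 1 else 0) := by
          apply sum_congr rfl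
          intro h _
          rw [card_filter]
      _ = ∑ z ∈ E, ∑ h ∈ P, (if (h - z).natAbs < u then 1 else 0) := sum_comm
      _ = ∑ z ∈ E, (P.filter (fun y => (y - z).natAbs < u)).card := by
          apply sum_congr rfl
          intro z _
          rw [card_filter]
  rw [h1, Nat.cast_sum]
  calc ∑ z ∈ E, ((P.filter (fun y => (y - z).natAbs < u)).card : ℝ)
      ≤ ∑ z ∈ E, 3 * Real.sqrt u := sum_le_sum (fun z _ => sid_short P u hu z hP)
    _ = E.card * (3 * Real.sqrt u) := by rw [sum_const, nsmul_eq_mul]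

end Pool.Agent.Be54
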