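import Pool.Agent.Be54.Defs

set_option autoImplicit false

/-!
Probabilistic lemmas for the disproof of the conjecture `f(k,1) ~ k^2` (problem MP_be54a8_co).
-/

namespace Pool.Agent.Be54

open Finset

theorem exists_of_avg {α : Type*} [DecidableEq α] (X : Finset α) (δ : ℝ) (h0 : 0 ≤ δ) (h1 : δ ≤ 1)
    (F : Finset α → ℝ)
    (h : ∑ T ∈ X.powerset, δ ^ T.card * (1 - δ) ^ (X.card - T.card) * F T < 1) :
    ∃ T ⊆ X, F T < 1 := by
  by_contra hcon
  push Not at hcon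
  have h2 : ∑ T ∈ X.powerset, δ ^ T.card * (1 - δ) ^ (X.card - T.card) = 1 := by
    rw [Finset.sum_pow_mul_eq_add_pow]
    simp
  have h3 : ∑ T ∈ X.powerset, δ ^ T.card * (1 - δ) ^ (X.card - T.card) ≤
      ∑ T ∈ X.powerset, δ ^ T.card * (1 - δ) ^ (X.card - T.card) * F T := by
    refine Finset.sum_le_sum fun T hT => ?_
    have hw : 0 ≤ δ ^ T.card * (1 - δ) ^ (X.card - T.card) :=
      mul_nonneg (pow_nonneg h0 _) (pow_nonneg (by linarith) _)
    exact le_mul_of_one_le_right hw (hcon T (Finset.mem_powerset.mp hT))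
  linarith

theorem prob_exists {α ι : Type*} [DecidableEq α] (X : Finset α) (I : Finset ι) (δ : ℝ)
    (h0 : 0 ≤ δ) (h1 : δ ≤ 1) (g : ι → α → ℝ) (t : ι → ℝ)
    (h : ∑ i ∈ I, Real.exp (-t i) * ∏ y ∈ X, (1 - δ + δ * Real.exp (g i y)) < 1) :
    ∃ H ⊆ X, ∀ i ∈ I, ∑ y ∈ H, g i y < t i := by
  have key : ∑ T ∈ X.powerset, δ ^ T.card * (1 - δ) ^ (X.card - T.card) *
      (∑ i ∈ I, Real.exp (∑ y ∈ T, g i y - t i)) =
      ∑ i ∈ I, Real.exp (-t i) * ∏ y ∈ X, (1 - δ + δ * Real.exp (g i y)) := by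
    simp only [Finset.mul_sum]
    rw [Finset.sum_comm]
    refine Finset.sum_congr rfl fun i _ => ?_
    have e1 : ∏ y ∈ X, (1 - δ + δ * Real.exp (g i y)) =
        ∏ y ∈ X, (δ * Real.exp (g i y) + (1 - δ)) :=
      Finset.prod_congr rfl fun y _ => by ring
    rw [e1, Finset.prod_add, Finset.mul_sum]
    refine Finset.sum_congr rfl fun T hT => ?_
    have hTX : T ⊆ X := Finset.mem_powerset.mp hT
    have e2 : Real.exp (∑ y ∈ T, g i y - t i) =
        Real.exp (∑ y ∈ T, g i y) * Real.exp (-t i) := by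
      rw [← Real.exp_add, sub_eq_add_neg]
    rw [Finset.prod_mul_distrib, Finset.prod_const, Finset.prod_const,
      Finset.card_sdiff_of_subset hTX, ← Real.exp_sum, e2]
    ring
  rw [← key] at h
  obtain ⟨H, hHX, hH⟩ := exists_of_avg X δ h0 h1 _ h
  refine ⟨H, hHX, fun i hi => ?_⟩
  have h4 : Real.exp (∑ y ∈ H, g i y - t i) ≤
      ∑ j ∈ I, Real.exp (∑ y ∈ H, g j y - t j) :=
    Finset.single_le_sum (f := fun j => Real.exp (∑ y ∈ H, g j y - t j))
      (fun j _ => (Real.exp_pos _).le) hi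
  have h5 : Real.exp (∑ y ∈ H, g i y - t i) < 1 := lt_of_le_of_lt h4 hH
  rw [Real.exp_lt_one_iff] at h5
  linarith

end Pool.Agent.Be54
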