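import Mathlib
import Pool.Agent.Be54.Defs
import Pool.Agent.Be54.P
import Pool.Agent.Be54.G

set_option autoImplicit false

/-!
Random holes for the disproof of `f(k,1) ~ k^2` (problem MP_be54a8_co).
-/

namespace Pool.Agent.Be54

open Finset

/-- light points -/
noncomputable def light (P E : Finset ℤ) (b : ℝ) : Finset ℤ := P.filter (fun y => (ff P E y : ℝ) ≤ b)

theorem h_prod (X L : Finset ℤ) (δ : ℝ) (h0 : 0 ≤ δ) (h1 : δ ≤ 1) (g : ℤ → ℝ) (hLX : L ⊆ X)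
    (hg : ∀ y ∈ X, y ∉ L → g y = 0) :
    ∏ y ∈ X, (1 - δ + δ * Real.exp (g y)) ≤ Real.exp (∑ y ∈ L, δ * (Real.exp (g y) - 1)) := by
  have e1 : ∑ y ∈ L, δ * (Real.exp (g y) - 1) = ∑ y ∈ X, δ * (Real.exp (g y) - 1) := by
    apply Finset.sum_subset hLX
    intro y hy hn
    rw [hg y hy hn]; simp
  rw [e1, Real.exp_sum]
  apply Finset.prod_le_prod
  · intro y _
    have h3 := Real.exp_pos (g y)
    have h2 : 0 ≤ δ * Real.exp (g y) := by positivity
    linarith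
  · intro y _
    have h3 := Real.add_one_le_exp (δ * (Real.exp (g y) - 1))
    linarith

theorem h_e32 : Real.exp (1 / 32) - 1 ≤ 33 / 1024 := by
  have h := Real.abs_exp_sub_one_sub_id_le (x := (1 / 32 : ℝ)) (by rw [abs_of_pos] <;> norm_num)
  have h2 := (abs_le.1 h).2
  norm_num at h2 ⊢
  linarith

theorem h_e16 : Real.exp (-(1 / 16)) - 1 ≤ -(31 / 512) := by
  have h := Real.quadratic_le_exp_of_nonneg (x := (1 / 16 : ℝ)) (by norm_num)
  have h3 : Real.exp (-(1 / 16)) = (Real.exp (1 / 16))⁻¹ := Real.exp_neg _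
  have h4 : (Real.exp (1 / 16))⁻¹ ≤ (545 / 512 : ℝ)⁻¹ := by
    apply inv_anti₀ (by norm_num)
    refine le_trans ?_ h
    norm_num
  rw [h3]
  refine le_trans (sub_le_sub_right h4 1) ?_
  norm_num

theorem h_e2 (x : ℝ) (h0 : 0 ≤ x) (h1 : x ≤ 1) : Real.exp x - 1 ≤ 2 * x := by
  have h := Real.abs_exp_sub_one_sub_id_le (x := x) (by rw [abs_of_nonneg h0]; exact h1)
  have h2 := (abs_le.1 h).2
  nlinarith

/-- the weight functions -/
noncomputable def h_g (E : Finset ℤ → Finset ℤ) (u : ℕ) (n ε : ℝ) :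
    Option (Finset ℤ × Fin 3) → ℤ → ℝ
  | none, _ => 1 / 32
  | some (P, 0), y => if y ∈ light P (E P) (64 * ε ^ 2 * n) then -(1 / 16) else 0
  | some (P, 1), y => if y ∈ light P (E P) (64 * ε ^ 2 * n) then
      (1 / (64 * ε ^ 2 * n)) * (ff P (E P) y : ℝ) else 0
  | some (P, 2), y => if y ∈ P then (1 / (ε * n)) * (vv (E P) u y : ℝ) else 0

/-- the thresholds -/
noncomputable def h_t (E : Finset ℤ → Finset ℤ) (N : ℕ) (n δ ε s : ℝ) :
    Option (Finset ℤ × Fin 3) → ℝ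
  | none => 17 / 512 * δ * N
  | some (P, 0) => -(15 / 256 * δ * ((light P (E P) (64 * ε ^ 2 * n)).card : ℝ))
  | some (_, 1) => 9 * δ * n / 64
  | some (_, 2) => 7 * δ * s * n

theorem h_none (N u : ℕ) (n δ ε s : ℝ) (hδ0 : 0 < δ) (hδ1 : δ ≤ 1) (E : Finset ℤ → Finset ℤ) :
    Real.exp (-h_t E N n δ ε s none) *
      ∏ y ∈ Icc 1 (N : ℤ), (1 - δ + δ * Real.exp (h_g E u n ε none y)) ≤
    Real.exp (-(δ * N / 1024)) := by
  have h1 := h_prod (Icc 1 (N : ℤ)) (Icc 1 (N : ℤ)) δ hδ0.le hδ1 (h_g E u n ε none) (Subset.refl _)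
    (fun y hy hn => absurd hy hn)
  have h2 : ∑ y ∈ Icc 1 (N : ℤ), δ * (Real.exp (h_g E u n ε none y) - 1) ≤ δ * N * (33 / 1024) := by
    have h3 : ∀ y ∈ Icc 1 (N : ℤ), δ * (Real.exp (h_g E u n ε none y) - 1) ≤ δ * (33 / 1024) := by
      intro y _
      exact mul_le_mul_of_nonneg_left h_e32 hδ0.le
    refine le_trans (Finset.sum_le_sum h3) ?_
    rw [Finset.sum_const, Int.card_Icc, nsmul_eq_mul]
    simp only [add_sub_cancel_right, Int.toNat_natCast]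
    linarith
  calc _ ≤ Real.exp (-h_t E N n δ ε s none) * Real.exp (δ * N * (33 / 1024)) := by
        apply mul_le_mul_of_nonneg_left (h1.trans (Real.exp_le_exp.2 h2)) (Real.exp_pos _).le
    _ = Real.exp (-(δ * N / 1024)) := by
        rw [← Real.exp_add]
        congr 1
        simp only [h_t]
        ring

theorem h_zero (N u : ℕ) (n δ ε s : ℝ) (hδ0 : 0 < δ) (hδ1 : δ ≤ 1) (E : Finset ℤ → Finset ℤ)
    (P : Finset ℤ) (hPN : P ⊆ Icc 1 (N : ℤ))
    (hPl : n / 2 ≤ ((light P (E P) (64 * ε ^ 2 * n)).card : ℝ)) :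
    Real.exp (-h_t E N n δ ε s (some (P, 0))) *
      ∏ y ∈ Icc 1 (N : ℤ), (1 - δ + δ * Real.exp (h_g E u n ε (some (P, 0)) y)) ≤
    Real.exp (-(δ * n / 1024)) := by
  set L := light P (E P) (64 * ε ^ 2 * n) with hL
  have hLP : L ⊆ P := Finset.filter_subset _ _
  have h1 := h_prod (Icc 1 (N : ℤ)) L δ hδ0.le hδ1 (h_g E u n ε (some (P, 0))) (hLP.trans hPN)
    (fun y hy hn => by simp only [h_g]; rw [if_neg hn])
  have h2 : ∑ y ∈ L, δ * (Real.exp (h_g E u n ε (some (P, 0)) y) - 1) ≤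
      (L.card : ℝ) * (δ * (-(31 / 512))) := by
    have h3 : ∀ y ∈ L, δ * (Real.exp (h_g E u n ε (some (P, 0)) y) - 1) ≤ δ * (-(31 / 512)) := by
      intro y hy
      simp only [h_g]
      rw [if_pos hy]
      exact mul_le_mul_of_nonneg_left h_e16 hδ0.le
    refine le_trans (Finset.sum_le_sum h3) ?_
    rw [Finset.sum_const, nsmul_eq_mul]
  calc _ ≤ Real.exp (-h_t E N n δ ε s (some (P, 0))) * Real.exp ((L.card : ℝ) * (δ * (-(31 / 512)))) := by
        apply mul_le_mul_of_nonneg_left (h1.trans (Real.exp_le_exp.2 h2)) (Real.exp_pos _).le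
    _ ≤ Real.exp (-(δ * n / 1024)) := by
        rw [← Real.exp_add]
        apply Real.exp_le_exp.2
        simp only [h_t]
        rw [← hL]
        nlinarith [mul_le_mul_of_nonneg_left hPl hδ0.le]

theorem h_one (N u : ℕ) (n δ ε s : ℝ) (hδ0 : 0 < δ) (hδ1 : δ ≤ 1) (hn : 0 < n) (hε : 0 < ε)
    (E : Finset ℤ → Finset ℤ)
    (P : Finset ℤ) (hPN : P ⊆ Icc 1 (N : ℤ)) (hPS : Sid P)
    (hE : ((E P).card : ℝ) ≤ ε * n) :
    Real.exp (-h_t E N n δ ε s (some (P, 1))) *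
      ∏ y ∈ Icc 1 (N : ℤ), (1 - δ + δ * Real.exp (h_g E u n ε (some (P, 1)) y)) ≤
    Real.exp (-(δ * n / 64)) := by
  set L := light P (E P) (64 * ε ^ 2 * n) with hL
  have hLP : L ⊆ P := Finset.filter_subset _ _
  have hpos : 0 < 64 * ε ^ 2 * n := by positivity
  have h1 := h_prod (Icc 1 (N : ℤ)) L δ hδ0.le hδ1 (h_g E u n ε (some (P, 1))) (hLP.trans hPN)
    (fun y hy hn => by simp only [h_g]; rw [if_neg hn])
  have h2 : ∑ y ∈ L, δ * (Real.exp (h_g E u n ε (some (P, 1)) y) - 1) ≤ δ * n / 8 := by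
    have h3 : ∀ y ∈ L, δ * (Real.exp (h_g E u n ε (some (P, 1)) y) - 1) ≤
        2 * δ / (64 * ε ^ 2 * n) * (ff P (E P) y : ℝ) := by
      intro y hy
      simp only [h_g]
      rw [if_pos hy]
      have hy2 : (ff P (E P) y : ℝ) ≤ 64 * ε ^ 2 * n := (Finset.mem_filter.1 hy).2
      have h4 : (1 / (64 * ε ^ 2 * n)) * (ff P (E P) y : ℝ) ≤ 1 := by
        rw [one_div, ← div_eq_inv_mul, div_le_one hpos]
        exact hy2
      have h5 : 0 ≤ (1 / (64 * ε ^ 2 * n)) * (ff P (E P) y : ℝ) := by positivity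
      have h6 := mul_le_mul_of_nonneg_left (h_e2 _ h5 h4) hδ0.le
      refine h6.trans (le_of_eq ?_)
      field_simp
    have h7 : ∑ y ∈ L, (ff P (E P) y : ℝ) ≤ 4 * (ε * n) ^ 2 := by
      have h8 : ∑ y ∈ L, (ff P (E P) y : ℝ) ≤ ∑ y ∈ P, (ff P (E P) y : ℝ) :=
        Finset.sum_le_sum_of_subset_of_nonneg hLP (fun _ _ _ => Nat.cast_nonneg _)
      have h9 : ∑ y ∈ P, (ff P (E P) y : ℝ) ≤ 4 * ((E P).card : ℝ) ^ 2 := by
        exact_mod_cast sum_ff P (E P) hPS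
      have h10 : ((E P).card : ℝ) ^ 2 ≤ (ε * n) ^ 2 := pow_le_pow_left₀ (Nat.cast_nonneg _) hE 2
      linarith
    refine le_trans (Finset.sum_le_sum h3) ?_
    rw [← Finset.mul_sum]
    have h11 : 0 ≤ 2 * δ / (64 * ε ^ 2 * n) := by positivity
    refine le_trans (mul_le_mul_of_nonneg_left h7 h11) (le_of_eq ?_)
    field_simp
    ring
  calc _ ≤ Real.exp (-h_t E N n δ ε s (some (P, 1))) * Real.exp (δ * n / 8) := by
        apply mul_le_mul_of_nonneg_left (h1.trans (Real.exp_le_exp.2 h2)) (Real.exp_pos _).le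
    _ ≤ Real.exp (-(δ * n / 64)) := by
        rw [← Real.exp_add]
        apply Real.exp_le_exp.2
        simp only [h_t]
        linarith

theorem h_vvE (E : Finset ℤ) (u : ℕ) (h : ℤ) : vv E u h ≤ E.card := Finset.card_filter_le _ _

theorem h_two (N u : ℕ) (hu : 2 ≤ u) (n δ ε s : ℝ) (hδ0 : 0 < δ) (hδ1 : δ ≤ 1) (hn : 0 < n) (hε : 0 < ε)
    (E : Finset ℤ → Finset ℤ)
    (P : Finset ℤ) (hPN : P ⊆ Icc 1 (N : ℤ)) (hPS : Sid P)
    (hE : ((E P).card : ℝ) ≤ ε * n)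
    (hs : Real.sqrt u ≤ s * n) :
    Real.exp (-h_t E N n δ ε s (some (P, 2))) *
      ∏ y ∈ Icc 1 (N : ℤ), (1 - δ + δ * Real.exp (h_g E u n ε (some (P, 2)) y)) ≤
    Real.exp (-(δ * s * n)) := by
  have hpos : 0 < ε * n := by positivity
  have h1 := h_prod (Icc 1 (N : ℤ)) P δ hδ0.le hδ1 (h_g E u n ε (some (P, 2))) hPN
    (fun y hy hn => by simp only [h_g]; rw [if_neg hn])
  have h2 : ∑ y ∈ P, δ * (Real.exp (h_g E u n ε (some (P, 2)) y) - 1) ≤ 6 * (δ * s * n) := by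
    have h3 : ∀ y ∈ P, δ * (Real.exp (h_g E u n ε (some (P, 2)) y) - 1) ≤
        2 * δ / (ε * n) * (vv (E P) u y : ℝ) := by
      intro y hy
      simp only [h_g]
      rw [if_pos hy]
      have hy2 : (vv (E P) u y : ℝ) ≤ ε * n :=
        le_trans (by exact_mod_cast h_vvE (E P) u y) hE
      have h4 : (1 / (ε * n)) * (vv (E P) u y : ℝ) ≤ 1 := by
        rw [one_div, ← div_eq_inv_mul, div_le_one hpos]
        exact hy2
      have h5 : 0 ≤ (1 / (ε * n)) * (vv (E P) u y : ℝ) := by positivity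
      have h6 := mul_le_mul_of_nonneg_left (h_e2 _ h5 h4) hδ0.le
      refine h6.trans (le_of_eq ?_)
      field_simp
    have h7 : ∑ y ∈ P, (vv (E P) u y : ℝ) ≤ 3 * ε * s * n ^ 2 := by
      have h9 : ∑ y ∈ P, (vv (E P) u y : ℝ) ≤ ((E P).card : ℝ) * (3 * Real.sqrt u) := by
        have h10 := sum_vv P (E P) u hu hPS
        push_cast at h10
        exact h10
      have h11 : ((E P).card : ℝ) * (3 * Real.sqrt u) ≤ (ε * n) * (3 * (s * n)) := by
        apply mul_le_mul hE (mul_le_mul_of_nonneg_left hs (by norm_num)) (by positivity) hpos.le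
      refine h9.trans (h11.trans (le_of_eq ?_))
      ring
    refine le_trans (Finset.sum_le_sum h3) ?_
    rw [← Finset.mul_sum]
    have h11 : 0 ≤ 2 * δ / (ε * n) := by positivity
    refine le_trans (mul_le_mul_of_nonneg_left h7 h11) (le_of_eq ?_)
    field_simp
    ring
  calc _ ≤ Real.exp (-h_t E N n δ ε s (some (P, 2))) * Real.exp (6 * (δ * s * n)) := by
        apply mul_le_mul_of_nonneg_left (h1.trans (Real.exp_le_exp.2 h2)) (Real.exp_pos _).le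
    _ ≤ Real.exp (-(δ * s * n)) := by
        rw [← Real.exp_add]
        apply Real.exp_le_exp.2
        simp only [h_t]
        linarith

theorem holes (N u : ℕ) (hu : 2 ≤ u) (n δ ε s : ℝ) (hδ0 : 0 < δ) (hδ1 : δ ≤ 1) (hn : 0 < n) (hε : 0 < ε)
    (PP : Finset (Finset ℤ)) (E : Finset ℤ → Finset ℤ)
    (hPN : ∀ P ∈ PP, P ⊆ Icc 1 (N : ℤ)) (hPS : ∀ P ∈ PP, Sid P)
    (hPl : ∀ P ∈ PP, n / 2 ≤ ((light P (E P) (64 * ε ^ 2 * n)).card : ℝ))
    (hE : ∀ P ∈ PP, ((E P).card : ℝ) ≤ ε * n)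
    (hs : Real.sqrt u ≤ s * n) (hs0 : 0 < s)
    (hsum : Real.exp (-(δ * N / 1024)) + (PP.card : ℝ) * (Real.exp (-(δ * n / 1024)) +
      Real.exp (-(δ * n / 64)) + Real.exp (-(δ * s * n))) < 1) :
    ∃ H ⊆ Icc 1 (N : ℤ), (H.card : ℝ) < 17 / 16 * δ * N ∧ ∀ P ∈ PP,
      15 / 16 * δ * ((light P (E P) (64 * ε ^ 2 * n)).card : ℝ) < ((H ∩ light P (E P) (64 * ε ^ 2 * n)).card : ℝ) ∧
      ∑ y ∈ H ∩ light P (E P) (64 * ε ^ 2 * n), (ff P (E P) y : ℝ) < 9 * δ * ε ^ 2 * n ^ 2 ∧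
      ∑ y ∈ H ∩ P, (vv (E P) u y : ℝ) < 7 * δ * ε * s * n ^ 2 := by
  have hb : ∑ i ∈ Finset.insertNone (PP ×ˢ (Finset.univ : Finset (Fin 3))),
      Real.exp (-h_t E N n δ ε s i) *
        ∏ y ∈ Icc 1 (N : ℤ), (1 - δ + δ * Real.exp (h_g E u n ε i y)) < 1 := by
    rw [Finset.sum_insertNone, Finset.sum_product]
    refine lt_of_le_of_lt (add_le_add (h_none N u n δ ε s hδ0 hδ1 E) ?_) hsum
    rw [← nsmul_eq_mul, ← Finset.sum_const]
    apply Finset.sum_le_sum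
    intro P hP
    rw [Fin.sum_univ_three]
    exact add_le_add (add_le_add (h_zero N u n δ ε s hδ0 hδ1 E P (hPN P hP) (hPl P hP))
      (h_one N u n δ ε s hδ0 hδ1 hn hε E P (hPN P hP) (hPS P hP) (hE P hP)))
      (h_two N u hu n δ ε s hδ0 hδ1 hn hε E P (hPN P hP) (hPS P hP) (hE P hP) hs)
  obtain ⟨H, hH, hH2⟩ := prob_exists (Icc 1 (N : ℤ)) _ δ hδ0.le hδ1 (h_g E u n ε)
    (h_t E N n δ ε s) hb
  refine ⟨H, hH, ?_, ?_⟩
  · have h1 := hH2 none (Finset.none_mem_insertNone)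
    simp only [h_g, h_t, Finset.sum_const, nsmul_eq_mul] at h1
    linarith
  · intro P hP
    have hpos : 0 < 64 * ε ^ 2 * n := by positivity
    have hpos2 : 0 < ε * n := by positivity
    have hm : ∀ j : Fin 3, some (P, j) ∈ Finset.insertNone (PP ×ˢ (Finset.univ : Finset (Fin 3))) := by
      intro j
      rw [Finset.some_mem_insertNone]
      exact Finset.mem_product.2 ⟨hP, Finset.mem_univ _⟩
    have h0 := hH2 _ (hm 0)
    have h1 := hH2 _ (hm 1)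
    have h2 := hH2 _ (hm 2)
    simp only [h_g, h_t] at h0 h1 h2
    rw [← Finset.sum_filter, Finset.filter_mem_eq_inter] at h0 h1 h2
    refine ⟨?_, ?_, ?_⟩
    · rw [Finset.sum_const, nsmul_eq_mul] at h0
      linarith
    · rw [← Finset.mul_sum, one_div, ← div_eq_inv_mul, div_lt_iff₀ hpos] at h1
      refine lt_of_lt_of_eq h1 ?_
      ring
    · rw [← Finset.mul_sum, one_div, ← div_eq_inv_mul, div_lt_iff₀ hpos2] at h2
      refine lt_of_lt_of_eq h2 ?_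
      ring

end Pool.Agent.Be54
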