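import Pool.Agent.Be54.Defs

set_option autoImplicit false

/-!
Module U of project BE54: bound for the number of repeated short differences of `S ∪ H`.
-/

namespace Pool.Agent.Be54

open Finset

theorem u_sum_card {α β : Type*} [DecidableEq α] [DecidableEq β] (H : Finset α) (W : Finset β)
    (q : α → β → Prop) [∀ a b, Decidable (q a b)] :
    ∑ h ∈ H, (W.filter (fun w => q h w)).card = ((H ×ˢ W).filter (fun t => q t.1 t.2)).card := by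
  rw [Finset.card_filter, Finset.sum_product]
  refine Finset.sum_congr rfl fun h _ => ?_
  rw [Finset.card_filter]

theorem u_mem_Df {P : Finset ℤ} {a b : ℤ} (ha : a ∈ P) (hb : b ∈ P) (hab : a ≠ b) :
    a - b ∈ Df P := by
  unfold Df
  rw [Finset.mem_erase]
  refine ⟨sub_ne_zero.mpr hab, ?_⟩
  rw [Finset.mem_image]
  exact ⟨(a, b), Finset.mem_product.mpr ⟨ha, hb⟩, rfl⟩

/-- the pairs counted by `∑ qf` -/
def u_T (P E : Finset ℤ) : Finset (ℤ × ℤ) := (E ×ˢ P).filter (fun t => t.1 - t.2 ∈ Df P)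

theorem u_card_T (P E : Finset ℤ) : (u_T P E).card = ∑ z ∈ E, qf P z := by
  unfold u_T qf
  exact (u_sum_card E P (fun z b => z - b ∈ Df P)).symm

theorem u_mem_Qd {Y : Finset ℤ} {u : ℕ} {p : (ℤ × ℤ) × (ℤ × ℤ)} :
    p ∈ Qd Y u ↔ (p.1.1 ∈ Y ∧ p.1.2 ∈ Y ∧ p.2.1 ∈ Y ∧ p.2.2 ∈ Y) ∧
      p.1.1 - p.1.2 = p.2.1 - p.2.2 ∧ p.1.1 ≠ p.1.2 ∧ p.1 ≠ p.2 ∧ (p.1.1 - p.1.2).natAbs < u := by
  unfold Qd
  rw [Finset.mem_filter, Finset.mem_product, Finset.mem_product, Finset.mem_product]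
  constructor
  · rintro ⟨⟨⟨h1, h2⟩, h3, h4⟩, h⟩
    exact ⟨⟨h1, h2, h3, h4⟩, h⟩
  · rintro ⟨⟨h1, h2, h3, h4⟩, h⟩
    exact ⟨⟨⟨h1, h2⟩, h3, h4⟩, h⟩

/-- the quadruples whose first entry lies in `H` -/
def u_QH (S H : Finset ℤ) (u : ℕ) : Finset ((ℤ × ℤ) × (ℤ × ℤ)) :=
  (Qd (S ∪ H) u).filter (fun p => p.1.1 ∈ H)

def u_s1 (p : (ℤ × ℤ) × (ℤ × ℤ)) : (ℤ × ℤ) × (ℤ × ℤ) := ((p.1.2, p.1.1), (p.2.2, p.2.1))

def u_s2 (p : (ℤ × ℤ) × (ℤ × ℤ)) : (ℤ × ℤ) × (ℤ × ℤ) := (p.2, p.1)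

theorem u_s1_s1 (p : (ℤ × ℤ) × (ℤ × ℤ)) : u_s1 (u_s1 p) = p := rfl

theorem u_s2_s2 (p : (ℤ × ℤ) × (ℤ × ℤ)) : u_s2 (u_s2 p) = p := rfl

theorem u_s1_Qd {Y : Finset ℤ} {u : ℕ} {p : (ℤ × ℤ) × (ℤ × ℤ)} (h : p ∈ Qd Y u) :
    u_s1 p ∈ Qd Y u := by
  rw [u_mem_Qd] at h ⊢
  obtain ⟨⟨h1, h2, h3, h4⟩, h5, h6, h7, h8⟩ := h
  refine ⟨⟨h2, h1, h4, h3⟩, ?_, h6.symm, ?_, ?_⟩
  · show p.1.2 - p.1.1 = p.2.2 - p.2.1
    omega
  · intro hc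
    apply h7
    have e1 : p.1.2 = p.2.2 := congrArg Prod.fst hc
    have e2 : p.1.1 = p.2.1 := congrArg Prod.snd hc
    exact Prod.ext e2 e1
  · show (p.1.2 - p.1.1).natAbs < u
    omega

theorem u_s2_Qd {Y : Finset ℤ} {u : ℕ} {p : (ℤ × ℤ) × (ℤ × ℤ)} (h : p ∈ Qd Y u) :
    u_s2 p ∈ Qd Y u := by
  rw [u_mem_Qd] at h ⊢
  obtain ⟨⟨h1, h2, h3, h4⟩, h5, h6, h7, h8⟩ := h
  refine ⟨⟨h3, h4, h1, h2⟩, h5.symm, ?_, h7.symm, ?_⟩
  · show p.2.1 ≠ p.2.2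
    omega
  · show (p.2.1 - p.2.2).natAbs < u
    omega

theorem u_card_Qd (S H : Finset ℤ) (u : ℕ) (hS : Sid S) :
    (Qd (S ∪ H) u).card ≤ 4 * (u_QH S H u).card := by
  classical
  set Q := u_QH S H u with hQ
  have hsub : Qd (S ∪ H) u ⊆ ((Q ∪ Q.image u_s1) ∪ Q.image u_s2) ∪ Q.image (fun p => u_s1 (u_s2 p)) := by
    intro p hp
    have hp' := u_mem_Qd.mp hp
    obtain ⟨⟨h1, h2, h3, h4⟩, h5, h6, h7, h8⟩ := hp'
    by_cases ha : p.1.1 ∈ H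
    · refine Finset.mem_union_left _ (Finset.mem_union_left _ (Finset.mem_union_left _ ?_))
      exact Finset.mem_filter.mpr ⟨hp, ha⟩
    by_cases hb : p.1.2 ∈ H
    · refine Finset.mem_union_left _ (Finset.mem_union_left _ (Finset.mem_union_right _ ?_))
      exact Finset.mem_image.mpr ⟨u_s1 p, Finset.mem_filter.mpr ⟨u_s1_Qd hp, hb⟩, rfl⟩
    by_cases hc : p.2.1 ∈ H
    · refine Finset.mem_union_left _ (Finset.mem_union_right _ ?_)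
      exact Finset.mem_image.mpr ⟨u_s2 p, Finset.mem_filter.mpr ⟨u_s2_Qd hp, hc⟩, rfl⟩
    by_cases hd : p.2.2 ∈ H
    · refine Finset.mem_union_right _ ?_
      exact Finset.mem_image.mpr ⟨u_s2 (u_s1 p),
        Finset.mem_filter.mpr ⟨u_s2_Qd (u_s1_Qd hp), hd⟩, rfl⟩
    exfalso
    have a1 : p.1.1 ∈ S := (Finset.mem_union.mp h1).resolve_right ha
    have a2 : p.1.2 ∈ S := (Finset.mem_union.mp h2).resolve_right hb
    have a3 : p.2.1 ∈ S := (Finset.mem_union.mp h3).resolve_right hc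
    have a4 : p.2.2 ∈ S := (Finset.mem_union.mp h4).resolve_right hd
    have := hS _ a1 _ a2 _ a3 _ a4 h6 h5
    exact h7 (Prod.ext this.1 this.2)
  have c0 := Finset.card_le_card hsub
  have c1 := Finset.card_union_le ((Q ∪ Q.image u_s1) ∪ Q.image u_s2) (Q.image (fun p => u_s1 (u_s2 p)))
  have c2 := Finset.card_union_le (Q ∪ Q.image u_s1) (Q.image u_s2)
  have c3 := Finset.card_union_le Q (Q.image u_s1)
  have d1 : (Q.image u_s1).card ≤ Q.card := Finset.card_image_le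
  have d2 : (Q.image u_s2).card ≤ Q.card := Finset.card_image_le
  have d3 : (Q.image (fun p => u_s1 (u_s2 p))).card ≤ Q.card := Finset.card_image_le
  omega

/-- basic facts about an element of `u_QH` -/
theorem u_QH_facts {P E S H : Finset ℤ} {u : ℕ} (hSP : S ⊆ P ∪ E) (hH : H ⊆ P)
    {p : (ℤ × ℤ) × (ℤ × ℤ)} (hp : p ∈ u_QH S H u) :
    p.1.1 ∈ H ∧ p.1.1 ∈ P ∧ p.1.2 ∈ P ∪ E ∧ p.2.1 ∈ P ∪ E ∧ p.2.2 ∈ P ∪ E ∧
      p.1.1 - p.1.2 = p.2.1 - p.2.2 ∧ p.1.1 ≠ p.1.2 ∧ p.1.1 ≠ p.2.1 ∧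
      (p.1.1 - p.1.2).natAbs < u := by
  obtain ⟨hq, ha⟩ := Finset.mem_filter.mp hp
  obtain ⟨⟨h1, h2, h3, h4⟩, h5, h6, h7, h8⟩ := u_mem_Qd.mp hq
  have key : ∀ x ∈ S ∪ H, x ∈ P ∪ E := by
    intro x hx
    rcases Finset.mem_union.mp hx with hx | hx
    · exact hSP hx
    · exact Finset.mem_union_left _ (hH hx)
  refine ⟨ha, hH ha, key _ h2, key _ h3, key _ h4, h5, h6, ?_, h8⟩
  intro hc
  apply h7
  refine Prod.ext hc ?_
  omega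

theorem u_c1 (P E S H : Finset ℤ) (u : ℕ) (hP : Sid P) (hSP : S ⊆ P ∪ E) (hH : H ⊆ P) :
    ((u_QH S H u).filter (fun p => p.1.2 ∈ E ∧ p.2.1 ∈ P ∧ p.2.2 ∈ P)).card ≤ (u_T P E).card := by
  refine Finset.card_le_card_of_injOn (fun p => (p.1.2, p.1.1)) ?_ ?_
  · intro p hp
    obtain ⟨hq, hb, hc, hd⟩ := Finset.mem_filter.mp hp
    obtain ⟨f1, f2, f3, f4, f5, f6, f7, f8, f9⟩ := u_QH_facts hSP hH hq
    refine Finset.mem_coe.mpr (Finset.mem_filter.mpr ⟨Finset.mem_product.mpr ⟨hb, f2⟩, ?_⟩)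
    show p.1.2 - p.1.1 ∈ Df P
    have e : p.1.2 - p.1.1 = p.2.2 - p.2.1 := by omega
    rw [e]
    exact u_mem_Df hd hc (by omega)
  · intro p hp q hq hpq
    obtain ⟨hp1, -, hc, hd⟩ := Finset.mem_filter.mp (Finset.mem_coe.mp hp)
    obtain ⟨hq1, -, hc', hd'⟩ := Finset.mem_filter.mp (Finset.mem_coe.mp hq)
    obtain ⟨f1, f2, f3, f4, f5, f6, f7, f8, f9⟩ := u_QH_facts hSP hH hp1
    obtain ⟨g1, g2, g3, g4, g5, g6, g7, g8, g9⟩ := u_QH_facts hSP hH hq1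
    have e1 : p.1.2 = q.1.2 := congrArg Prod.fst hpq
    have e2 : p.1.1 = q.1.1 := congrArg Prod.snd hpq
    have e3 := hP _ hc _ hd _ hc' _ hd' (by omega) (by omega)
    exact Prod.ext (Prod.ext e2 e1) (Prod.ext e3.1 e3.2)

theorem u_c2 (P E S H : Finset ℤ) (u : ℕ) (hP : Sid P) (hSP : S ⊆ P ∪ E) (hH : H ⊆ P) :
    ((u_QH S H u).filter (fun p => p.1.2 ∈ P ∧ p.2.1 ∈ E ∧ p.2.2 ∈ P)).card ≤ (u_T P E).card := by
  refine Finset.card_le_card_of_injOn (fun p => (p.2.1, p.2.2)) ?_ ?_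
  · intro p hp
    obtain ⟨hq, hb, hc, hd⟩ := Finset.mem_filter.mp hp
    obtain ⟨f1, f2, f3, f4, f5, f6, f7, f8, f9⟩ := u_QH_facts hSP hH hq
    refine Finset.mem_coe.mpr (Finset.mem_filter.mpr ⟨Finset.mem_product.mpr ⟨hc, hd⟩, ?_⟩)
    show p.2.1 - p.2.2 ∈ Df P
    rw [← f6]
    exact u_mem_Df f2 hb f7
  · intro p hp q hq hpq
    obtain ⟨hp1, hb, -, -⟩ := Finset.mem_filter.mp (Finset.mem_coe.mp hp)
    obtain ⟨hq1, hb', -, -⟩ := Finset.mem_filter.mp (Finset.mem_coe.mp hq)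
    obtain ⟨f1, f2, f3, f4, f5, f6, f7, f8, f9⟩ := u_QH_facts hSP hH hp1
    obtain ⟨g1, g2, g3, g4, g5, g6, g7, g8, g9⟩ := u_QH_facts hSP hH hq1
    have e1 : p.2.1 = q.2.1 := congrArg Prod.fst hpq
    have e2 : p.2.2 = q.2.2 := congrArg Prod.snd hpq
    have e3 := hP _ f2 _ hb _ g2 _ hb' f7 (by omega)
    exact Prod.ext (Prod.ext e3.1 e3.2) (Prod.ext e1 e2)

theorem u_c3 (P E S H : Finset ℤ) (u : ℕ) (hP : Sid P) (hSP : S ⊆ P ∪ E) (hH : H ⊆ P) :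
    ((u_QH S H u).filter (fun p => p.1.2 ∈ P ∧ p.2.1 ∈ P ∧ p.2.2 ∈ E)).card ≤ (u_T P E).card := by
  refine Finset.card_le_card_of_injOn (fun p => (p.2.2, p.2.1)) ?_ ?_
  · intro p hp
    obtain ⟨hq, hb, hc, hd⟩ := Finset.mem_filter.mp hp
    obtain ⟨f1, f2, f3, f4, f5, f6, f7, f8, f9⟩ := u_QH_facts hSP hH hq
    refine Finset.mem_coe.mpr (Finset.mem_filter.mpr ⟨Finset.mem_product.mpr ⟨hd, hc⟩, ?_⟩)
    show p.2.2 - p.2.1 ∈ Df P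
    have e : p.2.2 - p.2.1 = p.1.2 - p.1.1 := by omega
    rw [e]
    exact u_mem_Df hb f2 f7.symm
  · intro p hp q hq hpq
    obtain ⟨hp1, hb, -, -⟩ := Finset.mem_filter.mp (Finset.mem_coe.mp hp)
    obtain ⟨hq1, hb', -, -⟩ := Finset.mem_filter.mp (Finset.mem_coe.mp hq)
    obtain ⟨f1, f2, f3, f4, f5, f6, f7, f8, f9⟩ := u_QH_facts hSP hH hp1
    obtain ⟨g1, g2, g3, g4, g5, g6, g7, g8, g9⟩ := u_QH_facts hSP hH hq1
    have e1 : p.2.2 = q.2.2 := congrArg Prod.fst hpq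
    have e2 : p.2.1 = q.2.1 := congrArg Prod.snd hpq
    have e3 := hP _ f2 _ hb _ g2 _ hb' f7 (by omega)
    exact Prod.ext (Prod.ext e3.1 e3.2) (Prod.ext e2 e1)

theorem u_c4 (P E S H : Finset ℤ) (u : ℕ) (hSP : S ⊆ P ∪ E) (hH : H ⊆ P) :
    ((u_QH S H u).filter (fun p => p.1.2 ∈ E ∧ p.2.1 ∈ E ∧ p.2.2 ∈ P)).card ≤ ∑ h ∈ H, Fp P E h := by
  have e0 : ∑ h ∈ H, Fp P E h =
      ((H ×ˢ ((E ×ˢ E) ×ˢ P)).filter (fun t => t.1 + t.2.2 = t.2.1.1 + t.2.1.2)).card := by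
    unfold Fp
    exact u_sum_card H ((E ×ˢ E) ×ˢ P) (fun h t => h + t.2 = t.1.1 + t.1.2)
  rw [e0]
  refine Finset.card_le_card_of_injOn (fun p => (p.1.1, ((p.1.2, p.2.1), p.2.2))) ?_ ?_
  · intro p hp
    obtain ⟨hq, hb, hc, hd⟩ := Finset.mem_filter.mp hp
    obtain ⟨f1, f2, f3, f4, f5, f6, f7, f8, f9⟩ := u_QH_facts hSP hH hq
    refine Finset.mem_coe.mpr (Finset.mem_filter.mpr ⟨Finset.mem_product.mpr ⟨f1,
      Finset.mem_product.mpr ⟨Finset.mem_product.mpr ⟨hb, hc⟩, hd⟩⟩, ?_⟩)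
    show p.1.1 + p.2.2 = p.1.2 + p.2.1
    omega
  · intro p _ q _ hpq
    have e1 : p.1.1 = q.1.1 := congrArg (fun t => t.1) hpq
    have e2 : p.1.2 = q.1.2 := congrArg (fun t => t.2.1.1) hpq
    have e3 : p.2.1 = q.2.1 := congrArg (fun t => t.2.1.2) hpq
    have e4 : p.2.2 = q.2.2 := congrArg (fun t => t.2.2) hpq
    exact Prod.ext (Prod.ext e1 e2) (Prod.ext e3 e4)

theorem u_Fm_card (P E H : Finset ℤ) : ∑ h ∈ H, Fm P E h =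
    ((H ×ˢ ((E ×ˢ E) ×ˢ P)).filter
      (fun t => t.2.1.1 ≠ t.2.1.2 ∧ t.1 - t.2.2 = t.2.1.1 - t.2.1.2)).card := by
  unfold Fm
  exact u_sum_card H ((E ×ˢ E) ×ˢ P) (fun h t => t.1.1 ≠ t.1.2 ∧ h - t.2 = t.1.1 - t.1.2)

theorem u_c5 (P E S H : Finset ℤ) (u : ℕ) (hSP : S ⊆ P ∪ E) (hH : H ⊆ P) :
    ((u_QH S H u).filter (fun p => p.1.2 ∈ E ∧ p.2.1 ∈ P ∧ p.2.2 ∈ E)).card ≤ ∑ h ∈ H, Fm P E h := by
  rw [u_Fm_card]
  refine Finset.card_le_card_of_injOn (fun p => (p.1.1, ((p.1.2, p.2.2), p.2.1))) ?_ ?_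
  · intro p hp
    obtain ⟨hq, hb, hc, hd⟩ := Finset.mem_filter.mp hp
    obtain ⟨f1, f2, f3, f4, f5, f6, f7, f8, f9⟩ := u_QH_facts hSP hH hq
    refine Finset.mem_coe.mpr (Finset.mem_filter.mpr ⟨Finset.mem_product.mpr ⟨f1,
      Finset.mem_product.mpr ⟨Finset.mem_product.mpr ⟨hb, hd⟩, hc⟩⟩, ?_, ?_⟩)
    · show p.1.2 ≠ p.2.2
      omega
    · show p.1.1 - p.2.1 = p.1.2 - p.2.2
      omega
  · intro p _ q _ hpq
    have e1 : p.1.1 = q.1.1 := congrArg (fun t => t.1) hpq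
    have e2 : p.1.2 = q.1.2 := congrArg (fun t => t.2.1.1) hpq
    have e3 : p.2.2 = q.2.2 := congrArg (fun t => t.2.1.2) hpq
    have e4 : p.2.1 = q.2.1 := congrArg (fun t => t.2.2) hpq
    exact Prod.ext (Prod.ext e1 e2) (Prod.ext e4 e3)

theorem u_c6 (P E S H : Finset ℤ) (u : ℕ) (hSP : S ⊆ P ∪ E) (hH : H ⊆ P) :
    ((u_QH S H u).filter (fun p => p.1.2 ∈ P ∧ p.2.1 ∈ E ∧ p.2.2 ∈ E)).card ≤ ∑ h ∈ H, Fm P E h := by
  rw [u_Fm_card]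
  refine Finset.card_le_card_of_injOn (fun p => (p.1.1, ((p.2.1, p.2.2), p.1.2))) ?_ ?_
  · intro p hp
    obtain ⟨hq, hb, hc, hd⟩ := Finset.mem_filter.mp hp
    obtain ⟨f1, f2, f3, f4, f5, f6, f7, f8, f9⟩ := u_QH_facts hSP hH hq
    refine Finset.mem_coe.mpr (Finset.mem_filter.mpr ⟨Finset.mem_product.mpr ⟨f1,
      Finset.mem_product.mpr ⟨Finset.mem_product.mpr ⟨hc, hd⟩, hb⟩⟩, ?_, ?_⟩)
    · show p.2.1 ≠ p.2.2
      omega
    · show p.1.1 - p.1.2 = p.2.1 - p.2.2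
      omega
  · intro p _ q _ hpq
    have e1 : p.1.1 = q.1.1 := congrArg (fun t => t.1) hpq
    have e2 : p.2.1 = q.2.1 := congrArg (fun t => t.2.1.1) hpq
    have e3 : p.2.2 = q.2.2 := congrArg (fun t => t.2.1.2) hpq
    have e4 : p.1.2 = q.1.2 := congrArg (fun t => t.2.2) hpq
    exact Prod.ext (Prod.ext e1 e4) (Prod.ext e2 e3)

theorem u_c7 (P E S H : Finset ℤ) (u : ℕ) (hS : Sid S) (hPE : Disjoint P E)
    (hSP : S ⊆ P ∪ E) (hH : H ⊆ P) :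
    ((u_QH S H u).filter (fun p => p.1.2 ∈ E ∧ p.2.1 ∈ E ∧ p.2.2 ∈ E)).card ≤ ∑ h ∈ H, vv E u h := by
  have e0 : ∑ h ∈ H, vv E u h = ((H ×ˢ E).filter (fun t => (t.1 - t.2).natAbs < u)).card := by
    unfold vv
    exact u_sum_card H E (fun h z => (h - z).natAbs < u)
  have inS : ∀ x : ℤ, x ∈ S ∪ H → x ∈ E → x ∈ S := by
    intro x hx hE
    rcases Finset.mem_union.mp hx with h | h
    · exact h
    · exact absurd hE (Finset.disjoint_left.mp hPE (hH h))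
  rw [e0]
  refine Finset.card_le_card_of_injOn (fun p => (p.1.1, p.1.2)) ?_ ?_
  · intro p hp
    obtain ⟨hq, hb, hc, hd⟩ := Finset.mem_filter.mp hp
    obtain ⟨f1, f2, f3, f4, f5, f6, f7, f8, f9⟩ := u_QH_facts hSP hH hq
    exact Finset.mem_coe.mpr (Finset.mem_filter.mpr ⟨Finset.mem_product.mpr ⟨f1, hb⟩, f9⟩)
  · intro p hp q hq hpq
    obtain ⟨hp1, -, hc, hd⟩ := Finset.mem_filter.mp (Finset.mem_coe.mp hp)
    obtain ⟨hq1, -, hc', hd'⟩ := Finset.mem_filter.mp (Finset.mem_coe.mp hq)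
    obtain ⟨f1, f2, f3, f4, f5, f6, f7, f8, f9⟩ := u_QH_facts hSP hH hp1
    obtain ⟨g1, g2, g3, g4, g5, g6, g7, g8, g9⟩ := u_QH_facts hSP hH hq1
    obtain ⟨⟨-, -, k3, k4⟩, -⟩ := u_mem_Qd.mp (Finset.mem_filter.mp hp1).1
    obtain ⟨⟨-, -, l3, l4⟩, -⟩ := u_mem_Qd.mp (Finset.mem_filter.mp hq1).1
    have e1 : p.1.1 = q.1.1 := congrArg Prod.fst hpq
    have e2 : p.1.2 = q.1.2 := congrArg Prod.snd hpq
    have e3 := hS _ (inS _ k3 hc) _ (inS _ k4 hd) _ (inS _ l3 hc') _ (inS _ l4 hd')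
      (by omega) (by omega)
    exact Prod.ext (Prod.ext e1 e2) (Prod.ext e3.1 e3.2)

theorem u_cover (P E S H : Finset ℤ) (u : ℕ) (hP : Sid P) (hSP : S ⊆ P ∪ E) (hH : H ⊆ P) :
    (u_QH S H u).card ≤
      ((u_QH S H u).filter (fun p => p.1.2 ∈ E ∧ p.2.1 ∈ P ∧ p.2.2 ∈ P)).card +
      ((u_QH S H u).filter (fun p => p.1.2 ∈ P ∧ p.2.1 ∈ E ∧ p.2.2 ∈ P)).card +
      ((u_QH S H u).filter (fun p => p.1.2 ∈ P ∧ p.2.1 ∈ P ∧ p.2.2 ∈ E)).card +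
      ((u_QH S H u).filter (fun p => p.1.2 ∈ E ∧ p.2.1 ∈ E ∧ p.2.2 ∈ P)).card +
      ((u_QH S H u).filter (fun p => p.1.2 ∈ E ∧ p.2.1 ∈ P ∧ p.2.2 ∈ E)).card +
      ((u_QH S H u).filter (fun p => p.1.2 ∈ P ∧ p.2.1 ∈ E ∧ p.2.2 ∈ E)).card +
      ((u_QH S H u).filter (fun p => p.1.2 ∈ E ∧ p.2.1 ∈ E ∧ p.2.2 ∈ E)).card := by
  classical
  set Q := u_QH S H u with hQ
  set A1 := Q.filter (fun p => p.1.2 ∈ E ∧ p.2.1 ∈ P ∧ p.2.2 ∈ P) with hA1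
  set A2 := Q.filter (fun p => p.1.2 ∈ P ∧ p.2.1 ∈ E ∧ p.2.2 ∈ P) with hA2
  set A3 := Q.filter (fun p => p.1.2 ∈ P ∧ p.2.1 ∈ P ∧ p.2.2 ∈ E) with hA3
  set A4 := Q.filter (fun p => p.1.2 ∈ E ∧ p.2.1 ∈ E ∧ p.2.2 ∈ P) with hA4
  set A5 := Q.filter (fun p => p.1.2 ∈ E ∧ p.2.1 ∈ P ∧ p.2.2 ∈ E) with hA5
  set A6 := Q.filter (fun p => p.1.2 ∈ P ∧ p.2.1 ∈ E ∧ p.2.2 ∈ E) with hA6
  set A7 := Q.filter (fun p => p.1.2 ∈ E ∧ p.2.1 ∈ E ∧ p.2.2 ∈ E) with hA7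
  have hsub : Q ⊆ (((((A1 ∪ A2) ∪ A3) ∪ A4) ∪ A5) ∪ A6) ∪ A7 := by
    intro p hp
    obtain ⟨f1, f2, f3, f4, f5, f6, f7, f8, f9⟩ := u_QH_facts hSP hH hp
    rcases Finset.mem_union.mp f3 with b | b <;> rcases Finset.mem_union.mp f4 with c | c <;>
      rcases Finset.mem_union.mp f5 with d | d
    · exact absurd (hP _ f2 _ b _ c _ d f7 f6).1 f8
    · have h : p ∈ A3 := Finset.mem_filter.mpr ⟨hp, b, c, d⟩
      exact Finset.mem_union_left _ (Finset.mem_union_left _ (Finset.mem_union_left _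
        (Finset.mem_union_left _ (Finset.mem_union_right _ h))))
    · have h : p ∈ A2 := Finset.mem_filter.mpr ⟨hp, b, c, d⟩
      exact Finset.mem_union_left _ (Finset.mem_union_left _ (Finset.mem_union_left _
        (Finset.mem_union_left _ (Finset.mem_union_left _ (Finset.mem_union_right _ h)))))
    · have h : p ∈ A6 := Finset.mem_filter.mpr ⟨hp, b, c, d⟩
      exact Finset.mem_union_left _ (Finset.mem_union_right _ h)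
    · have h : p ∈ A1 := Finset.mem_filter.mpr ⟨hp, b, c, d⟩
      exact Finset.mem_union_left _ (Finset.mem_union_left _ (Finset.mem_union_left _
        (Finset.mem_union_left _ (Finset.mem_union_left _ (Finset.mem_union_left _ h)))))
    · have h : p ∈ A5 := Finset.mem_filter.mpr ⟨hp, b, c, d⟩
      exact Finset.mem_union_left _ (Finset.mem_union_left _ (Finset.mem_union_right _ h))
    · have h : p ∈ A4 := Finset.mem_filter.mpr ⟨hp, b, c, d⟩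
      exact Finset.mem_union_left _ (Finset.mem_union_left _ (Finset.mem_union_left _
        (Finset.mem_union_right _ h)))
    · have h : p ∈ A7 := Finset.mem_filter.mpr ⟨hp, b, c, d⟩
      exact Finset.mem_union_right _ h
  have c0 := Finset.card_le_card hsub
  have c1 := Finset.card_union_le ((((((A1 ∪ A2) ∪ A3) ∪ A4) ∪ A5) ∪ A6)) A7
  have c2 := Finset.card_union_le (((((A1 ∪ A2) ∪ A3) ∪ A4) ∪ A5)) A6
  have c3 := Finset.card_union_le ((((A1 ∪ A2) ∪ A3) ∪ A4)) A5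
  have c4 := Finset.card_union_le (((A1 ∪ A2) ∪ A3)) A4
  have c5 := Finset.card_union_le ((A1 ∪ A2)) A3
  have c6 := Finset.card_union_le A1 A2
  omega

theorem quad_bound (P E S H : Finset ℤ) (u : ℕ) (m : ℝ) (hP : Sid P) (hS : Sid S)
    (hPE : Disjoint P E) (hSP : S ⊆ P ∪ E) (hH : H ⊆ P) (hHS : Disjoint H S)
    (hm : ∀ z ∈ E, (qf P z : ℝ) ≤ m) :
    ((Qd (S ∪ H) u).card : ℝ) ≤
      4 * (3 * (E.card * m) + ∑ h ∈ H, (ff P E h : ℝ) + ∑ h ∈ H, (vv E u h : ℝ)) := by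
  have _hHS := hHS
  have h0 := u_card_Qd S H u hS
  have h1 := u_cover P E S H u hP hSP hH
  have b1 := u_c1 P E S H u hP hSP hH
  have b2 := u_c2 P E S H u hP hSP hH
  have b3 := u_c3 P E S H u hP hSP hH
  have b4 := u_c4 P E S H u hSP hH
  have b5 := u_c5 P E S H u hSP hH
  have b6 := u_c6 P E S H u hSP hH
  have b7 := u_c7 P E S H u hS hPE hSP hH
  have hf : ∑ h ∈ H, ff P E h = ∑ h ∈ H, Fp P E h + 2 * ∑ h ∈ H, Fm P E h := by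
    unfold ff
    rw [Finset.sum_add_distrib, Finset.mul_sum]
  have hT : ((u_T P E).card : ℝ) ≤ E.card * m := by
    rw [u_card_T]
    push_cast
    calc ∑ z ∈ E, (qf P z : ℝ) ≤ ∑ _z ∈ E, m := Finset.sum_le_sum hm
      _ = E.card * m := by rw [Finset.sum_const, nsmul_eq_mul]
  have hnat : (Qd (S ∪ H) u).card ≤
      4 * (3 * (u_T P E).card + ∑ h ∈ H, ff P E h + ∑ h ∈ H, vv E u h) := by
    rw [hf]
    omega
  have hreal : ((Qd (S ∪ H) u).card : ℝ) ≤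
      4 * (3 * ((u_T P E).card : ℝ) + ∑ h ∈ H, (ff P E h : ℝ) + ∑ h ∈ H, (vv E u h : ℝ)) := by
    exact_mod_cast hnat
  linarith

end Pool.Agent.Be54
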