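import Pool.Agent.Be54.Q

set_option autoImplicit false

/-!
The exceptional set of a dense Sidon set is small.
-/

namespace Pool.Agent.Be54

open Finset

/-- the differences which do not occur, of absolute value in `(ℓ, 2ℓ]` -/
noncomputable def x_D (S : Finset ℤ) (l : ℕ) : Finset ℤ :=
  (Icc (-(2 * l : ℤ)) (2 * l)).filter (fun d => l < d.natAbs ∧ d ∉ Df S)

theorem x_symm (S : Finset ℤ) (d : ℤ) (h : d ∈ Df S) : -d ∈ Df S := by
  unfold Df at *
  rw [mem_erase, mem_image] at *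
  obtain ⟨h0, ⟨a, b⟩, hab, rfl⟩ := h
  refine ⟨by
    intro h
    apply h0
    simp only at h ⊢
    omega, ⟨b, a⟩, ?_, by simp⟩
  rw [mem_product] at *
  exact ⟨hab.2, hab.1⟩

theorem x_cardD (n v : ℕ) (S : Finset ℤ) (δ : ℝ) (hn : 4 ≤ n)
    (hS : S ⊆ Icc 1 ((n ^ 2 : ℕ) : ℤ)) (hSid : Sid S)
    (hlow : (1 - δ) * n ≤ (S.card : ℝ)) (hδ0 : 0 ≤ δ) (hδ1 : δ ≤ 1) (hδv : δ * (n : ℝ) ^ 2 ≤ v)
    (hbig : 2 * (n : ℝ) ^ 3 ≤ (v : ℝ) ^ 2) :
    ((x_D S (8 * v)).card : ℝ) ≤ 2178 * ((v : ℝ) / n) ^ 2 := by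
  have hn0 : (0 : ℝ) < n := by exact_mod_cast (by omega : 0 < n)
  have hv0 : 1 ≤ v := by
    rcases Nat.eq_zero_or_pos v with h | h
    · exfalso
      rw [h] at hbig
      have : (0 : ℝ) < 2 * (n : ℝ) ^ 3 := by positivity
      norm_num at hbig
      linarith
    · exact h
  set M : Finset ℕ := (Icc 1 (16 * v)).filter (fun d : ℕ => (d : ℤ) ∉ Df S) with hM
  have hsub : x_D S (8 * v) ⊆ M.image (fun d : ℕ => (d : ℤ)) ∪ M.image (fun d : ℕ => -(d : ℤ)) := by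
    intro d hd
    unfold x_D at hd
    rw [mem_filter, mem_Icc] at hd
    obtain ⟨⟨h1, h2⟩, h3, h4⟩ := hd
    push_cast at h1 h2
    rw [mem_union, mem_image, mem_image]
    rcases le_total 0 d with h | h
    · left
      refine ⟨d.natAbs, ?_, by omega⟩
      rw [hM, mem_filter, mem_Icc]
      refine ⟨by omega, ?_⟩
      rwa [Int.natCast_natAbs, abs_of_nonneg h]
    · right
      refine ⟨d.natAbs, ?_, by omega⟩
      rw [hM, mem_filter, mem_Icc]
      refine ⟨by omega, ?_⟩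
      rw [Int.natCast_natAbs, abs_of_nonpos h]
      intro h5
      apply h4
      simpa using x_symm S _ h5
  have hcard : (x_D S (8 * v)).card ≤ 2 * M.card := by
    calc (x_D S (8 * v)).card ≤ _ := card_le_card hsub
      _ ≤ _ := card_union_le _ _
      _ ≤ M.card + M.card := add_le_add card_image_le card_image_le
      _ = 2 * M.card := by ring
  have hmiss := missing n (16 * v) S δ hn (by omega) hS hSid hlow hδ0 hδ1
  rw [← hM] at hmiss
  push_cast at hmiss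
  have hcard' : ((x_D S (8 * v)).card : ℝ) ≤ 2 * (M.card : ℝ) := by exact_mod_cast hcard
  have e1 : 2 * (n : ℝ) ≤ (v : ℝ) ^ 2 / (n : ℝ) ^ 2 := by
    rw [le_div_iff₀ (by positivity)]
    nlinarith
  have e2 : 4 * δ * (16 * (v : ℝ)) ≤ 64 * ((v : ℝ) ^ 2 / (n : ℝ) ^ 2) := by
    have h1 : δ ≤ (v : ℝ) / (n : ℝ) ^ 2 := by
      rw [le_div_iff₀ (by positivity)]
      exact hδv
    have h2 : (0 : ℝ) ≤ v := Nat.cast_nonneg v
    calc 4 * δ * (16 * (v : ℝ)) = 64 * (δ * v) := by ring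
      _ ≤ 64 * ((v : ℝ) / (n : ℝ) ^ 2 * v) := by
          have := mul_le_mul_of_nonneg_right h1 h2
          linarith
      _ = 64 * ((v : ℝ) ^ 2 / (n : ℝ) ^ 2) := by ring
  have e3 : 4 * (16 * (v : ℝ)) ^ 2 / (n : ℝ) ^ 2 = 1024 * ((v : ℝ) ^ 2 / (n : ℝ) ^ 2) := by ring
  have e4 : ((v : ℝ) / n) ^ 2 = (v : ℝ) ^ 2 / (n : ℝ) ^ 2 := by rw [div_pow]
  rw [e4]
  rw [e3] at hmiss
  linarith

theorem x_count (n v v0 : ℕ) (S : Finset ℤ) (δ m : ℝ) (hn : 4 ≤ n)
    (hS : S ⊆ Icc 1 ((n ^ 2 : ℕ) : ℤ)) (hSid : Sid S)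
    (hlow : (1 - δ) * n ≤ (S.card : ℝ)) (hδ0 : 0 ≤ δ) (hδ1 : δ ≤ 1) (hδv : δ * (n : ℝ) ^ 2 ≤ v)
    (hbig : 2 * (n : ℝ) ^ 3 ≤ (v : ℝ) ^ 2) (hv0 : v0 ≤ v) (hsmall : 32 * v ≤ n ^ 2)
    (hm : m ≤ v0 / (2 * n)) (c : ℤ) (hc : c ∈ Ex (n ^ 2) S m) :
    (v : ℝ) / n ≤ (((x_D S (8 * v)).filter (fun d => c + d ∈ S)).card : ℝ) := by
  have hn0 : (0 : ℝ) < n := by exact_mod_cast (by omega : 0 < n)
  unfold Ex at hc
  rw [mem_filter, mem_sdiff, mem_Icc] at hc
  obtain ⟨⟨⟨hc1, hc2⟩, hcS⟩, hq⟩ := hc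
  push_cast at hc2
  have hsmall' : (32 * v : ℤ) ≤ (n : ℤ) ^ 2 := by exact_mod_cast hsmall
  -- the good interval
  obtain ⟨p, hp0, hp1, hp2⟩ : ∃ p : ℤ, 0 ≤ p ∧ p + 8 * v ≤ (n : ℤ) ^ 2 ∧
      ∀ b : ℤ, p < b → b ≤ p + 8 * v → 8 * v < (b - c).natAbs ∧ (b - c).natAbs ≤ 16 * v := by
    rcases le_or_gt (c + 16 * v) ((n : ℤ) ^ 2) with h | h
    · refine ⟨c + 8 * v, by omega, by omega, fun b h1 h2 => ?_⟩
      constructor
      · omega
      · omega
    · refine ⟨c - 16 * v - 1, by omega, by omega, fun b h1 h2 => ?_⟩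
      constructor
      · omega
      · omega
  have heq := equidist n v S δ hn hS hSid hlow hδ0 hδ1 hδv hbig p hp0 hp1
  set B : Finset ℤ := S.filter (fun b => p < b ∧ b ≤ p + 8 * v) with hB
  have hsplit : B.card = (B.filter (fun b => c - b ∈ Df S)).card +
      (B.filter (fun b => ¬ (c - b ∈ Df S))).card := (card_filter_add_card_filter_not _).symm
  have hbad : (B.filter (fun b => c - b ∈ Df S)).card ≤ qf S c := by
    unfold qf
    apply card_le_card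
    intro b hb
    rw [mem_filter, hB, mem_filter] at hb
    rw [mem_filter]
    exact ⟨hb.1.1, hb.2⟩
  have hgood : (B.filter (fun b => ¬ (c - b ∈ Df S))).card ≤
      ((x_D S (8 * v)).filter (fun d => c + d ∈ S)).card := by
    apply card_le_card_of_injOn (fun b => b - c)
    · intro b hb
      rw [mem_coe, mem_filter, hB, mem_filter] at hb
      obtain ⟨⟨hbS, hb1, hb2⟩, hb3⟩ := hb
      obtain ⟨h1, h2⟩ := hp2 b hb1 hb2
      rw [mem_coe, mem_filter]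
      refine ⟨?_, by simpa using hbS⟩
      unfold x_D
      rw [mem_filter, mem_Icc]
      refine ⟨⟨?_, ?_⟩, h1, ?_⟩
      · push_cast
        omega
      · push_cast
        omega
      · intro h3
        apply hb3
        have := x_symm S _ h3
        simpa using this
    · intro a _ b _ hab
      simpa using hab
  have hbad' : ((B.filter (fun b => c - b ∈ Df S)).card : ℝ) ≤ (v : ℝ) / n / 2 := by
    calc ((B.filter (fun b => c - b ∈ Df S)).card : ℝ) ≤ qf S c := by exact_mod_cast hbad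
      _ ≤ m := hq
      _ ≤ v0 / (2 * n) := hm
      _ ≤ v / (2 * n) := by
          apply div_le_div_of_nonneg_right _ (by positivity)
          exact_mod_cast hv0
      _ = (v : ℝ) / n / 2 := by field_simp
  have hgood' : ((B.filter (fun b => ¬ (c - b ∈ Df S))).card : ℝ) ≤
      (((x_D S (8 * v)).filter (fun d => c + d ∈ S)).card : ℝ) := by exact_mod_cast hgood
  have hsplit' : (B.card : ℝ) = ((B.filter (fun b => c - b ∈ Df S)).card : ℝ) +
      ((B.filter (fun b => ¬ (c - b ∈ Df S))).card : ℝ) := by exact_mod_cast hsplit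
  linarith

/-- at most one shift for each pair -/
theorem x_pairs (E S D : Finset ℤ) (hSid : Sid S) :
    ∑ d ∈ D, (((E.filter (fun c => c + d ∈ S)).card : ℝ) ^ 2 -
      (E.filter (fun c => c + d ∈ S)).card) ≤ (E.card : ℝ) ^ 2 := by
  have h1 : ∀ d ∈ D, (((E.filter (fun c => c + d ∈ S)).card : ℝ) ^ 2 -
      (E.filter (fun c => c + d ∈ S)).card) =
      (((E.filter (fun c => c + d ∈ S)).offDiag.card : ℕ) : ℝ) := by
    intro d _
    rw [offDiag_card, Nat.cast_sub (Nat.le_mul_self _)]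
    push_cast
    ring
  rw [sum_congr rfl h1, ← Nat.cast_sum, ← card_sigma]
  have h2 : (D.sigma (fun d => (E.filter (fun c => c + d ∈ S)).offDiag)).card ≤
      (E ×ˢ E).card := by
    apply card_le_card_of_injOn (fun x => x.2)
    · rintro ⟨d, c, c'⟩ hx
      rw [mem_coe, mem_sigma, mem_offDiag, mem_filter, mem_filter] at hx
      rw [mem_coe, mem_product]
      exact ⟨hx.2.1.1, hx.2.2.1.1⟩
    · rintro ⟨d, c, c'⟩ hx ⟨e, b, b'⟩ hy hxy
      rw [mem_coe, mem_sigma, mem_offDiag, mem_filter, mem_filter] at hx hy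
      simp only [Prod.mk.injEq] at hxy hx hy
      obtain ⟨rfl, rfl⟩ := hxy
      have := hSid (c + d) hx.2.1.2 (c' + d) hx.2.2.1.2 (c + e) hy.2.1.2 (c' + e) hy.2.2.1.2
        (by intro h; exact hx.2.2.2 (by linarith)) (by ring)
      have hde : d = e := by linarith [this.1]
      subst hde
      rfl
  rw [card_product] at h2
  calc ((D.sigma (fun d => (E.filter (fun c => c + d ∈ S)).offDiag)).card : ℝ)
      ≤ ((E.card * E.card : ℕ) : ℝ) := by exact_mod_cast h2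
    _ = (E.card : ℝ) ^ 2 := by push_cast; ring

/-- double counting -/
theorem x_double (E S D : Finset ℤ) :
    ∑ d ∈ D, ((E.filter (fun c => c + d ∈ S)).card : ℝ) =
      ∑ c ∈ E, ((D.filter (fun d => c + d ∈ S)).card : ℝ) := by
  simp_rw [card_filter]
  push_cast
  rw [sum_comm]

/-- the contribution of one scale -/
theorem x_scale (E S D : Finset ℤ) (w : ℝ) (hw : 0 < w)
    (hD : (D.card : ℝ) ≤ 2178 * w ^ 2)
    (hc : ∀ c ∈ E, w ≤ ((D.filter (fun d => c + d ∈ S)).card : ℝ))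
    (hE : 4356 * w ≤ E.card) :
    (E.card : ℝ) ^ 2 / 4356 ≤ ∑ d ∈ D, (((E.filter (fun c => c + d ∈ S)).card : ℝ) ^ 2 -
      (E.filter (fun c => c + d ∈ S)).card) := by
  set G : ℝ := ∑ d ∈ D, ((E.filter (fun c => c + d ∈ S)).card : ℝ) with hG
  set Q : ℝ := ∑ d ∈ D, ((E.filter (fun c => c + d ∈ S)).card : ℝ) ^ 2 with hQ
  have hQ0 : 0 ≤ Q := sum_nonneg fun _ _ => by positivity
  have hGE : (E.card : ℝ) * w ≤ G := by
    rw [hG, x_double]
    calc (E.card : ℝ) * w = ∑ c ∈ E, w := by rw [sum_const, nsmul_eq_mul]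
      _ ≤ _ := sum_le_sum hc
  have hCS : G ^ 2 ≤ (D.card : ℝ) * Q := by
    rw [hG, hQ]
    exact sq_sum_le_card_mul_sum_sq
  have hCS' : G ^ 2 ≤ (2178 * w ^ 2) * Q := hCS.trans (mul_le_mul_of_nonneg_right hD hQ0)
  rw [sum_sub_distrib, ← hG, ← hQ]
  have hD0 : 0 < 2178 * w ^ 2 := by positivity
  have hQ1 : G ^ 2 / (2178 * w ^ 2) ≤ Q := by
    rw [div_le_iff₀ hD0]
    linarith
  have hG2 : 2 * (2178 * w ^ 2) ≤ G := by
    have : 4356 * w * w ≤ (E.card : ℝ) * w := mul_le_mul_of_nonneg_right hE hw.le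
    nlinarith
  have hG0 : 0 < G := by linarith
  have h3 : G ≤ G ^ 2 / (2 * (2178 * w ^ 2)) := by
    rw [le_div_iff₀ (by positivity)]
    nlinarith
  have h4 : ((E.card : ℝ) * w) ^ 2 ≤ G ^ 2 := by
    apply pow_le_pow_left₀ (by positivity) hGE
  have h5 : (E.card : ℝ) ^ 2 / 4356 = ((E.card : ℝ) * w) ^ 2 / (2 * (2178 * w ^ 2)) := by
    field_simp
    ring
  have h6 : ((E.card : ℝ) * w) ^ 2 / (2 * (2178 * w ^ 2)) ≤ G ^ 2 / (2 * (2178 * w ^ 2)) :=
    div_le_div_of_nonneg_right h4 (by positivity)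
  have h7 : G ^ 2 / (2178 * w ^ 2) = 2 * (G ^ 2 / (2 * (2178 * w ^ 2))) := by
    field_simp
  rw [h5]
  linarith

theorem exc_bound (n v0 K : ℕ) (S : Finset ℤ) (δ m : ℝ) (hn : 4 ≤ n)
    (hS : S ⊆ Icc 1 ((n ^ 2 : ℕ) : ℤ)) (hSid : Sid S)
    (hlow : (1 - δ) * n ≤ (S.card : ℝ)) (hδ0 : 0 ≤ δ) (hδ1 : δ ≤ 1) (hv : δ * (n : ℝ) ^ 2 ≤ v0)
    (hbig : 2 * (n : ℝ) ^ 3 ≤ (v0 : ℝ) ^ 2) (hK : 4700 ≤ K)
    (hsmall : 16 * 2 ^ K * v0 ≤ n ^ 2) (hm : m ≤ v0 / (2 * n)) :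
    ((Ex (n ^ 2) S m).card : ℝ) ≤ 2400 * 2 ^ K * v0 / n := by
  have hn0 : (0 : ℝ) < n := by exact_mod_cast (by omega : 0 < n)
  have hv0 : 0 < v0 := by
    rcases Nat.eq_zero_or_pos v0 with h | h
    · exfalso
      rw [h] at hbig
      have : (0 : ℝ) < 2 * (n : ℝ) ^ 3 := by positivity
      norm_num at hbig
      linarith
    · exact h
  have hv0' : (0 : ℝ) < v0 := by exact_mod_cast hv0
  by_contra hcon
  push Not at hcon
  set E := Ex (n ^ 2) S m with hE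
  have hEpos : (0 : ℝ) < E.card := lt_of_le_of_lt (by positivity) hcon
  -- scales
  have hscale : ∀ j ∈ range K, (E.card : ℝ) ^ 2 / 4356 ≤
      ∑ d ∈ x_D S (8 * (2 ^ j * v0)), (((E.filter (fun c => c + d ∈ S)).card : ℝ) ^ 2 -
      (E.filter (fun c => c + d ∈ S)).card) := by
    intro j hj
    rw [mem_range] at hj
    obtain ⟨K', rfl⟩ : ∃ K', K = K' + 1 := ⟨K - 1, by omega⟩
    have hjK : 2 ^ j ≤ 2 ^ K' := Nat.pow_le_pow_right (by norm_num) (by omega)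
    have h1j : 1 ≤ 2 ^ j := Nat.one_le_two_pow
    have hvj : v0 ≤ 2 ^ j * v0 := Nat.le_mul_of_pos_left _ (by positivity)
    have hvj' : (v0 : ℝ) ≤ ((2 ^ j * v0 : ℕ) : ℝ) := by exact_mod_cast hvj
    have hδv : δ * (n : ℝ) ^ 2 ≤ ((2 ^ j * v0 : ℕ) : ℝ) := hv.trans hvj'
    have hbig' : 2 * (n : ℝ) ^ 3 ≤ ((2 ^ j * v0 : ℕ) : ℝ) ^ 2 :=
      hbig.trans (pow_le_pow_left₀ hv0'.le hvj' 2)
    have hsm : 32 * (2 ^ j * v0) ≤ n ^ 2 := by
      calc 32 * (2 ^ j * v0) ≤ 32 * (2 ^ K' * v0) := by gcongr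
        _ = 16 * 2 ^ (K' + 1) * v0 := by ring
        _ ≤ n ^ 2 := hsmall
    apply x_scale E S (x_D S (8 * (2 ^ j * v0))) (((2 ^ j * v0 : ℕ) : ℝ) / n)
    · exact div_pos (lt_of_lt_of_le hv0' hvj') hn0
    · exact x_cardD n (2 ^ j * v0) S δ hn hS hSid hlow hδ0 hδ1 hδv hbig'
    · intro c hc
      exact x_count n (2 ^ j * v0) v0 S δ m hn hS hSid hlow hδ0 hδ1 hδv hbig' hvj hsm hm c hc
    · refine le_trans ?_ hcon.le
      rw [← mul_div_assoc]
      apply div_le_div_of_nonneg_right _ hn0.le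
      have h2 : ((2 ^ j * v0 : ℕ) : ℝ) ≤ 2 ^ K' * v0 := by
        push_cast
        apply mul_le_mul_of_nonneg_right _ hv0'.le
        exact_mod_cast hjK
      have h3 : (0 : ℝ) ≤ 2 ^ K' * v0 := by positivity
      have h4 : (2400 : ℝ) * 2 ^ (K' + 1) * v0 = 4800 * (2 ^ K' * v0) := by rw [pow_succ]; ring
      rw [h4]
      linarith
  -- disjointness of the scales
  have hdisj : ∀ i ∈ range K, ∀ j ∈ range K, i ≠ j →
      Disjoint (x_D S (8 * (2 ^ i * v0))) (x_D S (8 * (2 ^ j * v0))) := by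
    have key : ∀ i j : ℕ, i < j →
        Disjoint (x_D S (8 * (2 ^ i * v0))) (x_D S (8 * (2 ^ j * v0))) := by
      intro i j hij
      rw [disjoint_left]
      intro d hd1 hd2
      unfold x_D at hd1 hd2
      rw [mem_filter, mem_Icc] at hd1 hd2
      have h1 : 2 ^ (i + 1) * v0 ≤ 2 ^ j * v0 :=
        Nat.mul_le_mul_right _ (Nat.pow_le_pow_right (by norm_num) (by omega))
      rw [pow_succ] at h1
      have h2 := hd1.1
      have h3 := hd2.2.1
      have h4 : d.natAbs ≤ 2 * (8 * (2 ^ i * v0)) := by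
        have h5 := h2.1
        have h6 := h2.2
        generalize 8 * (2 ^ i * v0) = z at h5 h6 ⊢
        omega
      have h7 : 2 * (8 * (2 ^ i * v0)) ≤ 8 * (2 ^ j * v0) := by
        calc 2 * (8 * (2 ^ i * v0)) = 8 * (2 ^ i * 2 * v0) := by ring
          _ ≤ _ := Nat.mul_le_mul_left _ h1
      omega
    intro i _ j _ hij
    rcases lt_or_gt_of_ne hij with h | h
    · exact key i j h
    · exact (key j i h).symm
  have htot := x_pairs E S ((range K).biUnion (fun j => x_D S (8 * (2 ^ j * v0)))) hSid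
  rw [sum_biUnion (fun i hi j hj hij => hdisj i hi j hj hij)] at htot
  have hsum : (K : ℝ) * ((E.card : ℝ) ^ 2 / 4356) ≤ (E.card : ℝ) ^ 2 := by
    calc (K : ℝ) * ((E.card : ℝ) ^ 2 / 4356) = ∑ j ∈ range K, (E.card : ℝ) ^ 2 / 4356 := by
          rw [sum_const, card_range, nsmul_eq_mul]
      _ ≤ _ := sum_le_sum hscale
      _ ≤ _ := htot
  have hKr : (4700 : ℝ) ≤ K := by exact_mod_cast hK
  have hE2 : 0 < (E.card : ℝ) ^ 2 := by positivity
  nlinarith

end Pool.Agent.Be54
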