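import Pool.Agent.Be54.W
import Pool.Agent.Be54.X
import Pool.Agent.Be54.D
import Pool.Agent.Be54.U
import Pool.Agent.Be54.G
import Pool.Agent.Be54.A
import Pool.Agent.Be54.H

set_option autoImplicit false

namespace Pool.Agent.Be54

open Finset

/-- the numerical contradiction -/
lemma contra_real (n δ y q : ℝ) (hδ0 : 0 < δ) (hδ1 : δ ≤ 1 / 100) (hn0 : 0 < n)
    (hn : 33000 ≤ n * δ ^ 2)
    (hy : (1 + δ / 16) * n ≤ y) (hq : q ≤ 3 * δ ^ 2 * n ^ 2 / 8192)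
    (hw : y ^ 2 * (δ * n ^ 2 / 32) ≤ (n ^ 2 + δ * n ^ 2 / 32) * (y + δ * n ^ 2 / 32 + q)) : False := by
  have hn2 : 0 < n ^ 2 := by positivity
  have h1 : y ^ 2 * δ ≤ (1 + δ / 32) * (32 * y + δ * n ^ 2 + 3 * δ ^ 2 * n ^ 2 / 256) := by
    have h2 : (n ^ 2 + δ * n ^ 2 / 32) * (y + δ * n ^ 2 / 32 + q) ≤
        (n ^ 2 + δ * n ^ 2 / 32) * (y + δ * n ^ 2 / 32 + 3 * δ ^ 2 * n ^ 2 / 8192) := by
      apply mul_le_mul_of_nonneg_left _ (by positivity)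
      linarith
    have h3 : n ^ 2 * (y ^ 2 * δ) ≤
        n ^ 2 * ((1 + δ / 32) * (32 * y + δ * n ^ 2 + 3 * δ ^ 2 * n ^ 2 / 256)) := by
      nlinarith [h2, hw]
    exact le_of_mul_le_mul_left h3 hn2
  have hny : n ≤ y := by nlinarith
  have hy0 : 0 < y := by linarith
  -- 32 y ≤ δ^2 y^2 / 1000
  have h4 : 33000 * y ≤ δ ^ 2 * y ^ 2 := by
    have : 33000 * y ≤ (n * δ ^ 2) * y := mul_le_mul_of_nonneg_right hn hy0.le
    have h5 : (n * δ ^ 2) * y ≤ (y * δ ^ 2) * y := by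
      apply mul_le_mul_of_nonneg_right _ hy0.le
      apply mul_le_mul_of_nonneg_right hny (by positivity)
    nlinarith
  have h6 : (1 + δ / 16) ^ 2 * n ^ 2 ≤ y ^ 2 := by
    have : ((1 + δ / 16) * n) ^ 2 ≤ y ^ 2 := pow_le_pow_left₀ (by positivity) hy 2
    nlinarith
  have h7 : y ^ 2 * δ ≤ (1 + δ / 32) * (δ ^ 2 * y ^ 2 / 1000 + δ * n ^ 2 + 3 * δ ^ 2 * n ^ 2 / 256) := by
    refine h1.trans ?_
    apply mul_le_mul_of_nonneg_left _ (by positivity)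
    linarith
  have h8 : y ^ 2 ≤ (1 + δ / 32) * (δ * y ^ 2 / 1000 + n ^ 2 + 3 * δ * n ^ 2 / 256) := by
    have : δ * y ^ 2 ≤ δ * ((1 + δ / 32) * (δ * y ^ 2 / 1000 + n ^ 2 + 3 * δ * n ^ 2 / 256)) := by
      nlinarith
    exact le_of_mul_le_mul_left this hδ0
  have h9 : y ^ 2 * (1 - δ / 900) ≤ (1 + δ / 32) * (1 + 3 * δ / 256) * n ^ 2 := by
    have : (1 + δ / 32) * (δ * y ^ 2 / 1000) ≤ y ^ 2 * (δ / 900) := by
      have hyy : 0 ≤ δ * y ^ 2 := by positivity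
      nlinarith
    nlinarith
  have h10 : (1 + δ / 16) ^ 2 * n ^ 2 * (1 - δ / 900) ≤ (1 + δ / 32) * (1 + 3 * δ / 256) * n ^ 2 := by
    refine le_trans ?_ h9
    apply mul_le_mul_of_nonneg_right h6
    linarith
  have h11 : (1 + δ / 16) ^ 2 * (1 - δ / 900) ≤ (1 + δ / 32) * (1 + 3 * δ / 256) := by
    have : n ^ 2 * ((1 + δ / 16) ^ 2 * (1 - δ / 900)) ≤ n ^ 2 * ((1 + δ / 32) * (1 + 3 * δ / 256)) := by
      nlinarith
    exact le_of_mul_le_mul_left this hn2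
  nlinarith [mul_pos hδ0 hδ0, mul_pos (mul_pos hδ0 hδ0) hδ0]

/-- the exceptional set bound with an opaque constant -/
lemma exc_opaque : ∃ C : ℕ, 1 ≤ C ∧ ∀ (n v0 : ℕ) (S : Finset ℤ) (δ m : ℝ), 4 ≤ n →
    S ⊆ Icc 1 ((n ^ 2 : ℕ) : ℤ) → Sid S →
    (1 - δ) * n ≤ (S.card : ℝ) → 0 ≤ δ → δ ≤ 1 → δ * (n : ℝ) ^ 2 ≤ v0 →
    2 * (n : ℝ) ^ 3 ≤ (v0 : ℝ) ^ 2 → C * v0 ≤ n ^ 2 → m ≤ v0 / (2 * n) →
    ((Ex (n ^ 2) S m).card : ℝ) ≤ C * v0 / n := by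
  obtain ⟨K, hK⟩ : ∃ K : ℕ, K = 4700 := ⟨_, rfl⟩
  refine ⟨2400 * 2 ^ K, ?_, ?_⟩
  · have : 1 ≤ 2 ^ K := Nat.one_le_two_pow
    omega
  · intro n v0 S δ m hn hS hSid hlow hδ0 hδ1 hv hbig hsmall hm
    have h := exc_bound n v0 K S δ m hn hS hSid hlow hδ0 hδ1 hv hbig hK.ge (by nlinarith) hm
    push_cast
    exact h

/-- many light points -/
lemma light_card (P E : Finset ℤ) (n δ ε : ℝ) (hn : 0 < n) (hε : 0 < ε) (hP : Sid P)
    (hE : (E.card : ℝ) ≤ ε * n) (hlow : (1 - δ) * n ≤ (P.card : ℝ)) :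
    (15 / 16 - δ) * n ≤ ((light P E (64 * ε ^ 2 * n)).card : ℝ) := by
  set b : ℝ := 64 * ε ^ 2 * n with hb
  have hbpos : 0 < b := by positivity
  have h1 : ((∑ h ∈ P, ff P E h : ℕ) : ℝ) ≤ 4 * (ε * n) ^ 2 := by
    have := sum_ff P E hP
    have h2 : ((∑ h ∈ P, ff P E h : ℕ) : ℝ) ≤ ((4 * E.card ^ 2 : ℕ) : ℝ) := by exact_mod_cast this
    refine h2.trans ?_
    push_cast
    have : (E.card : ℝ) ^ 2 ≤ (ε * n) ^ 2 := pow_le_pow_left₀ (by positivity) hE 2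
    linarith
  have h3 : P.card = (light P E b).card + (P.filter (fun y => ¬ (ff P E y : ℝ) ≤ b)).card := by
    rw [light, Finset.card_filter_add_card_filter_not]
  have h4 : ((P.filter (fun y => ¬ (ff P E y : ℝ) ≤ b)).card : ℝ) * b ≤ 4 * (ε * n) ^ 2 := by
    refine le_trans ?_ h1
    rw [← nsmul_eq_mul]
    push_cast
    calc ((P.filter (fun y => ¬ (ff P E y : ℝ) ≤ b)).card) • b
        ≤ ∑ y ∈ P.filter (fun y => ¬ (ff P E y : ℝ) ≤ b), (ff P E y : ℝ) := by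
          apply Finset.card_nsmul_le_sum
          intro y hy
          rw [Finset.mem_filter] at hy
          exact (not_le.1 hy.2).le
      _ ≤ ∑ y ∈ P, (ff P E y : ℝ) := by
          apply Finset.sum_le_sum_of_subset_of_nonneg (Finset.filter_subset _ _)
          intros; positivity
  have h5 : ((P.filter (fun y => ¬ (ff P E y : ℝ) ≤ b)).card : ℝ) ≤ n / 16 := by
    have h6 : ((P.filter (fun y => ¬ (ff P E y : ℝ) ≤ b)).card : ℝ) * b ≤ (n / 16) * b := by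
      refine h4.trans (le_of_eq ?_)
      rw [hb]; ring
    exact le_of_mul_le_mul_right h6 hbpos
  have h7 : (P.card : ℝ) = ((light P E b).card : ℝ) +
      ((P.filter (fun y => ¬ (ff P E y : ℝ) ≤ b)).card : ℝ) := by exact_mod_cast h3
  nlinarith

lemma q_num (D em sf sv q : ℝ) (hD : 0 ≤ D) (h1 : em ≤ D * (1 / (2 * 10 ^ 5)))
    (h2 : sf ≤ D * (9 / (2 * 10 ^ 10))) (h3 : sv ≤ D * (7 / (8 * 10 ^ 5)))
    (hq : q ≤ 4 * (3 * em + sf + sv)) : q ≤ 3 * D / 8192 := by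
  have : q ≤ 4 * (3 * (D * (1 / (2 * 10 ^ 5))) + D * (9 / (2 * 10 ^ 10)) + D * (7 / (8 * 10 ^ 5))) := by
    linarith
  nlinarith

/-- the deterministic contradiction -/
lemma no_big (n' R C : ℕ) (δ m : ℝ) (hn' : 0 < n') (hC : 1 ≤ C) (hR5 : (R : ℝ) = 10 ^ 5 * C)
    (hδ : δ = 1 / (2 * (R : ℝ) ^ 2))
    (n : ℕ) (hn : n = 8 * R * n') (hbig : 33000 ≤ (n : ℝ) * δ ^ 2)
    (hm : m = δ * n / (2 * R))
    (P E H S L : Finset ℤ) (hP : Sid P) (hPlow : (1 - δ) * n ≤ (P.card : ℝ))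
    (hPN : P ⊆ Icc 1 ((n ^ 2 : ℕ) : ℤ)) (hPE : Disjoint P E) (hEm : ∀ z ∈ E, (qf P z : ℝ) ≤ m)
    (hE : (E.card : ℝ) ≤ (C * δ) * n)
    (hS : S ⊆ Icc 1 ((n ^ 2 : ℕ) : ℤ)) (hSS : Sid S) (hSP : S ⊆ P ∪ E)
    (hSH : Disjoint H S) (hL : L = light P E (64 * (C * δ) ^ 2 * n))
    (h1 : 15 / 16 * δ * (L.card : ℝ) < ((H ∩ L).card : ℝ))
    (h2 : ∑ y ∈ H ∩ L, (ff P E y : ℝ) < 9 * δ * (C * δ) ^ 2 * (n : ℝ) ^ 2)
    (h3 : ∑ y ∈ H ∩ P, (vv E (n' ^ 2) y : ℝ) < 7 * δ * (C * δ) * (1 / (8 * R)) * (n : ℝ) ^ 2) :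
    (S.card : ℝ) < (1 - 3 / 4 * δ) * n := by
  by_contra hcon
  push Not at hcon
  have hCr : (1 : ℝ) ≤ C := by exact_mod_cast hC
  have hRge : (10 ^ 5 : ℝ) ≤ R := by rw [hR5]; linarith
  have hRr : (0 : ℝ) < R := by linarith
  have hδ0 : 0 < δ := by rw [hδ]; positivity
  have hδ1 : δ ≤ 1 / 100 := by
    rw [hδ]
    apply one_div_le_one_div_of_le (by norm_num)
    nlinarith
  have hRpos : 0 < R := by exact_mod_cast hRr
  have hnpos : 0 < n := by rw [hn]; positivity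
  have hnr : (0 : ℝ) < n := by exact_mod_cast hnpos
  have hnn : (n : ℝ) = 8 * R * n' := by rw [hn]; push_cast; ring
  have hu : ((n' ^ 2 : ℕ) : ℝ) = δ * (n : ℝ) ^ 2 / 32 := by
    rw [hnn, hδ]; push_cast; field_simp; ring
  -- the set Y
  obtain ⟨Hs, hHs⟩ : ∃ Hs, Hs = H ∩ L := ⟨_, rfl⟩
  have hLP : L ⊆ P := by rw [hL, light]; exact Finset.filter_subset _ _
  have hHsP : Hs ⊆ P := by rw [hHs]; exact (Finset.inter_subset_right).trans hLP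
  have hHsS : Disjoint Hs S := by
    rw [hHs]; exact Finset.disjoint_of_subset_left Finset.inter_subset_left hSH
  have hQ := quad_bound P E S Hs (n' ^ 2) m hP hSS hPE hSP hHsP hHsS hEm
  have hYN : S ∪ Hs ⊆ Icc 1 ((n ^ 2 : ℕ) : ℤ) := Finset.union_subset hS (hHsP.trans hPN)
  have hW := window_Q (n ^ 2) (n' ^ 2) (S ∪ Hs) hYN (by positivity)
  have hYcard : ((S ∪ Hs).card : ℝ) = S.card + Hs.card := by
    rw [Finset.card_union_of_disjoint hHsS.symm]; push_cast; ring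
  have hLc := light_card P E n δ (C * δ) hnr (by positivity) hP hE hPlow
  rw [← hL] at hLc
  have hvv : ∑ h ∈ Hs, (vv E (n' ^ 2) h : ℝ) ≤ ∑ y ∈ H ∩ P, (vv E (n' ^ 2) y : ℝ) := by
    rw [hHs]
    apply Finset.sum_le_sum_of_subset_of_nonneg
    · exact Finset.inter_subset_inter_left hLP
    · intros; positivity
  rw [← hHs] at h1 h2
  generalize (∑ h ∈ Hs, (vv E (n' ^ 2) h : ℝ)) = sv at hQ hvv
  generalize (∑ y ∈ H ∩ P, (vv E (n' ^ 2) y : ℝ)) = sv' at h3 hvv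
  generalize (∑ y ∈ Hs, (ff P E y : ℝ)) = sf at hQ h2
  generalize (S ∪ Hs).card = yc at hQ hW hYcard
  generalize (Qd (S ∪ Hs) (n' ^ 2)).card = qc at hQ hW
  have hy : (1 + δ / 16) * n ≤ (yc : ℝ) := by
    rw [hYcard]
    have : 15 / 16 * δ * ((15 / 16 - δ) * n) ≤ 15 / 16 * δ * (L.card : ℝ) := by
      apply mul_le_mul_of_nonneg_left hLc (by positivity)
    have h4 : (1 + δ / 16) * n ≤ (1 - 3 / 4 * δ) * n + 15 / 16 * δ * ((15 / 16 - δ) * n) := by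
      have : 0 ≤ δ * n := by positivity
      nlinarith
    linarith
  have hq : (qc : ℝ) ≤ 3 * (δ ^ 2 * (n : ℝ) ^ 2) / 8192 := by
    have hm0 : 0 ≤ m := by rw [hm]; positivity
    have e1 : (E.card : ℝ) * m ≤ ((C * δ) * n) * m := mul_le_mul_of_nonneg_right hE hm0
    have e2 : ((C * δ) * n) * m = δ ^ 2 * (n : ℝ) ^ 2 * (C / (2 * R)) := by
      rw [hm]; field_simp
    have e3 : (C : ℝ) / (2 * R) = 1 / (2 * 10 ^ 5) := by rw [hR5]; field_simp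
    have e4 : 9 * δ * (C * δ) ^ 2 * (n : ℝ) ^ 2 = δ ^ 2 * (n : ℝ) ^ 2 * (9 / (2 * 10 ^ 10)) := by
      have : δ * (C : ℝ) ^ 2 = 1 / (2 * 10 ^ 10) := by rw [hδ, hR5]; field_simp
      calc 9 * δ * (C * δ) ^ 2 * (n : ℝ) ^ 2 = δ ^ 2 * (n : ℝ) ^ 2 * 9 * (δ * (C : ℝ) ^ 2) := by ring
        _ = _ := by rw [this]; ring
    have e5 : 7 * δ * (C * δ) * (1 / (8 * R)) * (n : ℝ) ^ 2 = δ ^ 2 * (n : ℝ) ^ 2 * (7 / (8 * 10 ^ 5)) := by
      rw [hR5]; field_simp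
    have hpos : 0 ≤ δ ^ 2 * (n : ℝ) ^ 2 := by positivity
    rw [e4] at h2
    rw [e5] at h3
    rw [e2, e3] at e1
    exact q_num _ _ _ _ _ hpos e1 h2.le (hvv.trans h3.le) hQ
  have hW' : (yc : ℝ) ^ 2 * (δ * (n : ℝ) ^ 2 / 32) ≤
      ((n : ℝ) ^ 2 + δ * (n : ℝ) ^ 2 / 32) * ((yc : ℝ) + δ * (n : ℝ) ^ 2 / 32 + (qc : ℝ)) := by
    have h5 := (Nat.cast_le (α := ℝ)).2 hW
    rw [← hu]
    push_cast at h5 ⊢
    exact h5
  refine contra_real n δ _ _ hδ0 hδ1 hnr hbig hy (hq.trans (le_of_eq (by ring))) hW'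

set_option maxHeartbeats 4000000 in
/-- for a fixed constant `C` and arbitrarily large `n` the random construction works -/
lemma main_one (C : ℕ) (hC : 1 ≤ C)
    (hexc : ∀ (n v0 : ℕ) (S : Finset ℤ) (δ m : ℝ), 4 ≤ n →
      S ⊆ Icc 1 ((n ^ 2 : ℕ) : ℤ) → Sid S →
      (1 - δ) * n ≤ (S.card : ℝ) → 0 ≤ δ → δ ≤ 1 → δ * (n : ℝ) ^ 2 ≤ v0 →
      2 * (n : ℝ) ^ 3 ≤ (v0 : ℝ) ^ 2 → C * v0 ≤ n ^ 2 → m ≤ v0 / (2 * n) →
      ((Ex (n ^ 2) S m).card : ℝ) ≤ C * v0 / n)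
    (R : ℕ) (δ : ℝ) (hR : R = 10 ^ 5 * C) (hδ : δ = 1 / (2 * (R : ℝ) ^ 2)) (M : ℕ) :
    ∃ n : ℕ, M ≤ n ∧ ∃ A : Finset ℤ, (1 - 17 / 16 * δ) * (n : ℝ) ^ 2 ≤ A.card ∧
      ∀ S ⊆ A, Sid S → (S.card : ℝ) < (1 - 3 / 4 * δ) * n := by
  have hCr : (1 : ℝ) ≤ C := by exact_mod_cast hC
  have hR5 : (R : ℝ) = 10 ^ 5 * C := by rw [hR]; push_cast; ring
  have hRge : (10 ^ 5 : ℝ) ≤ R := by rw [hR5]; linarith
  have hRr : (0 : ℝ) < R := by linarith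
  have hRpos : 0 < R := by exact_mod_cast hRr
  have hR1 : 1 ≤ R := hRpos
  have hCR : C ≤ R := by rw [hR]; omega
  clear hR
  have hδ0 : 0 < δ := by rw [hδ]; positivity
  have hδ1 : δ ≤ 1 / 100 := by
    rw [hδ]
    apply one_div_le_one_div_of_le (by norm_num)
    nlinarith
  obtain ⟨w0, hw0⟩ := asym (δ / (8 * R)) (δ / (24 * R)) (by positivity) (by positivity)
  -- the parameters
  obtain ⟨j, hj⟩ : ∃ j : ℕ, j = max w0 (max M 1) := ⟨_, rfl⟩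
  have hj1 : 1 ≤ j := by omega
  have hjM : M ≤ j := by omega
  have hjw : w0 ≤ j := by omega
  clear hj
  obtain ⟨w, hw⟩ : ∃ w : ℕ, w = 8 * R * j := ⟨_, rfl⟩
  obtain ⟨n', hn'⟩ : ∃ n' : ℕ, n' = (8 * R) ^ 5 * j ^ 6 := ⟨_, rfl⟩
  obtain ⟨n, hnw⟩ : ∃ n : ℕ, n = w ^ 6 := ⟨_, rfl⟩
  have hn : n = 8 * R * n' := by rw [hnw, hw, hn']; ring
  have hjw' : j ≤ w := by rw [hw]; nlinarith
  have hw1 : 1 ≤ w := hj1.trans hjw'
  have hwn : w ≤ n := by rw [hnw]; exact Nat.le_self_pow (by norm_num) w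
  have hn'pos : 0 < n' := by rw [hn']; positivity
  have hnpos : 0 < n := by omega
  have hwr : (0 : ℝ) < w := by exact_mod_cast hw1
  have hnr : (0 : ℝ) < n := by exact_mod_cast hnpos
  have hn'r : (0 : ℝ) < n' := by exact_mod_cast hn'pos
  have hnn : (n : ℝ) = 8 * R * n' := by rw [hn]; push_cast; ring
  have hnwr : (n : ℝ) = (w : ℝ) ^ 6 := by rw [hnw]; push_cast; ring
  have hN12 : n ^ 2 = w ^ 12 := by rw [hnw]; ring
  obtain ⟨hA1, hA2⟩ := hw0 w (hjw.trans hjw')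
  -- n' ≥ R^3
  have hn'R : R ^ 3 ≤ n' := by
    rw [hn']
    calc R ^ 3 ≤ (8 * R) ^ 3 := Nat.pow_le_pow_left (by omega) 3
      _ ≤ (8 * R) ^ 5 := Nat.pow_le_pow_right (by omega) (by norm_num)
      _ = (8 * R) ^ 5 * 1 := by ring
      _ ≤ (8 * R) ^ 5 * j ^ 6 := Nat.mul_le_mul_left _ (Nat.one_le_pow _ _ hj1)
  have hn'Rr : (R : ℝ) ^ 3 ≤ n' := by exact_mod_cast hn'R
  have hbig : 33000 ≤ (n : ℝ) * δ ^ 2 := by
    -- n = 8 R n' ≥ (8R)^6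
    have h1 : ((8 : ℝ) * R) ^ 5 ≤ n' := by
      have : (8 * R) ^ 5 ≤ n' := by
        rw [hn']
        calc (8 * R) ^ 5 = (8 * R) ^ 5 * 1 := by ring
          _ ≤ (8 * R) ^ 5 * j ^ 6 := Nat.mul_le_mul_left _ (Nat.one_le_pow _ _ hj1)
      exact_mod_cast this
    have h2 : ((8 : ℝ) * R) ^ 6 ≤ n := by
      rw [hnn]
      calc ((8 : ℝ) * R) ^ 6 = 8 * (R : ℝ) * ((8 : ℝ) * R) ^ 5 := by ring
        _ ≤ 8 * (R : ℝ) * n' := mul_le_mul_of_nonneg_left h1 (by positivity)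
    have h3 : ((8 : ℝ) * R) ^ 6 * δ ^ 2 ≤ n * δ ^ 2 := mul_le_mul_of_nonneg_right h2 (by positivity)
    have h4 : ((8 : ℝ) * R) ^ 6 * δ ^ 2 = 65536 * (R : ℝ) ^ 2 := by
      rw [hδ]; field_simp; norm_num
    have h5 : (1 : ℝ) ≤ (R : ℝ) ^ 2 := by nlinarith
    linarith
  have hn4 : 4 ≤ n := by
    rw [hn]; nlinarith
  obtain ⟨m, hm⟩ : ∃ m : ℝ, m = δ * n / (2 * R) := ⟨_, rfl⟩
  have hm0 : 0 ≤ m := by rw [hm]; positivity
  obtain ⟨v0, hv0⟩ : ∃ v0 : ℕ, v0 = 32 * n' ^ 2 := ⟨_, rfl⟩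
  have hv0r : (v0 : ℝ) = δ * (n : ℝ) ^ 2 := by
    rw [hnn, hδ, hv0]; push_cast; field_simp; ring
  have hEx : ∀ S ⊆ Icc 1 ((n ^ 2 : ℕ) : ℤ), Sid S → (1 - δ) * n ≤ (S.card : ℝ) →
      ((Ex (n ^ 2) S m).card : ℝ) ≤ (C * δ) * n := by
    intro S hS hSS hlow
    have h := hexc n v0 S δ m hn4 hS hSS hlow hδ0.le (by linarith) hv0r.ge ?_ ?_ ?_
    · refine h.trans (le_of_eq ?_)
      rw [hv0r]; field_simp
    · rw [hv0, hnn]; push_cast
      have : 1024 * (R : ℝ) ^ 3 * (n' : ℝ) ^ 3 ≤ 1024 * (n' : ℝ) * (n' : ℝ) ^ 3 := by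
        apply mul_le_mul_of_nonneg_right _ (by positivity)
        linarith
      nlinarith
    · rw [hv0, hn]
      have h1 : C * 32 ≤ 64 * R ^ 2 := by nlinarith
      calc C * (32 * n' ^ 2) = (C * 32) * n' ^ 2 := by ring
        _ ≤ (64 * R ^ 2) * n' ^ 2 := Nat.mul_le_mul_right _ h1
        _ = (8 * R * n') ^ 2 := by ring
    · rw [hm, hv0r]
      have h1 : δ * (n : ℝ) ^ 2 / (2 * n) = δ * n / 2 := by field_simp
      rw [h1]
      apply div_le_div_of_nonneg_left (by positivity) (by norm_num)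
      linarith
  -- containers
  have hcont := containers (n ^ 2) (4 * w ^ 5) ((1 - δ) * n) m (1 / w) (by positivity) (by positivity)
    (by rw [div_le_one hwr]; exact_mod_cast hw1) hm0
    (by
      intro S hS hSS
      have h1 := sid_card_le n hn4 S hS hSS
      have h2 : (S.card : ℝ) ≤ 2 * (w : ℝ) ^ 6 := by
        rw [← hnwr]; exact_mod_cast h1
      push_cast
      calc 2 * (1 / (w : ℝ)) * (S.card : ℝ) ≤ 2 * (1 / (w : ℝ)) * (2 * (w : ℝ) ^ 6) := by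
            apply mul_le_mul_of_nonneg_left h2 (by positivity)
        _ = 4 * (w : ℝ) ^ 5 := by field_simp; ring)
    (by
      rw [hN12]
      have h1 : (1 / (w : ℝ)) ^ 3 * m / 12 = δ / (24 * R) * (w : ℝ) ^ 3 := by
        rw [hm, hnwr]; field_simp; ring
      rw [h1]; exact hA1)
  obtain ⟨PP, hPPcard, hPP, hcov⟩ := hcont
  -- holes
  have hu2 : 2 ≤ n' ^ 2 := by
    have : 2 ≤ n' := by
      have h1 : 10 ^ 5 ≤ R := by exact_mod_cast hRge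
      have h2 : R ≤ R ^ 3 := Nat.le_self_pow (by norm_num) R
      omega
    nlinarith
  have hsR : (1 : ℝ) / (8 * R) ≤ 1 / 1024 := by
    apply one_div_le_one_div_of_le (by norm_num); linarith
  have hholes := holes (n ^ 2) (n' ^ 2) hu2 n δ (C * δ) (1 / (8 * R)) hδ0 (by linarith) hnr
    (by positivity) PP (fun P => Ex (n ^ 2) P m) (fun P hP => (hPP P hP).1)
    (fun P hP => (hPP P hP).2.1)
    (by
      intro P hP
      obtain ⟨h1, h2, h3⟩ := hPP P hP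
      have h4 := light_card P (Ex (n ^ 2) P m) n δ (C * δ) hnr (by positivity) h2 (hEx P h1 h2 h3) h3
      nlinarith)
    (fun P hP => hEx P (hPP P hP).1 (hPP P hP).2.1 (hPP P hP).2.2)
    (by
      push_cast
      rw [Real.sqrt_sq hn'r.le, hnn]
      apply le_of_eq; field_simp)
    (by positivity)
    (by
      refine lt_of_le_of_lt ?_ hA2
      have hcard : (PP.card : ℝ) ≤ (((w ^ 12 + 1) ^ (4 * w ^ 5) : ℕ) : ℝ) := by
        rw [← hN12]; exact_mod_cast hPPcard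
      have e1 : Real.exp (-(δ * ((n ^ 2 : ℕ) : ℝ) / 1024)) ≤ Real.exp (-(δ / (8 * R) * (w : ℝ) ^ 12)) := by
        apply Real.exp_le_exp.2
        have : ((n ^ 2 : ℕ) : ℝ) = (w : ℝ) ^ 12 := by rw [hN12]; push_cast; ring
        rw [this]
        have h1 : δ * (w : ℝ) ^ 12 * (1 / (8 * R)) ≤ δ * (w : ℝ) ^ 12 * (1 / 1024) := by
          apply mul_le_mul_of_nonneg_left hsR (by positivity)
        have h2 : δ / (8 * R) * (w : ℝ) ^ 12 = δ * (w : ℝ) ^ 12 * (1 / (8 * R)) := by ring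
        linarith
      have e2 : Real.exp (-(δ * n / 1024)) ≤ Real.exp (-(δ / (8 * R) * (w : ℝ) ^ 6)) := by
        apply Real.exp_le_exp.2
        rw [hnwr]
        have h1 : δ * (w : ℝ) ^ 6 * (1 / (8 * R)) ≤ δ * (w : ℝ) ^ 6 * (1 / 1024) := by
          apply mul_le_mul_of_nonneg_left hsR (by positivity)
        have h2 : δ / (8 * R) * (w : ℝ) ^ 6 = δ * (w : ℝ) ^ 6 * (1 / (8 * R)) := by ring
        linarith
      have e3 : Real.exp (-(δ * n / 64)) ≤ Real.exp (-(δ / (8 * R) * (w : ℝ) ^ 6)) := by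
        refine le_trans ?_ e2
        apply Real.exp_le_exp.2
        have : 0 ≤ δ * n := by positivity
        linarith
      have e4 : Real.exp (-(δ * (1 / (8 * R)) * n)) = Real.exp (-(δ / (8 * R) * (w : ℝ) ^ 6)) := by
        rw [hnwr]; congr 1; ring
      rw [e4]
      generalize Real.exp (-(δ / (8 * R) * (w : ℝ) ^ 6)) = x at e2 e3
      have hx : 0 ≤ x := by
        refine le_trans (Real.exp_pos _).le e2
      have e5 : (PP.card : ℝ) * (Real.exp (-(δ * n / 1024)) + Real.exp (-(δ * n / 64)) + x) ≤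
          (((w ^ 12 + 1) ^ (4 * w ^ 5) : ℕ) : ℝ) * (3 * x) := by
        apply mul_le_mul hcard (by linarith) (by positivity) (by positivity)
      linarith)
  obtain ⟨H, hHN, hHcard, hHP⟩ := hholes
  refine ⟨n, hjM.trans (hjw'.trans hwn), Icc 1 ((n ^ 2 : ℕ) : ℤ) \ H, ?_, ?_⟩
  · have h1 : (Icc (1 : ℤ) ((n ^ 2 : ℕ) : ℤ) \ H).card + H.card = n ^ 2 := by
      rw [Finset.card_sdiff_add_card_eq_card hHN, Int.card_Icc]
      have h0 : ((n ^ 2 : ℕ) : ℤ) + 1 - 1 = ((n ^ 2 : ℕ) : ℤ) := by ring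
      rw [h0, Int.toNat_natCast]
    have h2 : ((Icc (1 : ℤ) ((n ^ 2 : ℕ) : ℤ) \ H).card : ℝ) + (H.card : ℝ) = (n : ℝ) ^ 2 := by
      exact_mod_cast h1
    push_cast at hHcard
    linarith
  · intro S hSA hSS
    by_contra hcon
    push Not at hcon
    have hSN : S ⊆ Icc 1 ((n ^ 2 : ℕ) : ℤ) := hSA.trans Finset.sdiff_subset
    have hlow : (1 - δ) * n ≤ (S.card : ℝ) := by
      have : 0 ≤ δ * n := by positivity
      nlinarith
    obtain ⟨P, hP, hSP⟩ := hcov S hSN hSS hlow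
    obtain ⟨hP1, hP2, hP3⟩ := hPP P hP
    obtain ⟨g1, g2, g3⟩ := hHP P hP
    have hSH : Disjoint H S := by
      rw [Finset.disjoint_left]
      intro a ha hb
      exact (Finset.mem_sdiff.1 (hSA hb)).2 ha
    have := no_big n' R C δ m hn'pos hC hR5 hδ n hn hbig hm P (Ex (n ^ 2) P m) H S _ hP2 hP3 hP1
      (by
        rw [Finset.disjoint_left]
        intro a ha hb
        rw [Ex, Finset.mem_filter, Finset.mem_sdiff] at hb
        exact hb.1.2 ha)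
      (by
        intro z hz
        rw [Ex, Finset.mem_filter] at hz
        exact hz.2)
      (hEx P hP1 hP2 hP3) hSN hSS hSP hSH rfl g1 g2 g3
    linarith

/-- arbitrarily large sets without large Sidon subsets -/
theorem main_exists : ∃ δ : ℝ, 0 < δ ∧ δ ≤ 1 / 100 ∧ ∀ M : ℕ, ∃ n : ℕ, M ≤ n ∧
    ∃ A : Finset ℤ, (1 - 17 / 16 * δ) * (n : ℝ) ^ 2 ≤ A.card ∧
      ∀ S ⊆ A, Sid S → (S.card : ℝ) < (1 - 3 / 4 * δ) * n := by
  obtain ⟨C, hC, hexc⟩ := exc_opaque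
  obtain ⟨R, hR⟩ : ∃ R : ℕ, R = 10 ^ 5 * C := ⟨_, rfl⟩
  obtain ⟨δ, hδ⟩ : ∃ δ : ℝ, δ = 1 / (2 * (R : ℝ) ^ 2) := ⟨_, rfl⟩
  have hCr : (1 : ℝ) ≤ C := by exact_mod_cast hC
  have hR5 : (R : ℝ) = 10 ^ 5 * C := by rw [hR]; push_cast; ring
  have hRge : (10 ^ 5 : ℝ) ≤ R := by rw [hR5]; linarith
  refine ⟨δ, ?_, ?_, ?_⟩
  · rw [hδ]; positivity
  · rw [hδ]
    apply one_div_le_one_div_of_le (by norm_num)
    nlinarith
  · intro M
    exact main_one C hC hexc R δ hR hδ M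

end Pool.Agent.Be54
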