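import Pool.Agent.Be54.W

set_option autoImplicit false

/-!
Equidistribution of dense Sidon sets and the number of missing small differences.
-/

namespace Pool.Agent.Be54

open Finset

theorem q_sid_mono {X S : Finset ℤ} (h : X ⊆ S) (hS : Sid S) : Sid X :=
  fun a ha b hb c hc d hd => hS a (h ha) b (h hb) c (h hc) d (h hd)

/-- the algebra behind `equidist` -/
theorem q_alg1 {x n v : ℝ} (hn : 0 < n) (hv : 0 < v) (h8 : 8 * v ≤ n ^ 2)
    (hx : x ^ 2 * v ≤ (n ^ 2 - 6 * v) * (2 * n + v)) : x ≤ n - 3 * (v / n) + n ^ 2 / v := by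
  have h1 : 0 ≤ 1 - 3 * v / n ^ 2 := by
    rw [sub_nonneg, div_le_one (by positivity)]
    linarith
  have h2 : 0 ≤ n * (1 - 3 * v / n ^ 2) * (1 + n / v) := by positivity
  have h3 : x ≤ n * (1 - 3 * v / n ^ 2) * (1 + n / v) := by
    apply le_of_sq_le_sq _ h2
    have h4 : x ^ 2 ≤ (n ^ 2 - 6 * v) * (1 + 2 * n / v) := by
      have e : (n ^ 2 - 6 * v) * (1 + 2 * n / v) = (n ^ 2 - 6 * v) * (2 * n + v) / v := by
        field_simp
        ring
      rw [e, le_div_iff₀ hv]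
      exact hx
    refine h4.trans ?_
    have e : (n * (1 - 3 * v / n ^ 2) * (1 + n / v)) ^ 2 =
        (n ^ 2 - 6 * v + 9 * v ^ 2 / n ^ 2) * (1 + 2 * n / v + (n / v) ^ 2) := by
      field_simp
      ring
    rw [e]
    have h5 : 0 ≤ n ^ 2 - 6 * v := by linarith
    have h6 : 0 ≤ 9 * v ^ 2 / n ^ 2 := by positivity
    have h7 : 0 ≤ 1 + 2 * n / v := by positivity
    have h8' : 0 ≤ (n / v) ^ 2 := by positivity
    exact mul_le_mul (by linarith) (by linarith) h7 (by linarith)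
  have e : n * (1 - 3 * v / n ^ 2) * (1 + n / v) = n - 3 * (v / n) + n ^ 2 / v - 3 := by
    field_simp
    ring
  rw [e] at h3
  linarith

theorem equidist (n v : ℕ) (S : Finset ℤ) (δ : ℝ) (hn : 4 ≤ n)
    (hS : S ⊆ Icc 1 ((n ^ 2 : ℕ) : ℤ)) (hSid : Sid S)
    (hlow : (1 - δ) * n ≤ (S.card : ℝ)) (hδ0 : 0 ≤ δ) (hδ1 : δ ≤ 1) (hδv : δ * (n : ℝ) ^ 2 ≤ v)
    (hbig : 2 * (n : ℝ) ^ 3 ≤ (v : ℝ) ^ 2) (p : ℤ) (hp : 0 ≤ p) (hp2 : p + 8 * v ≤ (n : ℤ) ^ 2) :
    (3 / 2 : ℝ) * (v / n) ≤ ((S.filter (fun b => p < b ∧ b ≤ p + 8 * v)).card : ℝ) := by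
  have hn0 : (0 : ℝ) < n := by
    have : (4 : ℝ) ≤ n := by exact_mod_cast hn
    linarith
  have hv0 : 0 < v := by
    rcases Nat.eq_zero_or_pos v with h | h
    · exfalso
      rw [h] at hbig
      have : (0 : ℝ) < 2 * (n : ℝ) ^ 3 := by positivity
      norm_num at hbig
      linarith
    · exact h
  have hv0' : (0 : ℝ) < v := by exact_mod_cast hv0
  set X := S.filter (fun b => ¬ (p < b ∧ b ≤ p + 8 * v)) with hX
  have hXS : X ⊆ S := Finset.filter_subset _ _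
  set V : Finset ℤ := Icc (1 - (v : ℤ)) (p - 1) ∪ Icc (p + 8 * v + 1 - v) ((n : ℤ) ^ 2 - 1) with hV
  have hmem : ∀ x ∈ X, ∀ y : ℤ, y < x → x ≤ y + v → y ∈ V := by
    intro x hx y hy1 hy2
    rw [hX, mem_filter] at hx
    have hx1 := mem_Icc.mp (hS hx.1)
    have hx2 := hx.2
    push_cast at hx1
    rw [hV, mem_union, mem_Icc, mem_Icc]
    by_cases h : x ≤ p
    · left
      constructor <;> omega
    · right
      have : p + 8 * v < x := by
        by_contra hcon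
        exact hx2 ⟨by omega, by omega⟩
      constructor <;> omega
  have hVcard : V.card + 6 * v ≤ n ^ 2 := by
    have h1 := Finset.card_union_le (Icc (1 - (v : ℤ)) (p - 1))
      (Icc (p + 8 * v + 1 - v) ((n : ℤ) ^ 2 - 1))
    rw [← hV, Int.card_Icc, Int.card_Icc] at h1
    have h2 : ((n ^ 2 : ℕ) : ℤ) = (n : ℤ) ^ 2 := by push_cast; ring
    omega
  have hw := window_gen X V v hmem
  have hs := sid_pair_sum X v (q_sid_mono hXS hSid)
  have hXc : X.card ≤ 2 * n := (Finset.card_le_card hXS).trans (sid_card_le n hn S hS hSid)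
  have h8v : 8 * (v : ℝ) ≤ (n : ℝ) ^ 2 := by
    have : (8 * v : ℤ) ≤ (n : ℤ) ^ 2 := by linarith
    exact_mod_cast this
  have key : (X.card : ℝ) ^ 2 * v ≤ ((n : ℝ) ^ 2 - 6 * v) * (2 * n + v) := by
    have h1 : (X.card * v) ^ 2 ≤ V.card * (v * X.card + v ^ 2) :=
      hw.trans (Nat.mul_le_mul_left _ (by omega))
    have h2 : ((X.card : ℝ) * v) ^ 2 ≤ (V.card : ℝ) * (v * X.card + v ^ 2) := by exact_mod_cast h1
    have h3 : (V.card : ℝ) ≤ (n : ℝ) ^ 2 - 6 * v := by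
      have : (V.card : ℝ) + 6 * v ≤ (n : ℝ) ^ 2 := by exact_mod_cast hVcard
      linarith
    have h4 : (X.card : ℝ) ≤ 2 * n := by exact_mod_cast hXc
    have h5 : ((X.card : ℝ) * v) ^ 2 ≤ ((n : ℝ) ^ 2 - 6 * v) * (v * (2 * n) + v ^ 2) := by
      refine h2.trans ?_
      apply mul_le_mul h3 _ (by positivity) (by linarith)
      nlinarith
    have h6 : ((X.card : ℝ) ^ 2 * v) * v ≤ (((n : ℝ) ^ 2 - 6 * v) * (2 * n + v)) * v := by
      nlinarith
    exact le_of_mul_le_mul_right h6 hv0'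
  have hx := q_alg1 hn0 hv0' h8v key
  have hsplit : ((S.filter (fun b => p < b ∧ b ≤ p + 8 * v)).card : ℝ) + X.card = S.card := by
    have := Finset.card_filter_add_card_filter_not (s := S) (fun b => p < b ∧ b ≤ p + 8 * v)
    exact_mod_cast this
  have h1 : δ * n ≤ v / n := by
    rw [le_div_iff₀ hn0]
    nlinarith
  have h2 : (n : ℝ) ^ 2 / v ≤ (v / n) / 2 := by
    rw [div_div, div_le_div_iff₀ hv0' (by positivity)]
    nlinarith
  nlinarith

theorem missing (n L : ℕ) (S : Finset ℤ) (δ : ℝ) (hn : 4 ≤ n) (hL : 1 ≤ L)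
    (hS : S ⊆ Icc 1 ((n ^ 2 : ℕ) : ℤ)) (hSid : Sid S)
    (hlow : (1 - δ) * n ≤ (S.card : ℝ)) (hδ0 : 0 ≤ δ) (hδ1 : δ ≤ 1) :
    (((Icc 1 L).filter (fun d : ℕ => (d : ℤ) ∉ Df S)).card : ℝ) ≤
      2 * n + 4 * (L : ℝ) ^ 2 / (n : ℝ) ^ 2 + 4 * δ * L := by
  have hn0 : (0 : ℝ) < n := by
    have : (4 : ℝ) ≤ n := by exact_mod_cast hn
    linarith
  have hL0 : (0 : ℝ) < L := by exact_mod_cast hL
  set M := ((Icc 1 L).filter (fun d : ℕ => (d : ℤ) ∉ Df S)).card with hM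
  set V : Finset ℤ := Icc (1 - ((2 * L : ℕ) : ℤ)) ((n : ℤ) ^ 2 - 1) with hV
  have hmem : ∀ x ∈ S, ∀ y : ℤ, y < x → x ≤ y + (2 * L : ℕ) → y ∈ V := by
    intro x hx y hy1 hy2
    have hx1 := mem_Icc.mp (hS hx)
    push_cast at hx1 hy2 ⊢
    rw [hV, mem_Icc]
    push_cast
    constructor <;> omega
  have hVcard : V.card ≤ n ^ 2 + 2 * L := by
    rw [hV, Int.card_Icc]
    have h2 : ((n ^ 2 : ℕ) : ℤ) = (n : ℤ) ^ 2 := by push_cast; ring
    omega
  have hw := window_gen S V (2 * L) hmem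
  have hs := sid_pair_sum S (2 * L) hSid
  have hmiss : L * M ≤ ∑ d ∈ (Ico 1 (2 * L)).filter (fun d : ℕ => (d : ℤ) ∉ Df S), (2 * L - d) := by
    have h1 : (Icc 1 L).filter (fun d : ℕ => (d : ℤ) ∉ Df S) ⊆
        (Ico 1 (2 * L)).filter (fun d : ℕ => (d : ℤ) ∉ Df S) := by
      apply Finset.filter_subset_filter
      intro d hd
      rw [mem_Icc] at hd
      rw [mem_Ico]
      omega
    calc L * M = ∑ _d ∈ (Icc 1 L).filter (fun d : ℕ => (d : ℤ) ∉ Df S), L := by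
          rw [Finset.sum_const, smul_eq_mul, hM, mul_comm]
      _ ≤ ∑ d ∈ (Icc 1 L).filter (fun d : ℕ => (d : ℤ) ∉ Df S), (2 * L - d) := by
          apply Finset.sum_le_sum
          intro d hd
          have := mem_Icc.mp (mem_filter.mp hd).1
          omega
      _ ≤ _ := Finset.sum_le_sum_of_subset h1
  set T := ∑ q ∈ S ×ˢ S, (2 * L - (q.1 - q.2).natAbs) with hT
  have hT2 : T + 2 * (L * M) ≤ 2 * L * S.card + (2 * L) ^ 2 := by omega
  have hcard : S.card ≤ 2 * n := sid_card_le n hn S hS hSid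
  have hTr : (T : ℝ) + 2 * (L * M) ≤ 2 * L * S.card + (2 * L) ^ 2 := by exact_mod_cast hT2
  have hwr : ((S.card : ℝ) * (2 * L)) ^ 2 ≤ (V.card : ℝ) * T := by exact_mod_cast hw
  have hVr : (V.card : ℝ) ≤ (n : ℝ) ^ 2 + 2 * L := by exact_mod_cast hVcard
  have hcr : (S.card : ℝ) ≤ 2 * n := by exact_mod_cast hcard
  have hT0 : (0 : ℝ) ≤ T := by positivity
  have hsq : (1 - 2 * δ) * (n : ℝ) ^ 2 ≤ (S.card : ℝ) ^ 2 := by
    have h1 : 0 ≤ (1 - δ) * (n : ℝ) := mul_nonneg (by linarith) hn0.le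
    have h2 : ((1 - δ) * (n : ℝ)) ^ 2 ≤ (S.card : ℝ) ^ 2 := pow_le_pow_left₀ h1 hlow 2
    nlinarith [mul_nonneg (sq_nonneg δ) (sq_nonneg (n : ℝ))]
  set x : ℝ := (S.card : ℝ) with hx
  set N : ℝ := (n : ℝ) ^ 2 with hN
  have hN0 : 0 < N := by positivity
  set l : ℝ := (L : ℝ) with hl
  set m : ℝ := (M : ℝ) with hm
  have h1 : (x * (2 * l)) ^ 2 ≤ (N + 2 * l) * (2 * l * x + (2 * l) ^ 2 - 2 * (l * m)) := by
    refine hwr.trans ?_
    exact mul_le_mul hVr (by linarith) hT0 (by positivity)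
  have h2 : x ^ 2 * (2 * l) ≤ (N + 2 * l) * (x + 2 * l - m) := by
    have h3 : (x ^ 2 * (2 * l)) * (2 * l) ≤ ((N + 2 * l) * (x + 2 * l - m)) * (2 * l) := by
      nlinarith
    exact le_of_mul_le_mul_right h3 (by positivity)
  have h3 : (1 - 2 * δ) * N * (2 * l) ≤ (N + 2 * l) * (x + 2 * l - m) :=
    (mul_le_mul_of_nonneg_right hsq (by positivity)).trans h2
  have h4 : m ≤ x + 4 * l ^ 2 / N + 4 * δ * l := by
    have h5 : 0 < N + 2 * l := by positivity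
    have h6 : (N + 2 * l) * m ≤ (N + 2 * l) * (x + 4 * l ^ 2 / N + 4 * δ * l) := by
      have e : (N + 2 * l) * (x + 4 * l ^ 2 / N + 4 * δ * l) =
          (N + 2 * l) * x + 4 * l ^ 2 + 8 * l ^ 3 / N + 4 * δ * l * N + 8 * δ * l ^ 2 := by
        field_simp
        ring
      rw [e]
      have h7 : 0 ≤ 8 * l ^ 3 / N := by positivity
      have h8 : 0 ≤ 8 * δ * l ^ 2 := by positivity
      nlinarith
    exact le_of_mul_le_mul_left h6 h5
  linarith

end Pool.Agent.Be54
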