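import Pool.Agent.Be54.Main

set_option autoImplicit false

namespace Pool.Agent.Be54

open Finset

/-- from an integer set to a real set, Sidon property in the sum form -/
lemma real_transfer_sum (A : Finset ℤ) (B : ℝ) (hA : ∀ S ⊆ A, Sid S → (S.card : ℝ) < B) :
    ∀ T ⊆ A.image (fun a : ℤ => (a : ℝ)),
      (∀ a ∈ T, ∀ b ∈ T, ∀ c ∈ T, ∀ d ∈ T,
            a + b = c + d → ((a = c ∧ b = d) ∨ (a = d ∧ b = c))) → (T.card : ℝ) < B := by
  intro T hT hSid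
  have hinj : Function.Injective (fun a : ℤ => (a : ℝ)) := Int.cast_injective
  obtain ⟨S, hS⟩ : ∃ S : Finset ℤ, S = A.filter (fun a : ℤ => (a : ℝ) ∈ T) := ⟨_, rfl⟩
  have hST : S.image (fun a : ℤ => (a : ℝ)) = T := by
    ext x
    simp only [Finset.mem_image, hS, Finset.mem_filter]
    constructor
    · rintro ⟨a, ⟨_, h⟩, rfl⟩; exact h
    · intro hx
      obtain ⟨a, ha, rfl⟩ := Finset.mem_image.1 (hT hx)
      exact ⟨a, ⟨ha, hx⟩, rfl⟩
  have hcard : T.card = S.card := by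
    rw [← hST, Finset.card_image_of_injective _ hinj]
  have hSA : S ⊆ A := by rw [hS]; exact Finset.filter_subset _ _
  have hmem : ∀ a ∈ S, (a : ℝ) ∈ T := by
    intro a ha
    rw [hS, Finset.mem_filter] at ha
    exact ha.2
  have hSS : Sid S := by
    intro a ha b hb c hc d hd hab h
    have h1 : (a : ℝ) + d = (c : ℝ) + b := by
      have : a + d = c + b := by linarith
      exact_mod_cast this
    rcases hSid a (hmem a ha) d (hmem d hd) c (hmem c hc) b (hmem b hb) h1 with h2 | h2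
    · exact ⟨by exact_mod_cast h2.1, by exact_mod_cast h2.2.symm⟩
    · exfalso
      exact hab (by exact_mod_cast h2.1)
  rw [hcard]
  exact hA S hSA hSS

/-- arbitrarily large real sets with only small Sidon subsets (sum form) -/
theorem real_exists : ∃ δ : ℝ, 0 < δ ∧ δ ≤ 1 / 100 ∧ ∀ M : ℕ, ∃ n : ℕ, M ≤ n ∧
    ∃ A : Finset ℝ, (1 - 17 / 16 * δ) * (n : ℝ) ^ 2 ≤ A.card ∧
      ∀ T ⊆ A, (∀ a ∈ T, ∀ b ∈ T, ∀ c ∈ T, ∀ d ∈ T,
            a + b = c + d → ((a = c ∧ b = d) ∨ (a = d ∧ b = c))) →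
        (T.card : ℝ) < (1 - 3 / 4 * δ) * n := by
  obtain ⟨δ, hδ0, hδ1, hmain⟩ := main_exists
  refine ⟨δ, hδ0, hδ1, fun M => ?_⟩
  obtain ⟨n, hn, A, hA, hAS⟩ := hmain M
  refine ⟨n, hn, A.image (fun a : ℤ => (a : ℝ)), ?_, real_transfer_sum A _ hAS⟩
  rw [Finset.card_image_of_injective _ Int.cast_injective]
  exact hA

/-- covering by Sidon sets: the conjecture of Alon and Erdős is false -/
theorem final_cover :
    ¬ (∀ ε : ℝ, 0 < ε → ∃ N₀ : ℕ, ∀ A : Finset ℝ, N₀ ≤ A.card →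
      ∃ k : ℕ, (k : ℝ) ≤ (1 + ε) * Real.sqrt (A.card : ℝ) ∧
        ∃ S : Fin k → Finset ℝ,
          (∀ i, ∀ a ∈ S i, ∀ b ∈ S i, ∀ c ∈ S i, ∀ d ∈ S i,
              a + b = c + d → (a = c ∧ b = d) ∨ (a = d ∧ b = c)) ∧
          ∀ x ∈ A, ∃ i, x ∈ S i) := by
  intro h
  obtain ⟨δ, hδ0, hδ1, hmain⟩ := real_exists
  obtain ⟨N₀, hN₀⟩ := h (δ / 16) (by positivity)
  obtain ⟨n, hMn, A, hA, hAS⟩ := hmain (N₀ + 2)
  have hnr : (N₀ : ℝ) + 2 ≤ n := by exact_mod_cast hMn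
  have hN0r : (0 : ℝ) ≤ N₀ := by positivity
  have hn0 : (0 : ℝ) < n := by linarith
  have hAn : (n : ℝ) ≤ (1 - 17 / 16 * δ) * (n : ℝ) ^ 2 := by
    have : (1 : ℝ) ≤ (1 - 17 / 16 * δ) * n := by nlinarith
    nlinarith
  have hNA : N₀ ≤ A.card := by
    have : (N₀ : ℝ) ≤ A.card := by linarith
    exact_mod_cast this
  obtain ⟨k, hk, S, hS, hcov⟩ := hN₀ A hNA
  -- |A| ≤ k (1 - 3δ/4) n
  have h1 : (A.card : ℝ) ≤ k * ((1 - 3 / 4 * δ) * n) := by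
    have hsub : A ⊆ Finset.univ.biUnion (fun i : Fin k => A ∩ S i) := by
      intro x hx
      obtain ⟨i, hi⟩ := hcov x hx
      exact Finset.mem_biUnion.2 ⟨i, Finset.mem_univ _, Finset.mem_inter.2 ⟨hx, hi⟩⟩
    have h2 : A.card ≤ ∑ i : Fin k, (A ∩ S i).card :=
      (Finset.card_le_card hsub).trans Finset.card_biUnion_le
    have h3 : ∀ i : Fin k, ((A ∩ S i).card : ℝ) ≤ (1 - 3 / 4 * δ) * n := by
      intro i
      refine (hAS (A ∩ S i) Finset.inter_subset_left ?_).le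
      intro a ha b hb c hc d hd he
      exact hS i a (Finset.mem_inter.1 ha).2 b (Finset.mem_inter.1 hb).2 c (Finset.mem_inter.1 hc).2
        d (Finset.mem_inter.1 hd).2 he
    calc (A.card : ℝ) ≤ ((∑ i : Fin k, (A ∩ S i).card : ℕ) : ℝ) := by exact_mod_cast h2
      _ = ∑ i : Fin k, ((A ∩ S i).card : ℝ) := by push_cast; rfl
      _ ≤ ∑ i : Fin k, (1 - 3 / 4 * δ) * (n : ℝ) := Finset.sum_le_sum (fun i _ => h3 i)
      _ = k * ((1 - 3 / 4 * δ) * n) := by simp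
  have hApos : (0 : ℝ) < A.card := by linarith
  obtain ⟨s, hs⟩ : ∃ s, s = Real.sqrt (A.card : ℝ) := ⟨_, rfl⟩
  have hs0 : 0 < s := by rw [hs]; exact Real.sqrt_pos.2 hApos
  have hss : s * s = A.card := by rw [hs]; exact Real.mul_self_sqrt hApos.le
  rw [← hs] at hk
  have h4 : s * s ≤ ((1 + δ / 16) * s) * ((1 - 3 / 4 * δ) * n) := by
    rw [hss]
    refine h1.trans ?_
    apply mul_le_mul_of_nonneg_right hk
    apply mul_nonneg _ hn0.le
    linarith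
  have h5 : s ≤ (1 + δ / 16) * ((1 - 3 / 4 * δ) * n) := by
    have : s * s ≤ s * ((1 + δ / 16) * ((1 - 3 / 4 * δ) * n)) := by linarith
    exact le_of_mul_le_mul_left this hs0
  have h6 : s * s ≤ ((1 + δ / 16) * ((1 - 3 / 4 * δ) * n)) ^ 2 := by
    rw [← sq]
    exact pow_le_pow_left₀ hs0.le h5 2
  have h7 : (1 - 17 / 16 * δ) * (n : ℝ) ^ 2 ≤ ((1 + δ / 16) * (1 - 3 / 4 * δ)) ^ 2 * (n : ℝ) ^ 2 := by
    calc (1 - 17 / 16 * δ) * (n : ℝ) ^ 2 ≤ A.card := hA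
      _ = s * s := hss.symm
      _ ≤ _ := h6
      _ = _ := by ring
  have h8 : (1 - 17 / 16 * δ) ≤ ((1 + δ / 16) * (1 - 3 / 4 * δ)) ^ 2 :=
    le_of_mul_le_mul_right h7 (by positivity)
  nlinarith [mul_pos hδ0 hδ0, mul_pos (mul_pos hδ0 hδ0) hδ0, mul_pos (mul_pos hδ0 hδ0) (mul_pos hδ0 hδ0)]

/-- the largest guaranteed Sidon subset is not asymptotic to `√N` -/
theorem final_ell :
    ¬ (Filter.Tendsto
      (fun N : ℕ =>
        ((sSup {k : ℕ | ∀ A : Finset ℝ, A.card = N →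
            ∃ S ⊆ A, S.card = k ∧
              ∀ a ∈ S, ∀ b ∈ S, ∀ c ∈ S, ∀ d ∈ S,
                a + b = c + d → (a = c ∧ b = d) ∨ (a = d ∧ b = c)} : ℕ) : ℝ)
          / Real.sqrt (N : ℝ))
      Filter.atTop (nhds 1)) := by
  intro h
  obtain ⟨δ, hδ0, hδ1, hmain⟩ := real_exists
  have hev : ∀ᶠ N : ℕ in Filter.atTop, 1 - δ / 8 < ((sSup {k : ℕ | ∀ A : Finset ℝ, A.card = N →
            ∃ S ⊆ A, S.card = k ∧
              ∀ a ∈ S, ∀ b ∈ S, ∀ c ∈ S, ∀ d ∈ S,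
                a + b = c + d → (a = c ∧ b = d) ∨ (a = d ∧ b = c)} : ℕ) : ℝ)
          / Real.sqrt (N : ℝ) := h.eventually_const_lt (by linarith)
  obtain ⟨N₀, hN₀⟩ := Filter.eventually_atTop.1 hev
  obtain ⟨n, hMn, A, hA, hAS⟩ := hmain (N₀ + 2)
  have hnr : (N₀ : ℝ) + 2 ≤ n := by exact_mod_cast hMn
  have hN0r : (0 : ℝ) ≤ N₀ := by positivity
  have hn0 : (0 : ℝ) < n := by linarith
  have hAn : (n : ℝ) ≤ (1 - 17 / 16 * δ) * (n : ℝ) ^ 2 := by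
    have : (1 : ℝ) ≤ (1 - 17 / 16 * δ) * n := by nlinarith
    nlinarith
  have hNA : N₀ ≤ A.card := by
    have : (N₀ : ℝ) ≤ A.card := by linarith
    exact_mod_cast this
  have h1 := hN₀ A.card hNA
  have h2 : ((sSup {k : ℕ | ∀ A' : Finset ℝ, A'.card = A.card →
            ∃ S ⊆ A', S.card = k ∧
              ∀ a ∈ S, ∀ b ∈ S, ∀ c ∈ S, ∀ d ∈ S,
                a + b = c + d → (a = c ∧ b = d) ∨ (a = d ∧ b = c)} : ℕ) : ℝ) ≤ (1 - 3 / 4 * δ) * n := by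
    have hmem := Nat.sSup_mem (s := {k : ℕ | ∀ A' : Finset ℝ, A'.card = A.card →
            ∃ S ⊆ A', S.card = k ∧
              ∀ a ∈ S, ∀ b ∈ S, ∀ c ∈ S, ∀ d ∈ S,
                a + b = c + d → (a = c ∧ b = d) ∨ (a = d ∧ b = c)})
      ⟨0, by
        intro A' _
        exact ⟨∅, Finset.empty_subset _, rfl, by simp⟩⟩
      ⟨A.card, by
        rintro k hk
        obtain ⟨S, hS, hSk, _⟩ := hk A rfl
        rw [← hSk]
        exact Finset.card_le_card hS⟩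
    obtain ⟨S, hS, hSk, hSS⟩ := hmem A rfl
    rw [← hSk]
    exact (hAS S hS hSS).le
  have hApos : (0 : ℝ) < A.card := by linarith
  have hs0 : 0 < Real.sqrt (A.card : ℝ) := Real.sqrt_pos.2 hApos
  have hss : Real.sqrt (A.card : ℝ) * Real.sqrt (A.card : ℝ) = A.card := Real.mul_self_sqrt hApos.le
  rw [lt_div_iff₀ hs0] at h1
  have h3 : (1 - δ / 8) * Real.sqrt (A.card : ℝ) < (1 - 3 / 4 * δ) * n := lt_of_lt_of_le h1 h2
  generalize Real.sqrt (A.card : ℝ) = s at *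
  have h4 : ((1 - δ / 8) * s) ^ 2 ≤ ((1 - 3 / 4 * δ) * n) ^ 2 := by
    apply pow_le_pow_left₀ _ h3.le 2
    apply mul_nonneg _ hs0.le
    linarith
  have h5 : (1 - δ / 8) ^ 2 * ((1 - 17 / 16 * δ) * (n : ℝ) ^ 2) ≤ (1 - 3 / 4 * δ) ^ 2 * (n : ℝ) ^ 2 := by
    calc (1 - δ / 8) ^ 2 * ((1 - 17 / 16 * δ) * (n : ℝ) ^ 2) ≤ (1 - δ / 8) ^ 2 * A.card := by
          apply mul_le_mul_of_nonneg_left hA (by positivity)
      _ = ((1 - δ / 8) * s) ^ 2 := by rw [← hss]; ring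
      _ ≤ _ := h4
      _ = _ := by ring
  have h6 : (1 - δ / 8) ^ 2 * (1 - 17 / 16 * δ) ≤ (1 - 3 / 4 * δ) ^ 2 := by
    have : ((1 - δ / 8) ^ 2 * (1 - 17 / 16 * δ)) * (n : ℝ) ^ 2 ≤ (1 - 3 / 4 * δ) ^ 2 * (n : ℝ) ^ 2 := by
      linarith
    exact le_of_mul_le_mul_right this (by positivity)
  nlinarith [mul_pos hδ0 hδ0, mul_pos (mul_pos hδ0 hδ0) hδ0]

end Pool.Agent.Be54
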